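import Pool.Agent.Z85.LS.Law

set_option autoImplicit false

noncomputable section

open scoped Classical ENNReal Matrix
open Finset Filter MeasureTheory ProbabilityTheory

namespace Pool.Agent.Z85.LS

/-- a bound for all sections in one coordinate is a bound for the measure -/
theorem pi_le_of_update {ι : Type} [Fintype ι] [DecidableEq ι] {X : ι → Type} [∀ i, MeasurableSpace (X i)]
    (μ : ∀ i, Measure (X i)) [∀ i, IsProbabilityMeasure (μ i)] (i : ι) (S : Set (∀ i, X i))
    (hS : MeasurableSet S) (p : ℝ≥0∞) (h : ∀ x, μ i {y | Function.update x i y ∈ S} ≤ p) :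
    Measure.pi μ S ≤ p := by
  have h1 : ∫⁻ x, S.indicator 1 x ∂Measure.pi μ ≤ ∫⁻ _, p ∂Measure.pi μ := by
    refine lintegral_le_of_lmarginal_le (s := {i}) (measurable_one.indicator hS)
      measurable_const ?_
    rw [lmarginal_singleton, lmarginal_singleton]
    intro x
    simp only
    have h2 : ∀ y, S.indicator (1 : (∀ i, X i) → ℝ≥0∞) (Function.update x i y) =
        {y | Function.update x i y ∈ S}.indicator 1 y := by
      intro y
      simp only [Set.indicator, Set.mem_ofPred_eq, Pi.one_apply]
    simp_rw [h2]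
    have hT : MeasurableSet {y | Function.update x i y ∈ S} := hS.preimage (measurable_update x)
    rw [lintegral_indicator_one hT]
    simp only [lintegral_const, measure_univ, mul_one]
    exact h x
  rw [lintegral_indicator_one hS] at h1
  simpa using h1

theorem one_coord {μ : Measure ℝ} [IsProbabilityMeasure μ] {n : ℕ} (i j : Fin n)
    (S : Set (Fin n → Fin n → ℝ)) (hS : MeasurableSet S) (p : ℝ≥0∞)
    (h : ∀ A : Fin n → Fin n → ℝ,
      μ {y | Function.update A i (Function.update (A i) j y) ∈ S} ≤ p) :
    law μ n S ≤ p := by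
  unfold law
  refine pi_le_of_update _ i S hS p fun A => ?_
  have hT : MeasurableSet {r : Fin n → ℝ | Function.update A i r ∈ S} :=
    hS.preimage (measurable_update (X := fun _ : Fin n => Fin n → ℝ) A)
  refine pi_le_of_update (fun _ => μ) j _ hT p fun r => ?_
  have h1 := h (Function.update A i r)
  simp only [Function.update_self, Function.update_idem] at h1
  exact h1

theorem det_update {k : ℕ} (M : Matrix (Fin k) (Fin k) ℝ) (i j : Fin k) (y : ℝ) :
    (M.updateRow j (Function.update (M j) i y)).det =
      y * M.adjugate i j + (M.updateRow j (Function.update (M j) i 0)).det := by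
  have h1 : Function.update (M j) i y =
      y • (Pi.single i (1 : ℝ) : Fin k → ℝ) + Function.update (M j) i 0 := by
    funext l
    by_cases hl : l = i
    · subst hl; simp
    · simp [Function.update_of_ne hl, Pi.single_eq_of_ne hl]
  rw [h1, Matrix.det_updateRow_add, Matrix.det_updateRow_smul, Matrix.adjugate_apply]

theorem gauss_Ioo (a b : ℝ) : gaussianReal 0 1 (Set.Ioo a b) ≤ ENNReal.ofReal (b - a) := by
  rw [gaussianReal_apply 0 one_ne_zero]
  calc ∫⁻ x in Set.Ioo a b, gaussianPDF 0 1 x ≤ ∫⁻ _ in Set.Ioo a b, 1 := by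
        refine lintegral_mono fun x => ?_
        unfold gaussianPDF
        rw [← ENNReal.ofReal_one]
        apply ENNReal.ofReal_le_ofReal
        unfold gaussianPDFReal
        have h1 : 1 ≤ √(2 * Real.pi * ((1 : NNReal) : ℝ)) := by
          rw [Real.one_le_sqrt]
          have := Real.pi_gt_three
          push_cast
          linarith
        have h2 : (√(2 * Real.pi * ((1 : NNReal) : ℝ)))⁻¹ ≤ 1 := inv_le_one_of_one_le₀ h1
        have h3 : Real.exp (-(x - 0) ^ 2 / (2 * ((1 : NNReal) : ℝ))) ≤ 1 := by
          rw [Real.exp_le_one_iff]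
          push_cast
          nlinarith [sq_nonneg x]
        have h4 : 0 ≤ (√(2 * Real.pi * ((1 : NNReal) : ℝ)))⁻¹ := by positivity
        exact mul_le_one₀ h2 (Real.exp_pos _).le h3
    _ = ENNReal.ofReal (b - a) := by
        rw [lintegral_one, Measure.restrict_apply_univ, Real.volume_Ioo]

theorem gauss_singleton (x : ℝ) : gaussianReal 0 1 {x} = 0 := by
  have := nullSingletonClass_gaussianReal (μ := 0) (v := 1) one_ne_zero
  exact measure_singleton x

/-- the entries are not too large -/
theorem gauss_entry {n : ℕ} (hn : 1 ≤ n) (i j : Fin n) :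
    law (gaussianReal 0 1) n {A | (n : ℝ) ^ 2 < |A i j|} ≤ ENNReal.ofReal (1 / (n : ℝ) ^ 4) := by
  have hn0 : (0 : ℝ) < n := by exact_mod_cast hn
  refine one_coord i j _ (measurableSet_lt measurable_const (by fun_prop)) _ fun A => ?_
  have h1 : {y | Function.update A i (Function.update (A i) j y) ∈
      {A : Fin n → Fin n → ℝ | (n : ℝ) ^ 2 < |A i j|}} ⊆
      {y : ℝ | (n : ℝ) ^ 2 ≤ |id y - ∫ x, id x ∂gaussianReal 0 1|} := by
    intro y hy
    have h2 : ∫ x, id x ∂gaussianReal 0 1 = 0 := integral_id_gaussianReal
    simp only [Set.mem_ofPred_eq, Function.update_self] at hy ⊢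
    rw [h2, sub_zero]
    exact hy.le
  refine (measure_mono h1).trans ?_
  have h3 := meas_ge_le_variance_div_sq (memLp_id_gaussianReal (μ := 0) (v := 1) 2)
    (pow_pos hn0 2)
  refine h3.trans (le_of_eq ?_)
  rw [variance_id_gaussianReal]
  congr 1
  push_cast
  ring

/-- the entries of the inverse are not too large -/
theorem gauss_adj {n : ℕ} (hn : 1 ≤ n) (i j : Fin n) :
    law (gaussianReal 0 1) n {A | (n : ℝ) ^ 4 * |(Matrix.of A).det| <
      |(Matrix.of A).adjugate i j|} ≤ ENNReal.ofReal (2 / (n : ℝ) ^ 4) := by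
  have hn0 : (0 : ℝ) < n := by exact_mod_cast hn
  have hn4 : (0 : ℝ) < (n : ℝ) ^ 4 := by positivity
  have hdet := (continuous_det n).measurable
  have hadj := (continuous_adj n i j).measurable
  refine one_coord j i _ (measurableSet_lt (hdet.abs.const_mul _) hadj.abs) _ fun A => ?_
  set M : Matrix (Fin n) (Fin n) ℝ := Matrix.of A with hM
  set c := M.adjugate i j with hc
  set d := (M.updateRow j (Function.update (M j) i 0)).det with hd
  have h1 : ∀ y, (Matrix.of (Function.update A j (Function.update (A j) i y))).det =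
      y * c + d := fun y => det_update M i j y
  have h2 : ∀ y, (Matrix.of (Function.update A j (Function.update (A j) i y))).adjugate i j =
      c := by
    intro y
    rw [hc, Matrix.adjugate_apply, Matrix.adjugate_apply]
    change ((M.updateRow j _).updateRow j _).det = _
    rw [Matrix.updateRow_idem]
  have h3 : {y | Function.update A j (Function.update (A j) i y) ∈
      {A : Fin n → Fin n → ℝ | (n : ℝ) ^ 4 * |(Matrix.of A).det| <
      |(Matrix.of A).adjugate i j|}} ⊆
      Set.Ioo (-(d / c) - 1 / (n : ℝ) ^ 4) (-(d / c) + 1 / (n : ℝ) ^ 4) := by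
    intro y hy
    simp only [Set.mem_ofPred_eq] at hy
    rw [h1, h2] at hy
    have hc0 : c ≠ 0 := by
      intro h0
      rw [h0, abs_zero] at hy
      have : 0 ≤ (n : ℝ) ^ 4 * |y * 0 + d| := by positivity
      linarith
    have h4 : |y * c + d| = |y + d / c| * |c| := by
      rw [← abs_mul]
      congr 1
      field_simp
    rw [h4, ← mul_assoc] at hy
    have h5 : (n : ℝ) ^ 4 * |y + d / c| < 1 := by
      by_contra hcon
      push Not at hcon
      have := mul_le_mul_of_nonneg_right hcon (abs_nonneg c)
      linarith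
    have h6 : |y + d / c| < 1 / (n : ℝ) ^ 4 := by
      rw [lt_div_iff₀ hn4]
      linarith
    have h7 := abs_lt.1 h6
    constructor <;> linarith [h7.1, h7.2]
  refine (measure_mono h3).trans ((gauss_Ioo _ _).trans (le_of_eq ?_))
  congr 1
  ring

/-- the leading principal minors do not vanish -/
theorem gauss_minor (n : ℕ) : ∀ (k : ℕ) (hk : k ≤ n), law (gaussianReal 0 1) n
    {A | ((Matrix.of A).submatrix (Fin.castLE hk) (Fin.castLE hk)).det = 0} = 0 := by
  intro k
  induction k with
  | zero =>
    intro hk
    have : {A : Fin n → Fin n → ℝ |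
        ((Matrix.of A).submatrix (Fin.castLE hk) (Fin.castLE hk)).det = 0} = ∅ := by
      ext A
      simp
    rw [this, measure_empty]
  | succ k ih =>
    intro hk
    have hk' : k ≤ n := by omega
    have hcont : ∀ (l : ℕ) (hl : l ≤ n), Measurable fun A : Fin n → Fin n → ℝ =>
        ((Matrix.of A).submatrix (Fin.castLE hl) (Fin.castLE hl)).det := by
      intro l hl
      have h1 : Continuous fun A : Fin n → Fin n → ℝ =>
          ((Matrix.of A).submatrix (Fin.castLE hl) (Fin.castLE hl)).det :=
        Continuous.matrix_det (Continuous.matrix_submatrix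
          (continuous_id (X := Matrix (Fin n) (Fin n) ℝ)) _ _)
      exact h1.measurable
    set S : Set (Fin n → Fin n → ℝ) := {A |
      ((Matrix.of A).submatrix (Fin.castLE hk') (Fin.castLE hk')).det ≠ 0 ∧
      ((Matrix.of A).submatrix (Fin.castLE hk) (Fin.castLE hk)).det = 0} with hS
    have hSm : MeasurableSet S :=
      ((hcont k hk') (measurableSet_singleton (0 : ℝ))).compl.inter
        ((hcont (k + 1) hk) (measurableSet_singleton (0 : ℝ)))
    have hS0 : law (gaussianReal 0 1) n S ≤ 0 := by
      set e := Fin.castLE hk (Fin.last k) with he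
      refine one_coord e e S hSm 0 fun A => ?_
      set M : Matrix (Fin (k + 1)) (Fin (k + 1)) ℝ :=
        (Matrix.of A).submatrix (Fin.castLE hk) (Fin.castLE hk) with hM
      set c := M.adjugate (Fin.last k) (Fin.last k) with hc
      set d := (M.updateRow (Fin.last k) (Function.update (M (Fin.last k)) (Fin.last k) 0)).det
        with hd
      have h1 : ∀ y, ((Matrix.of (Function.update A e (Function.update (A e) e y))).submatrix
          (Fin.castLE hk) (Fin.castLE hk)) =
          M.updateRow (Fin.last k) (Function.update (M (Fin.last k)) (Fin.last k) y) := by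
        intro y
        ext a b
        rw [Matrix.submatrix_apply, Matrix.of_apply]
        by_cases ha : a = Fin.last k
        · subst ha
          rw [Matrix.updateRow_self, ← he, Function.update_self]
          by_cases hb : b = Fin.last k
          · subst hb
            rw [← he, Function.update_self, Function.update_self]
          · rw [Function.update_of_ne hb, Function.update_of_ne]
            · rfl
            · intro h
              exact hb (Fin.castLE_injective hk h)
        · rw [Matrix.updateRow_ne ha, Function.update_of_ne]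
          · rfl
          · intro h
            exact ha (Fin.castLE_injective hk h)
      have h2 : ∀ y, ((Matrix.of (Function.update A e (Function.update (A e) e y))).submatrix
          (Fin.castLE hk') (Fin.castLE hk')).det = c := by
        intro y
        rw [hc, Matrix.adjugate_fin_succ_eq_det_submatrix]
        simp only [Fin.succAbove_last]
        have h3 : (-1 : ℝ) ^ (((Fin.last k : Fin (k + 1)) : ℕ) + ((Fin.last k : Fin (k + 1)) : ℕ)) =
            1 := by
          rw [← two_mul, pow_mul]
          norm_num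
        rw [h3, one_mul]
        congr 1
        ext a b
        rw [Matrix.submatrix_apply, Matrix.of_apply, hM, Matrix.submatrix_apply,
          Matrix.submatrix_apply, Matrix.of_apply, Function.update_of_ne]
        · rfl
        · intro h
          have h4 := congrArg Fin.val h
          simp only [he, Fin.val_castLE, Fin.val_last] at h4
          have := a.2
          omega
      have h3 : {y | Function.update A e (Function.update (A e) e y) ∈ S} ⊆ {-(d / c)} := by
        intro y hy
        obtain ⟨hy1, hy2⟩ := hy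
        rw [h2] at hy1
        rw [h1, det_update, ← hc, ← hd] at hy2
        rw [Set.mem_singleton_iff]
        field_simp
        linarith
      refine (measure_mono h3).trans ?_
      rw [gauss_singleton]
    have hsub : {A : Fin n → Fin n → ℝ |
        ((Matrix.of A).submatrix (Fin.castLE hk) (Fin.castLE hk)).det = 0} ⊆
        {A | ((Matrix.of A).submatrix (Fin.castLE hk') (Fin.castLE hk')).det = 0} ∪ S := by
      intro A hA
      by_cases h : ((Matrix.of A).submatrix (Fin.castLE hk') (Fin.castLE hk')).det = 0
      · left; exact h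
      · right; exact ⟨h, hA⟩
    refine measure_mono_null hsub ?_
    rw [measure_union_null_iff]
    exact ⟨ih hk', le_antisymm hS0 bot_le⟩

theorem gauss_det (n : ℕ) : law (gaussianReal 0 1) n {A | (Matrix.of A).det = 0} = 0 := by
  have h := gauss_minor n n le_rfl
  have h1 : ∀ A : Fin n → Fin n → ℝ,
      (Matrix.of A).submatrix (Fin.castLE (le_refl n)) (Fin.castLE (le_refl n)) = Matrix.of A := by
    intro A
    ext a b
    rfl
  simp_rw [h1] at h
  exact h

/-- **Gaussian entries** -/
theorem gauss_tendsto : Tendsto (fun n => law (gaussianReal 0 1) n (E n)) atTop (nhds 1) := by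
  have hlim : Tendsto (fun n : ℕ => 3 * ((n : ℝ))⁻¹) atTop (nhds 0) := by
    have := (tendsto_inv_atTop_nhds_zero_nat (𝕜 := ℝ)).const_mul 3
    rwa [mul_zero] at this
  refine tendsto_one _ hlim ?_
  filter_upwards [eventually_ge_atTop 2] with n hn
  have hn1 : 1 ≤ n := by omega
  have hn2 : (2 : ℝ) ≤ n := by exact_mod_cast hn
  have hn0 : (0 : ℝ) < n := by linarith
  have hsub : (E n)ᶜ ⊆ (⋃ i : Fin n, ⋃ j : Fin n, {A : Fin n → Fin n → ℝ |
      (n : ℝ) ^ 2 < |A i j|}) ∪ ({A | (Matrix.of A).det = 0} ∪
      ⋃ i : Fin n, ⋃ j : Fin n, {A : Fin n → Fin n → ℝ | (n : ℝ) ^ 4 * |(Matrix.of A).det| <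
      |(Matrix.of A).adjugate i j|}) := by
    intro A hA
    by_contra hcon
    simp only [Set.mem_union, Set.mem_iUnion, Set.mem_ofPred_eq, not_or, not_exists, not_lt]
      at hcon
    exact hA ⟨hn, hcon.1, hcon.2.1, hcon.2.2⟩
  refine (measure_mono hsub).trans ((measure_union_le _ _).trans ?_)
  have h1 : law (gaussianReal 0 1) n (⋃ i : Fin n, ⋃ j : Fin n, {A : Fin n → Fin n → ℝ |
      (n : ℝ) ^ 2 < |A i j|}) ≤ n * (n * ENNReal.ofReal (1 / (n : ℝ) ^ 4)) := by
    refine (measure_iUnion_fintype_le _ _).trans ?_
    refine (Finset.sum_le_card_nsmul _ _ (n * ENNReal.ofReal (1 / (n : ℝ) ^ 4))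
      fun i _ => ?_).trans (by simp)
    refine (measure_iUnion_fintype_le _ _).trans ?_
    exact (Finset.sum_le_card_nsmul _ _ (ENNReal.ofReal (1 / (n : ℝ) ^ 4))
      fun j _ => gauss_entry hn1 i j).trans (by simp)
  have h2 : law (gaussianReal 0 1) n (⋃ i : Fin n, ⋃ j : Fin n, {A : Fin n → Fin n → ℝ |
      (n : ℝ) ^ 4 * |(Matrix.of A).det| < |(Matrix.of A).adjugate i j|}) ≤
      n * (n * ENNReal.ofReal (2 / (n : ℝ) ^ 4)) := by
    refine (measure_iUnion_fintype_le _ _).trans ?_
    refine (Finset.sum_le_card_nsmul _ _ (n * ENNReal.ofReal (2 / (n : ℝ) ^ 4))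
      fun i _ => ?_).trans (by simp)
    refine (measure_iUnion_fintype_le _ _).trans ?_
    exact (Finset.sum_le_card_nsmul _ _ (ENNReal.ofReal (2 / (n : ℝ) ^ 4))
      fun j _ => gauss_adj hn1 i j).trans (by simp)
  have h3 : law (gaussianReal 0 1) n ({A | (Matrix.of A).det = 0} ∪
      ⋃ i : Fin n, ⋃ j : Fin n, {A : Fin n → Fin n → ℝ | (n : ℝ) ^ 4 * |(Matrix.of A).det| <
      |(Matrix.of A).adjugate i j|}) ≤ n * (n * ENNReal.ofReal (2 / (n : ℝ) ^ 4)) := by
    refine (measure_union_le _ _).trans ?_
    rw [gauss_det, zero_add]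
    exact h2
  refine (add_le_add h1 h3).trans ?_
  have h4 : ∀ x : ℝ, 0 ≤ x → (n : ℝ≥0∞) * (n * ENNReal.ofReal x) =
      ENNReal.ofReal (n * (n * x)) := by
    intro x hx
    rw [ENNReal.ofReal_mul hn0.le, ENNReal.ofReal_mul hn0.le, ENNReal.ofReal_natCast]
  rw [h4 _ (by positivity), h4 _ (by positivity), ← ENNReal.ofReal_add (by positivity)
    (by positivity)]
  apply ENNReal.ofReal_le_ofReal
  have h5 : (n : ℝ) * (n * (1 / (n : ℝ) ^ 4)) + n * (n * (2 / (n : ℝ) ^ 4)) =
      3 * (1 / (n : ℝ) ^ 2) := by
    field_simp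
    ring
  rw [h5]
  apply mul_le_mul_of_nonneg_left _ (by norm_num)
  rw [one_div]
  apply inv_anti₀ hn0
  nlinarith

end Pool.Agent.Z85.LS
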