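import Pool.Agent.Z85.LS.Lists

set_option autoImplicit false

noncomputable section

open scoped Classical

namespace Pool.Agent.Z85.LS

/-! ### The algorithm

Parameters: a power `q` of two and a list `L` of length `log₂ q` (only its length matters).  Matrices
are lists of rows.  Numbers are rounded to multiples of `1 / N`, `N = q ^ 40`, and products of
matrices of such numbers are computed by packing the rows of the second factor in base
`q ^ 100`. -/

/-- one bit of `z ∈ [0, 1)`: `(d, z) ↦ (2 d + bit, fractional part of 2 z)` -/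
def bitStep (s : ℝ × ℝ) : ℝ × ℝ :=
  if 0 ≤ s.2 + s.2 - 1 then (s.1 + s.1 + 1, s.2 + s.2 - 1) else (s.1 + s.1, s.2 + s.2)

/-- `m |L|` bits of `z` -/
def dig (m : ℕ) (L : List ℝ) (s : ℝ × ℝ) : ℝ × ℝ := L.foldl (fun s _ => bitStep^[m] s) s

/-- half of `2 ^ (60 |L|)` -/
def hh (q : ℝ) : ℝ := q ^ 60 / (1 + 1)

/-- rounding down to a multiple of `q ^ (-40)` -/
def rnd (q : ℝ) (L : List ℝ) (x : ℝ) : ℝ :=
  ((dig 60 L (0, (q ^ 40 * x + hh q) / q ^ 60)).1 - hh q) / q ^ 40

/-- one digit in base `q ^ 100` of the packed number `z` -/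
def unStep (q : ℝ) (L : List ℝ) (s : ℝ × List ℝ) : ℝ × List ℝ :=
  ((dig 40 L (0, (dig 60 L (0, s.1)).2)).2,
    ((dig 60 L (0, s.1)).1 - hh q) / q ^ 40 :: s.2)

/-- all digits of `z`; the number of digits is the length of `c` -/
def unpack (q : ℝ) (L c : List ℝ) (z : ℝ) : List ℝ :=
  (c.foldl (fun s _ => unStep q L s) (z, [])).2

/-- packing of a list -/
def pack (q : ℝ) (l : List ℝ) : ℝ := l.foldl (fun s d => (s + d) / q ^ 100) 0

/-- packing of the list of ones -/
def packOne (q : ℝ) (l : List ℝ) : ℝ := l.foldl (fun s _ => (s + 1) / q ^ 100) 0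

/-- product of matrices, rounded down to multiples of `q ^ (-40)` -/
def mulr (q : ℝ) (L : List ℝ) (A X : List (List ℝ)) : List (List ℝ) :=
  A.map (fun row => unpack q L row
    (q ^ 40 * q ^ 40 * dot row (X.map (pack q)) + hh q * q ^ 40 * packOne q row))

/-- one step `X ↦ 2 X - X (A X)` of the iteration of Newton and Schulz -/
def newton (q : ℝ) (L : List ℝ) (A X : List (List ℝ)) : List (List ℝ) :=
  (X.zip (mulr q L X (mulr q L A X))).map
    (fun p => (p.1.zip p.2).map (fun t => t.1 + t.1 - t.2))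

/-- rounding of a matrix -/
def rndM (q : ℝ) (L : List ℝ) (A : List (List ℝ)) : List (List ℝ) :=
  A.map (fun row => row.map (rnd q L))

/-- transposition -/
def trans (A : List (List ℝ)) : List (List ℝ) :=
  A.reverse.foldl (fun acc row => (row.zip acc).map (fun p => p.1 :: p.2)) (A.map (fun _ => []))

/-- sum of the squares of the entries -/
def sqs (A : List (List ℝ)) : ℝ := A.foldl (fun s row => s + dot row row) 0

/-- the starting matrix `Aᵀ / ∑ A_ij²`, rounded -/
def start (q : ℝ) (L : List ℝ) (A : List (List ℝ)) : List (List ℝ) :=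
  (trans A).map (fun row => row.map (fun x => rnd q L (x / sqs A)))

/-- the approximate inverse of `A` (rounded already) -/
def inv (q : ℝ) (L : List ℝ) (A : List (List ℝ)) : List (List ℝ) :=
  L.foldl (fun X _ => (newton q L A)^[40] X) (start q L A)

/-- matrix times vector -/
def mv (A : List (List ℝ)) (v : List ℝ) : List ℝ := A.map (fun row => dot row v)

/-! ### The number of operations -/

section prog

variable {a b : ℕ} {α β γ σ : Type} {P : Shape α} {Q : Shape σ} {R : Shape β} {S : Shape γ}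

theorem Prog.iter {s : α → α} (hs : Prog a b P s P) (m : ℕ) : Prog a b P (s^[m]) P := by
  induction m with
  | zero => exact Prog.id
  | succ m ih => exact (Prog.comp hs ih).congr fun x => (Function.iterate_succ_apply s m x).symm

/-- the same with a body depending on the environment -/
theorem Prog.iterE {s : α × σ → σ} (hs : Prog a b (PS P Q) s Q) (m : ℕ) {t : α → σ}
    (ht : Prog a b P t Q) : Prog a b P (fun x => (fun y => s (x, y))^[m] (t x)) Q := by
  have h1 : Prog a b (PS P Q) ((fun p : α × σ => (p.1, s p))^[m]) (PS P Q) :=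
    Prog.iter (Prog.id.fst.pair hs) m
  have h2 : ∀ (m : ℕ) (x : α) (y : σ), (fun p : α × σ => (p.1, s p))^[m] (x, y) =
      (x, (fun y => s (x, y))^[m] y) := by
    intro m
    induction m with
    | zero => intro x y; rfl
    | succ m ih =>
      intro x y
      rw [Function.iterate_succ_apply, Function.iterate_succ_apply]
      exact ih x _
  refine (((Prog.id.pair ht).comp h1).snd).congr fun x => ?_
  rw [h2]

theorem Prog.bitStep : Prog a b (PS Any Any) bitStep (PS Any Any) := by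
  unfold LS.bitStep
  exact Prog.branch ((Prog.id.snd.add Prog.id.snd).sub Prog.one)
    (((Prog.id.fst.add Prog.id.fst).add Prog.one).pair ((Prog.id.snd.add Prog.id.snd).sub Prog.one))
    ((Prog.id.fst.add Prog.id.fst).pair (Prog.id.snd.add Prog.id.snd))

theorem Prog.dig (m : ℕ) {L : α → List ℝ} {s : α → ℝ × ℝ} (hL : Prog a (b + 1) P L (LK Any))
    (hs : Prog a (b + 1) P s (PS Any Any)) :
    Prog a (b + 1) P (fun x => dig m (L x) (s x)) (PS Any Any) :=
  Prog.foldK (step := fun q : α × (ℝ × ℝ) × ℝ => LS.bitStep^[m] q.2.1) hL hs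
    (Prog.id.snd.fst.comp (Prog.bitStep.iter m))

theorem Prog.hh {q : α → ℝ} (hq : Prog a b P q Any) : Prog a b P (fun x => hh (q x)) Any :=
  (hq.npow 60).div (Prog.one.add Prog.one)

theorem Prog.rnd {q : α → ℝ} {L : α → List ℝ} {x : α → ℝ} (hq : Prog a (b + 1) P q Any)
    (hL : Prog a (b + 1) P L (LK Any)) (hx : Prog a (b + 1) P x Any) :
    Prog a (b + 1) P (fun y => rnd (q y) (L y) (x y)) Any :=
  ((Prog.dig 60 hL (Prog.zero.pair ((((hq.npow 40).mul hx).add hq.hh).div (hq.npow 60)))).fst.sub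
    hq.hh).div (hq.npow 40)

theorem Prog.unStep {q : α → ℝ} {L : α → List ℝ} {s : α → ℝ × List ℝ}
    (hq : Prog a (b + 1) P q Any) (hL : Prog a (b + 1) P L (LK Any))
    (hs : Prog a (b + 1) P s (PS Any (All Any))) :
    Prog a (b + 1) P (fun y => unStep (q y) (L y) (s y)) (PS Any (All Any)) :=
  Prog.pair (Prog.dig 40 hL (Prog.zero.pair (Prog.dig 60 hL (Prog.zero.pair hs.fst)).snd)).snd
    (Prog.consAll ((((Prog.dig 60 hL (Prog.zero.pair hs.fst)).fst.sub hq.hh).div (hq.npow 40)))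
      hs.snd)

theorem unStep_len (q : ℝ) (L : List ℝ) (c : List ℝ) : ∀ s : ℝ × List ℝ,
    (c.foldl (fun s _ => unStep q L s) s).2.length = c.length + s.2.length := by
  induction c with
  | nil => intro s; simp
  | cons y t ih =>
    intro s
    rw [List.foldl_cons, ih]
    simp only [unStep, List.length_cons]
    omega

theorem unpack_length (q : ℝ) (L c : List ℝ) (z : ℝ) : (unpack q L c z).length = c.length := by
  unfold unpack
  rw [unStep_len]
  simp

theorem Prog.unpack {q : α → ℝ} {L c : α → List ℝ} {z : α → ℝ}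
    (hq : Prog (a + 1) (b + 1) P q Any) (hL : Prog (a + 1) (b + 1) P L (LK Any))
    (hc : Prog (a + 1) (b + 1) P c (LN Any)) (hz : Prog (a + 1) (b + 1) P z Any) :
    Prog (a + 1) (b + 1) P (fun y => unpack (q y) (L y) (c y) (z y)) (LN Any) := by
  have h1 : Prog (a + 1) (b + 1) (PS Any (PS (LK Any) (PS (LN Any) Any)))
      (fun y : ℝ × List ℝ × List ℝ × ℝ => LS.unpack y.1 y.2.1 y.2.2.1 y.2.2.2) (All Any) :=
    (Prog.foldN (l := fun y : ℝ × List ℝ × List ℝ × ℝ => y.2.2.1)
      (s0 := fun y : ℝ × List ℝ × List ℝ × ℝ => (y.2.2.2, ([] : List ℝ)))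
      (step := fun p : (ℝ × List ℝ × List ℝ × ℝ) × (ℝ × List ℝ) × ℝ =>
        LS.unStep p.1.1 p.1.2.1 p.2.1)
      (Q := PS Any (All Any)) (R := Any)
      Prog.id.snd.snd.fst (Prog.pair Prog.id.snd.snd.snd Prog.nil')
      (Prog.unStep Prog.id.fst.fst Prog.id.fst.snd.fst Prog.id.snd.fst)).snd
  have h2 := h1.reshape (Q' := LN Any) fun n k x hx =>
    ⟨by rw [unpack_length]; exact hx.2.2.1.1, fun _ _ => trivial⟩
  exact (hq.pair (hL.pair (hc.pair hz))).comp h2

theorem Prog.pack {q : α → ℝ} {l : α → List ℝ} (hq : Prog (a + 1) b P q Any)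
    (hl : Prog (a + 1) b P l (LN Any)) : Prog (a + 1) b P (fun y => pack (q y) (l y)) Any := by
  have h1 : Prog (a + 1) b (PS Any (LN Any)) (fun y : ℝ × List ℝ => LS.pack y.1 y.2) Any :=
    Prog.foldN (l := fun y : ℝ × List ℝ => y.2) (s0 := fun _ : ℝ × List ℝ => (0 : ℝ))
      (step := fun p : (ℝ × List ℝ) × ℝ × ℝ => (p.2.1 + p.2.2) / p.1.1 ^ 100)
      (Q := Any) (R := Any) Prog.id.snd Prog.zero
      ((Prog.id.snd.fst.add Prog.id.snd.snd).div (Prog.id.fst.fst.npow 100))
  exact (hq.pair hl).comp h1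

theorem Prog.packOne {q : α → ℝ} {l : α → List ℝ} (hq : Prog (a + 1) b P q Any)
    (hl : Prog (a + 1) b P l (LN Any)) : Prog (a + 1) b P (fun y => packOne (q y) (l y)) Any := by
  have h1 : Prog (a + 1) b (PS Any (LN Any)) (fun y : ℝ × List ℝ => LS.packOne y.1 y.2) Any :=
    Prog.foldN (l := fun y : ℝ × List ℝ => y.2) (s0 := fun _ : ℝ × List ℝ => (0 : ℝ))
      (step := fun p : (ℝ × List ℝ) × ℝ × ℝ => (p.2.1 + 1) / p.1.1 ^ 100)
      (Q := Any) (R := Any) Prog.id.snd Prog.zero
      ((Prog.id.snd.fst.add Prog.one).div (Prog.id.fst.fst.npow 100))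
  exact (hq.pair hl).comp h1

/-- matrices: at most `n` rows of length at most `n` -/
abbrev Mat : Shape (List (List ℝ)) := LN (LN Any)

theorem Prog.mulr {q : α → ℝ} {L : α → List ℝ} {A X : α → List (List ℝ)}
    (hq : Prog (a + 2) (b + 1) P q Any) (hL : Prog (a + 2) (b + 1) P L (LK Any))
    (hA : Prog (a + 2) (b + 1) P A Mat) (hX : Prog (a + 2) (b + 1) P X Mat) :
    Prog (a + 2) (b + 1) P (fun y => mulr (q y) (L y) (A y) (X y)) Mat := by
  have h0 : Prog (a + 2) (b + 1) (PS Any Mat) (fun y : ℝ × List (List ℝ) =>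
      y.2.map (fun r => LS.pack y.1 r)) (LN Any) :=
    Prog.map (l := fun y : ℝ × List (List ℝ) => y.2)
      (g := fun p : (ℝ × List (List ℝ)) × List ℝ => LS.pack p.1.1 p.2) (R := LN Any)
      Prog.id.snd (Prog.pack Prog.id.fst.fst Prog.id.snd)
  have h1 : Prog (a + 2) (b + 1) (PS Any (PS (LK Any) (PS Mat (LN Any))))
      (fun y : ℝ × List ℝ × List (List ℝ) × List ℝ => y.2.2.1.map (fun row =>
        LS.unpack y.1 y.2.1 row (y.1 ^ 40 * y.1 ^ 40 * LS.dot row y.2.2.2 +
          LS.hh y.1 * y.1 ^ 40 * LS.packOne y.1 row))) Mat :=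
    Prog.map (l := fun y : ℝ × List ℝ × List (List ℝ) × List ℝ => y.2.2.1)
      (g := fun p : (ℝ × List ℝ × List (List ℝ) × List ℝ) × List ℝ =>
        LS.unpack p.1.1 p.1.2.1 p.2 (p.1.1 ^ 40 * p.1.1 ^ 40 * LS.dot p.2 p.1.2.2.2 +
          LS.hh p.1.1 * p.1.1 ^ 40 * LS.packOne p.1.1 p.2)) (R := LN Any)
      Prog.id.snd.snd.fst
      (Prog.unpack Prog.id.fst.fst Prog.id.fst.snd.fst Prog.id.snd
        ((((Prog.id.fst.fst.npow 40).mul (Prog.id.fst.fst.npow 40)).mul
          (Prog.dot Prog.id.snd Prog.id.fst.snd.snd.snd)).add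
          (((Prog.id.fst.fst.hh).mul (Prog.id.fst.fst.npow 40)).mul
            (Prog.packOne Prog.id.fst.fst Prog.id.snd))))
  exact (hq.pair (hL.pair (hA.pair ((hq.pair hX).comp h0)))).comp h1

theorem Prog.newton {q : α → ℝ} {L : α → List ℝ} {A X : α → List (List ℝ)}
    (hq : Prog (a + 2) (b + 1) P q Any) (hL : Prog (a + 2) (b + 1) P L (LK Any))
    (hA : Prog (a + 2) (b + 1) P A Mat) (hX : Prog (a + 2) (b + 1) P X Mat) :
    Prog (a + 2) (b + 1) P (fun y => newton (q y) (L y) (A y) (X y)) Mat := by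
  have h1 := hX.zip ((Prog.mulr hq hL hX (Prog.mulr hq hL hA hX)).weaken (fun _ _ _ h => h)
    (Q' := All (LN Any)) fun _ _ _ h => h.2)
  have h2 : Prog (a + 2) (b + 1) (LN (PS (LN Any) (LN Any)))
      (fun l : List (List ℝ × List ℝ) => l.map (fun p => (p.1.zip p.2).map
        (fun t => t.1 + t.1 - t.2))) Mat :=
    Prog.map (l := fun l : List (List ℝ × List ℝ) => l)
      (g := fun p : List (List ℝ × List ℝ) × (List ℝ × List ℝ) => (p.2.1.zip p.2.2).map
        (fun t => t.1 + t.1 - t.2)) (R := PS (LN Any) (LN Any)) Prog.id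
      (Prog.map (l := fun p : List (List ℝ × List ℝ) × (List ℝ × List ℝ) => p.2.1.zip p.2.2)
        (g := fun p : (List (List ℝ × List ℝ) × (List ℝ × List ℝ)) × (ℝ × ℝ) =>
          p.2.1 + p.2.1 - p.2.2) (R := PS Any Any) (S := Any)
        (Prog.zip Prog.id.snd.fst (Prog.id.snd.snd.weaken (fun _ _ _ h => h)
          (Q' := All Any) fun _ _ _ h => h.2))
        ((Prog.id.snd.fst.add Prog.id.snd.fst).sub Prog.id.snd.snd))
  exact h1.comp h2

theorem Prog.rndM {q : α → ℝ} {L : α → List ℝ} {A : α → List (List ℝ)}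
    (hq : Prog (a + 2) (b + 1) P q Any) (hL : Prog (a + 2) (b + 1) P L (LK Any))
    (hA : Prog (a + 2) (b + 1) P A Mat) :
    Prog (a + 2) (b + 1) P (fun y => rndM (q y) (L y) (A y)) Mat := by
  have h1 : Prog (a + 2) (b + 1) (PS Any (PS (LK Any) Mat))
      (fun y : ℝ × List ℝ × List (List ℝ) => LS.rndM y.1 y.2.1 y.2.2) Mat :=
    Prog.map (l := fun y : ℝ × List ℝ × List (List ℝ) => y.2.2)
      (g := fun p : (ℝ × List ℝ × List (List ℝ)) × List ℝ => p.2.map (LS.rnd p.1.1 p.1.2.1))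
      (R := LN Any) Prog.id.snd.snd
      (Prog.map (l := fun p : (ℝ × List ℝ × List (List ℝ)) × List ℝ => p.2)
        (g := fun p : ((ℝ × List ℝ × List (List ℝ)) × List ℝ) × ℝ =>
          LS.rnd p.1.1.1 p.1.1.2.1 p.2) (R := Any) Prog.id.snd
        (Prog.rnd Prog.id.fst.fst.fst Prog.id.fst.fst.snd.fst Prog.id.snd))
  exact (hq.pair (hL.pair hA)).comp h1

theorem Prog.sqs {A : α → List (List ℝ)} (hA : Prog (a + 2) b P A Mat) :
    Prog (a + 2) b P (fun y => sqs (A y)) Any := by
  have h1 : Prog (a + 2) b Mat (fun y : List (List ℝ) => LS.sqs y) Any :=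
    Prog.foldN (l := fun y : List (List ℝ) => y) (s0 := fun _ : List (List ℝ) => (0 : ℝ))
      (step := fun p : List (List ℝ) × ℝ × List ℝ => p.2.1 + LS.dot p.2.2 p.2.2)
      (Q := Any) (R := LN Any) Prog.id Prog.zero
      (Prog.id.snd.fst.add (Prog.dot Prog.id.snd.snd Prog.id.snd.snd))
  exact hA.comp h1

theorem trans_step_len (row : List ℝ) (acc : List (List ℝ)) :
    ((row.zip acc).map (fun p => p.1 :: p.2)).length = min row.length acc.length := by
  simp

theorem trans_shape {n : ℕ} (l : List (List ℝ)) : ∀ (m : ℕ) (acc : List (List ℝ)),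
    acc.length ≤ n → (∀ r ∈ acc, r.length ≤ m) →
    (l.foldl (fun acc row => (row.zip acc).map (fun p => p.1 :: p.2)) acc).length ≤ n ∧
    ∀ r ∈ l.foldl (fun acc row => (row.zip acc).map (fun p => p.1 :: p.2)) acc,
      r.length ≤ m + l.length := by
  induction l with
  | nil => intro m acc h1 h2; exact ⟨h1, by simpa using h2⟩
  | cons y t ih =>
    intro m acc h1 h2
    rw [List.foldl_cons]
    have h3 := ih (m + 1) ((y.zip acc).map (fun p => p.1 :: p.2)) (by
      rw [trans_step_len]; exact (min_le_right _ _).trans h1) (by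
      intro r hr
      simp only [List.mem_map] at hr
      obtain ⟨p, hp, rfl⟩ := hr
      have := h2 p.2 (List.of_mem_zip hp).2
      simpa using this)
    refine ⟨h3.1, fun r hr => (h3.2 r hr).trans ?_⟩
    simp only [List.length_cons]
    omega

theorem Prog.trans {A : α → List (List ℝ)} (hA : Prog (a + 2) b P A Mat) :
    Prog (a + 2) b P (fun y => trans (A y)) Mat := by
  have h1 : Prog (a + 2) b Mat (fun y : List (List ℝ) => LS.trans y) (LN (All Any)) := by
    refine (Prog.foldN (l := fun y : List (List ℝ) => y.reverse)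
      (s0 := fun y : List (List ℝ) => y.map (fun _ => ([] : List ℝ)))
      (step := fun p : List (List ℝ) × List (List ℝ) × List ℝ =>
        (p.2.2.zip p.2.1).map (fun p => p.1 :: p.2))
      (Q := LN (All Any)) (R := LN Any) (Prog.reverse Prog.id) ?_ ?_)
    · exact Prog.map (l := fun y : List (List ℝ) => y)
        (g := fun _ : List (List ℝ) × List ℝ => ([] : List ℝ)) (R := LN Any) Prog.id Prog.nil'
    · refine Prog.map (l := fun p : List (List ℝ) × List (List ℝ) × List ℝ => p.2.2.zip p.2.1)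
        (g := fun p : (List (List ℝ) × List (List ℝ) × List ℝ) × (ℝ × List ℝ) => p.2.1 :: p.2.2)
        (R := PS Any (All Any)) ?_ (Prog.consAll Prog.id.snd.fst Prog.id.snd.snd)
      exact Prog.zip Prog.id.snd.snd (Prog.id.snd.fst.weaken (fun _ _ _ h => h)
          (Q' := All (All Any)) fun _ _ _ h => h.2)
  refine hA.comp (h1.reshape fun n k x hx => ?_)
  have h2 := trans_shape (n := n) x.reverse 0 (x.map (fun _ => [])) (by simpa using hx.1)
    (by simp)
  refine ⟨h2.1, fun r hr => ⟨(h2.2 r hr).trans ?_, fun _ _ => trivial⟩⟩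
  simpa using hx.1

theorem Prog.start {q : α → ℝ} {L : α → List ℝ} {A : α → List (List ℝ)}
    (hq : Prog (a + 2) (b + 1) P q Any) (hL : Prog (a + 2) (b + 1) P L (LK Any))
    (hA : Prog (a + 2) (b + 1) P A Mat) :
    Prog (a + 2) (b + 1) P (fun y => start (q y) (L y) (A y)) Mat := by
  have h1 : Prog (a + 2) (b + 1) (PS Any (PS (LK Any) (PS Any Mat)))
      (fun y : ℝ × List ℝ × ℝ × List (List ℝ) =>
        y.2.2.2.map (fun row => row.map (fun x => LS.rnd y.1 y.2.1 (x / y.2.2.1)))) Mat :=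
    Prog.map (l := fun y : ℝ × List ℝ × ℝ × List (List ℝ) => y.2.2.2)
      (g := fun p : (ℝ × List ℝ × ℝ × List (List ℝ)) × List ℝ =>
        p.2.map (fun x => LS.rnd p.1.1 p.1.2.1 (x / p.1.2.2.1)))
      (R := LN Any) Prog.id.snd.snd.snd
      (Prog.map (l := fun p : (ℝ × List ℝ × ℝ × List (List ℝ)) × List ℝ => p.2)
        (g := fun p : ((ℝ × List ℝ × ℝ × List (List ℝ)) × List ℝ) × ℝ =>
          LS.rnd p.1.1.1 p.1.1.2.1 (p.2 / p.1.1.2.2.1)) (R := Any) Prog.id.snd
        (Prog.rnd Prog.id.fst.fst.fst Prog.id.fst.fst.snd.fst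
          (Prog.id.snd.div Prog.id.fst.fst.snd.snd.fst)))
  exact (hq.pair (hL.pair ((Prog.sqs hA).pair (Prog.trans hA)))).comp h1

theorem Prog.inv {q : α → ℝ} {L : α → List ℝ} {A : α → List (List ℝ)}
    (hq : Prog (a + 2) (b + 2) P q Any) (hL : Prog (a + 2) (b + 2) P L (LK Any))
    (hA : Prog (a + 2) (b + 2) P A Mat) :
    Prog (a + 2) (b + 2) P (fun y => inv (q y) (L y) (A y)) Mat := by
  have h1 : Prog (a + 2) (b + 2) (PS Any (PS (LK Any) Mat))
      (fun y : ℝ × List ℝ × List (List ℝ) => LS.inv y.1 y.2.1 y.2.2) Mat :=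
    Prog.foldK (l := fun y : ℝ × List ℝ × List (List ℝ) => y.2.1)
      (s0 := fun y : ℝ × List ℝ × List (List ℝ) => LS.start y.1 y.2.1 y.2.2)
      (step := fun p : (ℝ × List ℝ × List (List ℝ)) × List (List ℝ) × ℝ =>
        (LS.newton p.1.1 p.1.2.1 p.1.2.2)^[40] p.2.1)
      (Q := Mat) (R := Any) Prog.id.snd.fst
      (Prog.start Prog.id.fst Prog.id.snd.fst Prog.id.snd.snd)
      (Prog.iterE (s := fun p : ((ℝ × List ℝ × List (List ℝ)) × List (List ℝ) × ℝ) ×
          List (List ℝ) => LS.newton p.1.1.1 p.1.1.2.1 p.1.1.2.2 p.2)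
        (Prog.newton Prog.id.fst.fst.fst Prog.id.fst.fst.snd.fst Prog.id.fst.fst.snd.snd
          Prog.id.snd) 40 Prog.id.snd.fst)
  exact (hq.pair (hL.pair hA)).comp h1

theorem Prog.mv {A : α → List (List ℝ)} {v : α → List ℝ} (hA : Prog (a + 2) b P A Mat)
    (hv : Prog (a + 2) b P v (LN Any)) : Prog (a + 2) b P (fun y => mv (A y) (v y)) (LN Any) := by
  have h1 : Prog (a + 2) b (PS (LN Any) Mat)
      (fun y : List ℝ × List (List ℝ) => LS.mv y.2 y.1) (LN Any) :=
    Prog.map (l := fun y : List ℝ × List (List ℝ) => y.2)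
      (g := fun p : (List ℝ × List (List ℝ)) × List ℝ => LS.dot p.2 p.1.1) (R := LN Any)
      Prog.id.snd (Prog.dot Prog.id.snd Prog.id.fst.fst)
  exact (hv.pair hA).comp h1

end prog

end Pool.Agent.Z85.LS
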