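import Pool.Agent.Z85.LS.Disc

set_option autoImplicit false

noncomputable section

open scoped Classical
open Finset Filter

namespace Pool.Agent.Z85.LS

/-- fourth root, rounded down -/
def rt (n : ℕ) : ℕ := Nat.sqrt (Nat.sqrt n)

theorem rt_pow_le (n : ℕ) : rt n ^ 4 ≤ n := by
  have h1 : rt n ^ 2 ≤ Nat.sqrt n := Nat.sqrt_le' _
  have h2 : Nat.sqrt n ^ 2 ≤ n := Nat.sqrt_le' _
  calc rt n ^ 4 = (rt n ^ 2) ^ 2 := by ring
    _ ≤ (Nat.sqrt n) ^ 2 := Nat.pow_le_pow_left h1 2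
    _ ≤ n := h2

theorem lt_rt (n : ℕ) : n < (rt n + 1) ^ 4 := by
  have h1 : Nat.sqrt n < (rt n + 1) ^ 2 := Nat.lt_succ_sqrt' _
  have h2 : n < (Nat.sqrt n + 1) ^ 2 := Nat.lt_succ_sqrt' _
  calc n < (Nat.sqrt n + 1) ^ 2 := h2
    _ ≤ ((rt n + 1) ^ 2) ^ 2 := Nat.pow_le_pow_left h1 2
    _ = (rt n + 1) ^ 4 := by ring

theorem tendsto_rt : Tendsto rt atTop atTop := by
  rw [tendsto_atTop]
  intro b
  filter_upwards [eventually_ge_atTop (b ^ 4)] with n hn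
  unfold rt
  rw [Nat.le_sqrt', Nat.le_sqrt']
  calc (b ^ 2) ^ 2 = b ^ 4 := by ring
    _ ≤ n := hn

theorem ev_exp : ∀ᶠ r : ℕ in atTop, ((r : ℝ) + 1) ^ 82 ≤ 2 ^ r := by
  have h1 := tendsto_pow_const_div_const_pow_of_one_lt 82 (by norm_num : (1 : ℝ) < 2)
  have h2 : Tendsto (fun r : ℕ => ((r + 1 : ℕ) : ℝ) ^ 82 / 2 ^ (r + 1)) atTop (nhds 0) :=
    h1.comp (tendsto_add_atTop_nat 1)
  filter_upwards [h2.eventually (gt_mem_nhds (by norm_num : (0 : ℝ) < 1 / 2))] with r hr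
  push_cast at hr
  rw [div_lt_iff₀ (by positivity), pow_succ 2 r] at hr
  linarith

theorem NN_le {n : ℕ} (hn : 8 ≤ n) (h : ((rt n : ℝ) + 1) ^ 82 ≤ 2 ^ (rt n)) :
    NN n (2 * rt n ^ 3) ≤ (√(1 / 2)) ^ n * 2 ^ n := by
  set r := rt n with hr
  have hn8 : (8 : ℝ) ≤ n := by exact_mod_cast hn
  have h1 : (n : ℝ) * (2 * (n : ℝ) ^ 2 + 1) ≤ (n : ℝ) ^ 5 := by
    have h2 : (3 : ℝ) ≤ (n : ℝ) ^ 2 := by nlinarith
    have h3 : (1 : ℝ) ≤ (n : ℝ) ^ 2 := by linarith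
    calc (n : ℝ) * (2 * (n : ℝ) ^ 2 + 1) ≤ n * ((n : ℝ) ^ 2 * 3) :=
          mul_le_mul_of_nonneg_left (by linarith) (by positivity)
      _ ≤ n * ((n : ℝ) ^ 2 * (n : ℝ) ^ 2) := by
          apply mul_le_mul_of_nonneg_left _ (by positivity)
          exact mul_le_mul_of_nonneg_left h2 (by positivity)
      _ = (n : ℝ) ^ 5 := by ring
  have h2 : (n : ℝ) ≤ ((r : ℝ) + 1) ^ 4 := by exact_mod_cast (lt_rt n).le
  have hr0 : (0 : ℝ) ≤ r := Nat.cast_nonneg r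
  have h3 : NN n (2 * r ^ 3) ^ 2 ≤ 2 ^ n := by
    unfold NN
    calc (((n : ℝ) * (2 * (n : ℝ) ^ 2 + 1)) ^ (2 * r ^ 3)) ^ 2
        ≤ (((n : ℝ) ^ 5) ^ (2 * r ^ 3)) ^ 2 := by
          apply pow_le_pow_left₀ (by positivity)
          exact pow_le_pow_left₀ (by positivity) h1 _
      _ ≤ (((((r : ℝ) + 1) ^ 4) ^ 5) ^ (2 * r ^ 3)) ^ 2 := by
          apply pow_le_pow_left₀ (by positivity)
          apply pow_le_pow_left₀ (by positivity)
          exact pow_le_pow_left₀ (by positivity) h2 _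
      _ = ((r : ℝ) + 1) ^ (80 * r ^ 3) := by
          rw [← pow_mul, ← pow_mul, ← pow_mul]
          congr 1
          ring
      _ ≤ ((r : ℝ) + 1) ^ (82 * r ^ 3) :=
          pow_le_pow_right₀ (by linarith) (Nat.mul_le_mul_right _ (by norm_num))
      _ = (((r : ℝ) + 1) ^ 82) ^ (r ^ 3) := by rw [← pow_mul]
      _ ≤ (2 ^ r) ^ (r ^ 3) := pow_le_pow_left₀ (by positivity) h _
      _ = 2 ^ (r ^ 4) := by rw [← pow_mul]; congr 1; ring
      _ ≤ 2 ^ n := pow_le_pow_right₀ (by norm_num) (rt_pow_le n)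
  apply le_of_sq_le_sq ?_ (by positivity)
  refine h3.trans (le_of_eq ?_)
  rw [mul_pow, ← pow_mul, mul_comm n 2, pow_mul, Real.sq_sqrt (by norm_num), sq (2 ^ n),
    ← mul_assoc, ← mul_pow]
  norm_num

theorem bad_tendsto (s : Bool → ℝ) (hs : 1 ≤ |s true - s false|) (hs1 : ∀ b, |s b| ≤ 1) :
    Tendsto (fun n : ℕ => ((univ.filter fun a : Fin n → Fin n → Bool =>
      ¬ GoodA s n a).card : ℝ) / (2 ^ n) ^ n) atTop (nhds 0) := by
  set g : ℕ → ℝ := fun n => (√(1 / 2)) ^ n + 16 * ((n : ℝ) * (√(1 / 2)) ^ n) + 8 * (1 / √(rt n))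
    with hg
  have hs2 : √(1 / 2) < 1 := by
    rw [Real.sqrt_lt' (by norm_num)]
    norm_num
  have hlim : Tendsto g atTop (nhds 0) := by
    have h1 : Tendsto (fun n : ℕ => (√(1 / 2)) ^ n) atTop (nhds 0) :=
      tendsto_pow_atTop_nhds_zero_of_lt_one (Real.sqrt_nonneg _) hs2
    have h2 : Tendsto (fun n : ℕ => (n : ℝ) * (√(1 / 2)) ^ n) atTop (nhds 0) :=
      tendsto_self_mul_const_pow_of_lt_one (Real.sqrt_nonneg _) hs2
    have h3 : Tendsto (fun n : ℕ => 1 / √(rt n : ℝ)) atTop (nhds 0) := by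
      have h4 : Tendsto (fun n : ℕ => √(rt n : ℝ)) atTop atTop :=
        Real.tendsto_sqrt_atTop.comp (tendsto_natCast_atTop_atTop.comp tendsto_rt)
      have h5 := h4.inv_tendsto_atTop
      refine h5.congr fun n => ?_
      rw [Pi.inv_apply, one_div]
    have h5 := (h1.add (h2.const_mul 16)).add (h3.const_mul 8)
    rw [mul_zero, mul_zero, add_zero, add_zero] at h5
    exact h5
  refine squeeze_zero' (Eventually.of_forall fun n => by positivity) ?_ hlim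
  filter_upwards [tendsto_rt.eventually ev_exp, tendsto_rt.eventually (eventually_ge_atTop 3),
    eventually_ge_atTop 8] with n h1 h2 h3
  obtain ⟨m, rfl⟩ : ∃ m, n = m + 1 := ⟨n - 1, by omega⟩
  have h4 := NN_le h3 h1
  have h5 := rt_pow_le (m + 1)
  have h6 := (lt_rt (m + 1)).le
  set r := rt (m + 1) with hr
  have hr3 : (3 : ℝ) ≤ r := by exact_mod_cast h2
  have hM : 2 * r ^ 3 + 1 ≤ m + 1 := by
    have : 3 * r ^ 3 ≤ r ^ 4 := by
      calc 3 * r ^ 3 ≤ r * r ^ 3 := Nat.mul_le_mul_right _ h2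
        _ = r ^ 4 := by ring
    have h7 : 1 ≤ r ^ 3 := Nat.one_le_pow _ _ (by omega)
    omega
  have hk : 1 ≤ r ^ 3 := Nat.one_le_pow _ _ (by omega)
  have h7 := bad_count s hs hs1 h3 hM hk
  have h8 : (0 : ℝ) < (2 ^ (m + 1)) ^ (m + 1) := by positivity
  rw [div_le_iff₀ h8]
  refine h7.trans ?_
  rw [mul_comm]
  apply mul_le_mul_of_nonneg_right _ h8.le
  rw [hg]
  simp only
  rw [← hr]
  push_cast at h7 ⊢
  have hr0 : (0 : ℝ) < r := by linarith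
  have e1 : NN (m + 1) (2 * r ^ 3) / 2 ^ (m + 1) ≤ √(1 / 2) ^ (m + 1) := by
    rw [div_le_iff₀ (by positivity)]
    exact h4
  have e2 : NN (m + 1) (2 * r ^ 3) / 2 ^ m ≤ 2 * √(1 / 2) ^ (m + 1) := by
    rw [div_le_iff₀ (by positivity)]
    refine h4.trans (le_of_eq ?_)
    rw [pow_succ 2 m]
    ring
  have e3 : ((m : ℝ) + 1) / (2 * (r : ℝ) ^ 3) ≤ 8 * r := by
    rw [div_le_iff₀ (by positivity)]
    have h9 : ((m : ℝ) + 1) ≤ ((r : ℝ) + 1) ^ 4 := by exact_mod_cast h6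
    have h10 : ((r : ℝ) + 1) ^ 4 ≤ (2 * r) ^ 4 := pow_le_pow_left₀ (by positivity) (by linarith) 4
    calc (m : ℝ) + 1 ≤ (2 * r) ^ 4 := h9.trans h10
      _ = 8 * r * (2 * r ^ 3) := by ring
  have e4 : (r : ℝ) ≤ (m : ℝ) + 1 := by
    have : r ≤ m + 1 := by
      calc r = r ^ 1 := (pow_one r).symm
        _ ≤ r ^ 4 := Nat.pow_le_pow_right (by omega) (by norm_num)
        _ ≤ m + 1 := h5
    exact_mod_cast this
  have e5 : (r : ℝ) * (1 / √(2 * (r : ℝ) ^ 3 + 1)) ≤ 1 / √(r : ℝ) := by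
    rw [mul_one_div, div_le_div_iff₀ (Real.sqrt_pos.2 (by positivity)) (Real.sqrt_pos.2 hr0),
      one_mul]
    apply Real.le_sqrt_of_sq_le
    rw [mul_pow, Real.sq_sqrt hr0.le]
    nlinarith [pow_pos hr0 3]
  have e6 : 0 ≤ √(1 / 2) ^ (m + 1) := by positivity
  have e7 : 0 ≤ 1 / √(2 * (r : ℝ) ^ 3 + 1) := by positivity
  have e8 : ((m : ℝ) + 1) / (2 * (r : ℝ) ^ 3) * (NN (m + 1) (2 * r ^ 3) / 2 ^ m +
      1 / √(2 * (r : ℝ) ^ 3 + 1)) ≤ 8 * r * (2 * √(1 / 2) ^ (m + 1) +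
      1 / √(2 * (r : ℝ) ^ 3 + 1)) := by
    apply mul_le_mul e3 (add_le_add e2 le_rfl) _ (by positivity)
    have := NN_nonneg (m + 1) (2 * r ^ 3)
    positivity
  have e9 : (r : ℝ) * √(1 / 2) ^ (m + 1) ≤ ((m : ℝ) + 1) * √(1 / 2) ^ (m + 1) :=
    mul_le_mul_of_nonneg_right e4 e6
  linarith

end Pool.Agent.Z85.LS
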