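import Mathlib

set_option autoImplicit false

noncomputable section

open scoped Classical
open Matrix

namespace Pool.Agent.Z85.LS

/-- the Euclidean norm -/
def nrm {n : ℕ} (v : Fin n → ℝ) : ℝ := ‖(WithLp.toLp 2 v : EuclideanSpace ℝ (Fin n))‖

variable {n : ℕ}

theorem nrm_eq (v : Fin n → ℝ) : nrm v = √(∑ i, v i ^ 2) := by
  unfold nrm
  rw [EuclideanSpace.norm_eq]
  simp

theorem nrm_nonneg (v : Fin n → ℝ) : 0 ≤ nrm v := norm_nonneg _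

theorem nrm_sq (v : Fin n → ℝ) : nrm v ^ 2 = ∑ i, v i ^ 2 := by
  rw [nrm_eq, Real.sq_sqrt (Finset.sum_nonneg fun i _ => sq_nonneg _)]

theorem nrm_sq' (v : Fin n → ℝ) : nrm v ^ 2 = v ⬝ᵥ v := by
  rw [nrm_sq]
  exact Finset.sum_congr rfl fun i _ => sq _

theorem nrm_add_le (u v : Fin n → ℝ) : nrm (u + v) ≤ nrm u + nrm v := by
  unfold nrm
  rw [WithLp.toLp_add]
  exact norm_add_le _ _

theorem nrm_neg (u : Fin n → ℝ) : nrm (-u) = nrm u := by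
  unfold nrm
  rw [WithLp.toLp_neg]
  exact norm_neg _

theorem nrm_sub_le (u v : Fin n → ℝ) : nrm (u - v) ≤ nrm u + nrm v := by
  rw [sub_eq_add_neg, ← nrm_neg v]
  exact nrm_add_le _ _

theorem nrm_zero : nrm (0 : Fin n → ℝ) = 0 := by
  unfold nrm
  rw [WithLp.toLp_zero]
  exact norm_zero

theorem abs_le_nrm (v : Fin n → ℝ) (i : Fin n) : |v i| ≤ nrm v := by
  rw [nrm_eq]
  apply Real.abs_le_sqrt
  exact Finset.single_le_sum (f := fun i => v i ^ 2) (fun i _ => sq_nonneg _) (Finset.mem_univ i)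

theorem nrm_single (i : Fin n) : nrm (Pi.single i (1 : ℝ)) = 1 := by
  rw [nrm_eq]
  have : ∑ j, (Pi.single i (1 : ℝ) : Fin n → ℝ) j ^ 2 = 1 := by
    rw [Finset.sum_eq_single i]
    · simp
    · intro j _ hj
      simp [Pi.single_eq_of_ne hj]
    · simp
  rw [this, Real.sqrt_one]

theorem nrm_le_of_sq_le {v : Fin n → ℝ} {c : ℝ} (hc : 0 ≤ c) (h : nrm v ^ 2 ≤ c ^ 2) :
    nrm v ≤ c := by
  exact (sq_le_sq₀ (nrm_nonneg v) hc).1 h

/-- bound for the operator norm -/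
def OpLe (M : Matrix (Fin n) (Fin n) ℝ) (c : ℝ) : Prop := ∀ v, nrm (M *ᵥ v) ≤ c * nrm v

namespace OpLe

variable {M N : Matrix (Fin n) (Fin n) ℝ} {a b : ℝ}

theorem mono (h : OpLe M a) (hab : a ≤ b) : OpLe M b := fun v =>
  (h v).trans (mul_le_mul_of_nonneg_right hab (nrm_nonneg v))

theorem mul (hM : OpLe M a) (hN : OpLe N b) (ha : 0 ≤ a) : OpLe (M * N) (a * b) := by
  intro v
  rw [← Matrix.mulVec_mulVec, mul_assoc]
  exact (hM _).trans (mul_le_mul_of_nonneg_left (hN v) ha)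

theorem add (hM : OpLe M a) (hN : OpLe N b) : OpLe (M + N) (a + b) := by
  intro v
  rw [Matrix.add_mulVec, add_mul]
  exact (nrm_add_le _ _).trans (add_le_add (hM v) (hN v))

theorem sub (hM : OpLe M a) (hN : OpLe N b) : OpLe (M - N) (a + b) := by
  intro v
  rw [Matrix.sub_mulVec, add_mul]
  exact (nrm_sub_le _ _).trans (add_le_add (hM v) (hN v))

theorem one : OpLe (1 : Matrix (Fin n) (Fin n) ℝ) 1 := by
  intro v
  rw [Matrix.one_mulVec, one_mul]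

theorem apply (hM : OpLe M a) (i j : Fin n) : |M i j| ≤ a := by
  have h := hM (Pi.single j 1)
  rw [nrm_single, mul_one] at h
  refine le_trans ?_ h
  have h2 := abs_le_nrm (M *ᵥ Pi.single j (1 : ℝ)) i
  rw [Matrix.mulVec_single_one] at h2 ⊢
  exact h2

theorem frob_sq (M : Matrix (Fin n) (Fin n) ℝ) (v : Fin n → ℝ) :
    nrm (M *ᵥ v) ^ 2 ≤ (∑ i, ∑ j, M i j * M i j) * nrm v ^ 2 := by
  rw [nrm_sq, nrm_sq, Finset.sum_mul]
  refine Finset.sum_le_sum fun i _ => ?_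
  have h := Finset.sum_mul_sq_le_sq_mul_sq Finset.univ (fun j => M i j) v
  calc (M *ᵥ v) i ^ 2 = (∑ j, M i j * v j) ^ 2 := rfl
    _ ≤ (∑ j, M i j ^ 2) * ∑ j, v j ^ 2 := h
    _ = _ := by
      congr 1
      exact Finset.sum_congr rfl fun j _ => sq _

theorem entry {η : ℝ} (h0 : 0 ≤ η) (h : ∀ i j, |M i j| ≤ η) : OpLe M (n * η) := by
  intro v
  apply nrm_le_of_sq_le (by have := nrm_nonneg v; positivity)
  refine (frob_sq M v).trans ?_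
  rw [mul_pow]
  refine mul_le_mul_of_nonneg_right ?_ (sq_nonneg _)
  calc ∑ i, ∑ j, M i j * M i j ≤ ∑ i : Fin n, ∑ j : Fin n, η ^ 2 := by
        refine Finset.sum_le_sum fun i _ => Finset.sum_le_sum fun j _ => ?_
        rw [← sq, ← sq_abs]
        exact pow_le_pow_left₀ (abs_nonneg _) (h i j) 2
    _ = (n * η) ^ 2 := by
        simp only [Finset.sum_const, Finset.card_univ, Fintype.card_fin, nsmul_eq_mul]
        ring

end OpLe

/-- the starting matrix -/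
theorem start_bound (A : Matrix (Fin n) (Fin n) ℝ) (S σ γ : ℝ)
    (hS : S = ∑ i, ∑ j, A i j * A i j) (hS0 : 0 < S)
    (hσ : ∀ v, σ * nrm v ≤ nrm (Aᵀ *ᵥ v)) (hσ0 : 0 ≤ σ) (hγ : γ ≤ σ ^ 2 / S) (hγ1 : γ ≤ 1) :
    OpLe (1 - S⁻¹ • (A * Aᵀ)) (1 - γ / 2) := by
  intro v
  set w := Aᵀ *ᵥ v with hw
  have h1 : (1 - S⁻¹ • (A * Aᵀ)) *ᵥ v = v - S⁻¹ • (A *ᵥ w) := by
    rw [Matrix.sub_mulVec, Matrix.one_mulVec, Matrix.smul_mulVec, ← Matrix.mulVec_mulVec]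
  have h2 : nrm (v - S⁻¹ • (A *ᵥ w)) ^ 2 =
      nrm v ^ 2 - 2 * S⁻¹ * nrm w ^ 2 + S⁻¹ ^ 2 * nrm (A *ᵥ w) ^ 2 := by
    simp only [nrm_sq']
    have h3 : v ⬝ᵥ (A *ᵥ w) = w ⬝ᵥ w := by
      rw [Matrix.dotProduct_mulVec, hw, ← Matrix.mulVec_transpose]
    simp only [sub_dotProduct, dotProduct_sub, smul_dotProduct, dotProduct_smul, smul_eq_mul]
    rw [dotProduct_comm (A *ᵥ w) v, h3]
    ring
  have h3 := OpLe.frob_sq A w
  rw [← hS] at h3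
  have h4 : nrm ((1 - S⁻¹ • (A * Aᵀ)) *ᵥ v) ^ 2 ≤ nrm v ^ 2 - S⁻¹ * nrm w ^ 2 := by
    rw [h1, h2]
    have h5 : S⁻¹ ^ 2 * nrm (A *ᵥ w) ^ 2 ≤ S⁻¹ ^ 2 * (S * nrm w ^ 2) :=
      mul_le_mul_of_nonneg_left h3 (by positivity)
    have h6 : S⁻¹ ^ 2 * (S * nrm w ^ 2) = S⁻¹ * nrm w ^ 2 := by
      field_simp
    linarith
  have h5 : σ ^ 2 / S * nrm v ^ 2 ≤ S⁻¹ * nrm w ^ 2 := by
    have h6 := pow_le_pow_left₀ (mul_nonneg hσ0 (nrm_nonneg v)) (hσ v) 2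
    rw [mul_pow] at h6
    calc σ ^ 2 / S * nrm v ^ 2 = S⁻¹ * (σ ^ 2 * nrm v ^ 2) := by ring
      _ ≤ _ := mul_le_mul_of_nonneg_left h6 (by positivity)
  have h6 : γ * nrm v ^ 2 ≤ σ ^ 2 / S * nrm v ^ 2 :=
    mul_le_mul_of_nonneg_right hγ (sq_nonneg _)
  apply nrm_le_of_sq_le (mul_nonneg (by linarith) (nrm_nonneg v))
  have h7 : ((1 - γ / 2) * nrm v) ^ 2 = nrm v ^ 2 - γ * nrm v ^ 2 + γ ^ 2 / 4 * nrm v ^ 2 := by
    ring
  rw [h7]
  have h8 : 0 ≤ γ ^ 2 / 4 * nrm v ^ 2 := by positivity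
  linarith

end Pool.Agent.Z85.LS
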