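import Pool.Agent.Z85.LS.SemMat
import Pool.Agent.Z85.LS.Op

set_option autoImplicit false

noncomputable section

open scoped Classical
open Matrix

namespace Pool.Agent.Z85.LS

/-- assumptions on the matrix, the inverse and the parameters -/
structure Good (q : ℝ) (L : List ℝ) {n : ℕ} (A B : Matrix (Fin n) (Fin n) ℝ) : Prop where
  par : Par q L
  hn : 1 ≤ n
  hnq : (n : ℝ) ≤ q
  hA : ∀ i j, |A i j| ≤ q ^ 2
  hB : ∀ i j, |B i j| ≤ q ^ 4
  inv : A * B = 1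

namespace Good

variable {q : ℝ} {L : List ℝ} {n : ℕ} {A B : Matrix (Fin n) (Fin n) ℝ} (h : Good q L A B)
include h

/-- the inverse of `q` -/
theorem p_pos : 0 < q⁻¹ := inv_pos.2 h.par.pos

theorem p_le : q⁻¹ ≤ 1 / 4 := by
  rw [inv_le_comm₀ h.par.pos (by norm_num)]
  have := h.par.four_le
  norm_num
  linarith

theorem pq (a b : ℕ) : q ^ a * q⁻¹ ^ (a + b) = q⁻¹ ^ b := by
  rw [pow_add, ← mul_assoc, ← mul_pow, mul_inv_cancel₀ h.par.pos.ne', one_pow, one_mul]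

theorem pow_p_le (a b : ℕ) : q⁻¹ ^ (a + b) ≤ (1 / 4) ^ a * q⁻¹ ^ b := by
  rw [pow_add]
  exact mul_le_mul_of_nonneg_right (pow_le_pow_left₀ h.p_pos.le h.p_le a)
    (pow_nonneg h.p_pos.le _)

theorem q_pow_le (a b : ℕ) : 4 ^ a * q ^ b ≤ q ^ (a + b) := by
  rw [pow_add]
  exact mul_le_mul_of_nonneg_right (pow_le_pow_left₀ (by norm_num) h.par.four_le a)
    (pow_nonneg h.par.pos.le _)

theorem q_lt (a b : ℕ) (c : ℝ) (hc : c * 2 < 4 ^ a) (hab : a + b = 60) : c * q ^ b < hh q := by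
  rw [hh_eq, ← hab]
  have h1 := h.q_pow_le a b
  have h2 : 0 < q ^ b := pow_pos h.par.pos _
  have h3 : c * 2 * q ^ b < 4 ^ a * q ^ b := mul_lt_mul_of_pos_right hc h2
  linarith

theorem hA_cond : ∀ i j, |q ^ 40 * A i j| < hh q := by
  intro i j
  have h40 : 0 < q ^ 40 := pow_pos h.par.pos _
  rw [abs_mul, abs_of_pos h40]
  calc q ^ 40 * |A i j| ≤ q ^ 40 * q ^ 2 := mul_le_mul_of_nonneg_left (h.hA i j) h40.le
    _ = 1 * q ^ 42 := by ring
    _ < hh q := h.q_lt 18 42 1 (by norm_num) (by norm_num)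

theorem dif_entry (M : Matrix (Fin n) (Fin n) ℝ) : OpLe (grM q M - M) (q⁻¹ ^ 39) := by
  have h1 : OpLe (grM q M - M) (n * (1 / q ^ 40)) :=
    OpLe.entry (by have := h.par.pos; positivity) fun i j => abs_gr_sub q (M i j) h.par.pos
  refine h1.mono ?_
  calc (n : ℝ) * (1 / q ^ 40) ≤ q * (1 / q ^ 40) :=
        mul_le_mul_of_nonneg_right h.hnq (by have := h.par.pos; positivity)
    _ = q⁻¹ ^ 39 := by
      have := h.pq 1 39
      rw [pow_one] at this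
      rw [← this, one_div, inv_pow]

theorem abs_A' (i j : Fin n) : |grM q A i j| ≤ q ^ 3 := by
  have h1 := abs_gr_sub q (A i j) h.par.pos
  have h2 := h.hA i j
  have h3 : 1 / q ^ 40 ≤ 1 := by
    rw [div_le_one (pow_pos h.par.pos _)]
    exact one_le_pow₀ (by linarith [h.par.four_le])
  have h4 : |grM q A i j| ≤ |gr q (A i j) - A i j| + |A i j| := by
    have := abs_add_le (gr q (A i j) - A i j) (A i j)
    simpa [grM] using this
  have h5 : 4 * q ^ 2 ≤ q ^ 3 := by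
    have := h.q_pow_le 1 2
    simpa using this
  have h6 : 1 ≤ q ^ 2 := one_le_pow₀ (by linarith [h.par.four_le])
  linarith

theorem op_A' : OpLe (grM q A) (q ^ 4) := by
  refine (OpLe.entry (pow_nonneg h.par.pos.le 3) h.abs_A').mono ?_
  calc (n : ℝ) * q ^ 3 ≤ q * q ^ 3 :=
        mul_le_mul_of_nonneg_right h.hnq (pow_nonneg h.par.pos.le 3)
    _ = q ^ 4 := by ring

theorem op_B : OpLe B (q ^ 5) := by
  refine (OpLe.entry (pow_nonneg h.par.pos.le 4) h.hB).mono ?_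
  calc (n : ℝ) * q ^ 4 ≤ q * q ^ 4 :=
        mul_le_mul_of_nonneg_right h.hnq (pow_nonneg h.par.pos.le 4)
    _ = q ^ 5 := by ring

theorem op_BT : OpLe Bᵀ (q ^ 5) := by
  refine (OpLe.entry (pow_nonneg h.par.pos.le 4) fun i j => h.hB j i).mono ?_
  calc (n : ℝ) * q ^ 4 ≤ q * q ^ 4 :=
        mul_le_mul_of_nonneg_right h.hnq (pow_nonneg h.par.pos.le 4)
    _ = q ^ 5 := by ring

theorem op_difT : OpLe (grM q A - A)ᵀ (q⁻¹ ^ 39) := by
  have h1 : OpLe (grM q A - A)ᵀ (n * (1 / q ^ 40)) :=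
    OpLe.entry (by have := h.par.pos; positivity) fun i j => abs_gr_sub q (A j i) h.par.pos
  refine h1.mono ?_
  calc (n : ℝ) * (1 / q ^ 40) ≤ q * (1 / q ^ 40) :=
        mul_le_mul_of_nonneg_right h.hnq (by have := h.par.pos; positivity)
    _ = q⁻¹ ^ 39 := by
      have := h.pq 1 39
      rw [pow_one] at this
      rw [← this, one_div, inv_pow]

/-- lower bound for the transposed matrix -/
theorem lower (v : Fin n → ℝ) : q⁻¹ ^ 6 * nrm v ≤ nrm ((grM q A)ᵀ *ᵥ v) := by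
  have hv := nrm_nonneg v
  have h1 : v = Bᵀ *ᵥ (Aᵀ *ᵥ v) := by
    rw [Matrix.mulVec_mulVec, ← Matrix.transpose_mul, h.inv, Matrix.transpose_one,
      Matrix.one_mulVec]
  have h2 : nrm v ≤ q ^ 5 * nrm (Aᵀ *ᵥ v) := by
    have := h.op_BT (Aᵀ *ᵥ v)
    rwa [← h1] at this
  have h3 : Aᵀ *ᵥ v = (grM q A)ᵀ *ᵥ v - (grM q A - A)ᵀ *ᵥ v := by
    rw [Matrix.transpose_sub, Matrix.sub_mulVec]
    abel
  have h4 : nrm (Aᵀ *ᵥ v) ≤ nrm ((grM q A)ᵀ *ᵥ v) + q⁻¹ ^ 39 * nrm v := by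
    rw [h3]
    exact (nrm_sub_le _ _).trans (add_le_add le_rfl (h.op_difT v))
  have h5 : q⁻¹ ^ 5 * nrm v ≤ nrm (Aᵀ *ᵥ v) := by
    have h6 := mul_le_mul_of_nonneg_left h2 (pow_nonneg h.p_pos.le 5)
    have h7 : q⁻¹ ^ 5 * (q ^ 5 * nrm (Aᵀ *ᵥ v)) = nrm (Aᵀ *ᵥ v) := by
      rw [← mul_assoc, ← mul_pow, inv_mul_cancel₀ h.par.pos.ne', one_pow, one_mul]
    linarith
  have h6 : q⁻¹ ^ 39 ≤ (1 / 4) ^ 34 * q⁻¹ ^ 5 := h.pow_p_le 34 5
  have h7 : q⁻¹ ^ 6 ≤ (1 / 4) ^ 1 * q⁻¹ ^ 5 := h.pow_p_le 1 5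
  have h8 : 0 < q⁻¹ ^ 5 := pow_pos h.p_pos 5
  have h9 : q⁻¹ ^ 6 + q⁻¹ ^ 39 ≤ q⁻¹ ^ 5 := by
    norm_num [-inv_pow] at h6 h7 ⊢
    nlinarith
  have h10 := mul_le_mul_of_nonneg_right h9 hv
  linarith

/-- sum of the squares -/
def S (q : ℝ) {n : ℕ} (A : Matrix (Fin n) (Fin n) ℝ) : ℝ :=
  ∑ i, ∑ j, grM q A i j * grM q A i j

theorem S_le : S q A ≤ q ^ 8 := by
  have hq := h.par.pos
  calc S q A ≤ ∑ i : Fin n, ∑ j : Fin n, (q ^ 3) ^ 2 := by
        refine Finset.sum_le_sum fun i _ => Finset.sum_le_sum fun j _ => ?_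
        rw [← sq, ← sq_abs]
        exact pow_le_pow_left₀ (abs_nonneg _) (h.abs_A' i j) 2
    _ = (n : ℝ) ^ 2 * q ^ 6 := by
        simp only [Finset.sum_const, Finset.card_univ, Fintype.card_fin, nsmul_eq_mul]
        ring
    _ ≤ q ^ 2 * q ^ 6 := mul_le_mul_of_nonneg_right
        (pow_le_pow_left₀ (Nat.cast_nonneg n) h.hnq 2) (pow_nonneg hq.le 6)
    _ = q ^ 8 := by ring

theorem le_S : q⁻¹ ^ 12 ≤ S q A := by
  have hi : 0 < n := h.hn
  have h1 := h.lower (Pi.single ⟨0, hi⟩ 1)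
  rw [nrm_single, mul_one] at h1
  have h2 := pow_le_pow_left₀ (pow_nonneg h.p_pos.le 6) h1 2
  have h3 := OpLe.frob_sq (grM q A)ᵀ (Pi.single ⟨0, hi⟩ 1)
  rw [nrm_single, one_pow, mul_one] at h3
  have h4 : ∑ i, ∑ j, (grM q A)ᵀ i j * (grM q A)ᵀ i j = S q A := by
    unfold S
    rw [Finset.sum_comm]
    rfl
  rw [h4] at h3
  calc q⁻¹ ^ 12 = (q⁻¹ ^ 6) ^ 2 := by ring
    _ ≤ _ := h2
    _ ≤ _ := h3

theorem S_pos : 0 < S q A := lt_of_lt_of_le (pow_pos h.p_pos 12) h.le_S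

theorem start_cond (i j : Fin n) :
    |q ^ 40 * (grM q A i j / ∑ i, ∑ j, grM q A i j * grM q A i j)| < hh q := by
  have h40 : 0 < q ^ 40 := pow_pos h.par.pos _
  change |q ^ 40 * (grM q A i j / S q A)| < hh q
  rw [abs_mul, abs_of_pos h40, abs_div, abs_of_pos h.S_pos]
  have h1 : (S q A)⁻¹ ≤ q ^ 12 := by
    rw [inv_le_comm₀ h.S_pos (pow_pos h.par.pos _), ← inv_pow]
    exact h.le_S
  calc q ^ 40 * (|grM q A i j| / S q A) = q ^ 40 * (|grM q A i j| * (S q A)⁻¹) := by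
        rw [div_eq_mul_inv]
    _ ≤ q ^ 40 * (q ^ 3 * q ^ 12) := by
        refine mul_le_mul_of_nonneg_left ?_ h40.le
        exact mul_le_mul (h.abs_A' i j) h1 (inv_nonneg.2 h.S_pos.le) (pow_nonneg h.par.pos.le 3)
    _ = 1 * q ^ 55 := by ring
    _ < hh q := h.q_lt 5 55 1 (by norm_num) (by norm_num)

/-- distance from `1` of the bound for the norm of the residual matrix -/
def gap (q : ℝ) (t : ℕ) : ℝ := min (1 / 4) ((3 / 2) ^ t * q⁻¹ ^ 21)

theorem gap_pos (t : ℕ) : q⁻¹ ^ 21 ≤ gap q t := by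
  have h1 : 0 < q⁻¹ ^ 21 := pow_pos h.p_pos _
  refine le_min ?_ ?_
  · have h2 := h.pow_p_le 1 20
    have h3 : q⁻¹ ^ 20 ≤ 1 := pow_le_one₀ h.p_pos.le (by linarith [h.p_le])
    norm_num [-inv_pow] at h2 h3 ⊢
    linarith
  · have h2 : (1 : ℝ) ≤ (3 / 2) ^ t := one_le_pow₀ (by norm_num)
    nlinarith

omit h in
theorem gap_succ (t : ℕ) : gap q (t + 1) ≤ 3 / 2 * gap q t := by
  unfold gap
  rw [mul_min_of_nonneg _ _ (by norm_num : (0 : ℝ) ≤ 3 / 2)]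
  refine le_min ((min_le_left _ _).trans (by norm_num)) ((min_le_right _ _).trans ?_)
  rw [pow_succ]
  linarith

omit h in
theorem gap_le (t : ℕ) : gap q t ≤ 1 / 4 := min_le_left _ _

/-- the invariant of the iteration -/
def Inv (q : ℝ) {n : ℕ} (A : Matrix (Fin n) (Fin n) ℝ) (t : ℕ)
    (X : Matrix (Fin n) (Fin n) ℝ) : Prop := OpLe (1 - grM q A * X) (1 - gap q t)

theorem inv_start : Inv q A 0 (grM q (fun i j => grM q A j i /
    ∑ i, ∑ j, grM q A i j * grM q A i j)) := by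
  have hS := h.S_pos
  have h1 : OpLe (1 - (S q A)⁻¹ • (grM q A * (grM q A)ᵀ)) (1 - q⁻¹ ^ 20 / 2) := by
    refine start_bound (grM q A) (S q A) (q⁻¹ ^ 6) (q⁻¹ ^ 20) rfl hS h.lower
      (pow_nonneg h.p_pos.le 6) ?_ ?_
    · rw [le_div_iff₀ hS]
      have h2 := mul_le_mul_of_nonneg_left h.S_le (pow_nonneg h.p_pos.le 20)
      have h3 := h.pq 8 12
      calc q⁻¹ ^ 20 * S q A ≤ q⁻¹ ^ 20 * q ^ 8 := h2
        _ = (q⁻¹ ^ 6) ^ 2 := by rw [mul_comm, h3]; ring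
    · exact pow_le_one₀ h.p_pos.le (by linarith [h.p_le])
  set Y : Matrix (Fin n) (Fin n) ℝ := fun i j => grM q A j i / S q A with hY
  have h2 : Y = (S q A)⁻¹ • (grM q A)ᵀ := by
    ext i j
    rw [hY, Matrix.smul_apply, Matrix.transpose_apply, smul_eq_mul]
    simp only
    rw [div_eq_mul_inv, mul_comm]
  change OpLe (1 - grM q A * grM q Y) (1 - gap q 0)
  have h3 : 1 - grM q A * grM q Y = (1 - (S q A)⁻¹ • (grM q A * (grM q A)ᵀ)) -
      grM q A * (grM q Y - Y) := by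
    rw [Matrix.mul_sub]
    nth_rewrite 3 [h2]
    rw [Matrix.mul_smul]
    abel
  rw [h3]
  refine (h1.sub (h.op_A'.mul (h.dif_entry Y) (pow_nonneg h.par.pos.le 4))).mono ?_
  have h4 := h.pq 4 35
  norm_num only at h4
  rw [h4]
  have h5 := h.pow_p_le 15 20
  have h6 := h.pow_p_le 1 20
  have h7 : gap q 0 ≤ q⁻¹ ^ 21 := by
    refine (min_le_right _ _).trans (by simp)
  have h8 : 0 < q⁻¹ ^ 20 := pow_pos h.p_pos _
  norm_num [-inv_pow] at h5 h6 h7 h8 ⊢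
  linarith

theorem op_AX {t : ℕ} {X : Matrix (Fin n) (Fin n) ℝ} (hX : Inv q A t X) :
    OpLe (grM q A * X) 2 := by
  have h1 : grM q A * X = 1 - (1 - grM q A * X) := by abel
  rw [h1]
  have h2 := h.gap_pos t
  have h3 : 0 < q⁻¹ ^ 21 := pow_pos h.p_pos _
  exact (OpLe.one.sub hX).mono (by linarith)

theorem op_X {t : ℕ} {X : Matrix (Fin n) (Fin n) ℝ} (hX : Inv q A t X) :
    OpLe X (4 * q ^ 5) := by
  intro v
  set u := X *ᵥ v with hu
  have h1 : u = B *ᵥ (A *ᵥ u) := by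
    rw [Matrix.mulVec_mulVec, mul_eq_one_comm.1 h.inv, Matrix.one_mulVec]
  have h2 : nrm u ≤ q ^ 5 * nrm (A *ᵥ u) := by
    have := h.op_B (A *ᵥ u)
    rwa [← h1] at this
  have h3 : A *ᵥ u = (grM q A * X) *ᵥ v - (grM q A - A) *ᵥ u := by
    rw [← Matrix.mulVec_mulVec, ← hu, Matrix.sub_mulVec]
    abel
  have h4 : nrm (A *ᵥ u) ≤ 2 * nrm v + q⁻¹ ^ 39 * nrm u := by
    rw [h3]
    exact (nrm_sub_le _ _).trans (add_le_add (h.op_AX hX v) (h.dif_entry A u))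
  have h5 : nrm u ≤ q ^ 5 * (2 * nrm v) + q⁻¹ ^ 34 * nrm u := by
    have h6 := mul_le_mul_of_nonneg_left h4 (pow_nonneg h.par.pos.le 5)
    have h7 := h.pq 5 34
    norm_num only at h7
    calc nrm u ≤ q ^ 5 * (2 * nrm v + q⁻¹ ^ 39 * nrm u) := h2.trans h6
      _ = q ^ 5 * (2 * nrm v) + (q ^ 5 * q⁻¹ ^ 39) * nrm u := by ring
      _ = _ := by rw [h7]
  have h6 : q⁻¹ ^ 34 ≤ 1 / 2 := by
    have h7 := h.pow_p_le 1 33
    have h8 : q⁻¹ ^ 33 ≤ 1 := pow_le_one₀ h.p_pos.le (by linarith [h.p_le])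
    norm_num [-inv_pow] at h7 h8 ⊢
    linarith
  have h7 := mul_le_mul_of_nonneg_right h6 (nrm_nonneg u)
  linarith

theorem cond1 {t : ℕ} {X : Matrix (Fin n) (Fin n) ℝ} (hX : Inv q A t X) (i j : Fin n) :
    |q ^ 40 * (grM q A * X) i j| < hh q := by
  have h40 : 0 < q ^ 40 := pow_pos h.par.pos _
  rw [abs_mul, abs_of_pos h40]
  calc q ^ 40 * |(grM q A * X) i j| ≤ q ^ 40 * 2 :=
        mul_le_mul_of_nonneg_left ((h.op_AX hX).apply i j) h40.le
    _ = 2 * q ^ 40 := by ring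
    _ < hh q := h.q_lt 20 40 2 (by norm_num) (by norm_num)

theorem op_XY {t : ℕ} {X : Matrix (Fin n) (Fin n) ℝ} (hX : Inv q A t X) :
    OpLe (X * grM q (grM q A * X)) (12 * q ^ 5) := by
  have h1 : OpLe (grM q (grM q A * X)) 3 := by
    have h2 : grM q (grM q A * X) = (grM q A * X) + (grM q (grM q A * X) - grM q A * X) := by
      abel
    rw [h2]
    refine ((h.op_AX hX).add (h.dif_entry _)).mono ?_
    have h8 : q⁻¹ ^ 39 ≤ 1 := pow_le_one₀ h.p_pos.le (by linarith [h.p_le])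
    linarith
  refine ((h.op_X hX).mul h1 (by have := h.par.pos; positivity)).mono (le_of_eq (by ring))

theorem cond2 {t : ℕ} {X : Matrix (Fin n) (Fin n) ℝ} (hX : Inv q A t X) (i j : Fin n) :
    |q ^ 40 * (X * grM q (grM q A * X)) i j| < hh q := by
  have h40 : 0 < q ^ 40 := pow_pos h.par.pos _
  rw [abs_mul, abs_of_pos h40]
  calc q ^ 40 * |(X * grM q (grM q A * X)) i j| ≤ q ^ 40 * (12 * q ^ 5) :=
        mul_le_mul_of_nonneg_left ((h.op_XY hX).apply i j) h40.le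
    _ = 12 * q ^ 45 := by ring
    _ < hh q := h.q_lt 15 45 12 (by norm_num) (by norm_num)

theorem inv_step {t : ℕ} {X : Matrix (Fin n) (Fin n) ℝ} (hX : Inv q A t X) :
    Inv q A (t + 1) (X + X - grM q (X * grM q (grM q A * X))) := by
  set A' := grM q A with hA'
  set Y := grM q (A' * X) with hY
  set Z := grM q (X * Y) with hZ
  have h1 : 1 - A' * (X + X - Z) = (1 - A' * X) * (1 - A' * X) +
      ((A' * X) * (Y - A' * X) + A' * (Z - X * Y)) := by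
    noncomm_ring
  unfold Inv
  rw [h1]
  have hg1 := gap_le (q := q) t
  have hg2 := h.gap_pos t
  have hg3 := gap_succ (q := q) t
  have hf : 0 ≤ 1 - gap q t := by linarith
  have h2 : OpLe ((1 - A' * X) * (1 - A' * X)) ((1 - gap q t) * (1 - gap q t)) :=
    OpLe.mul hX hX hf
  have h3 : OpLe ((A' * X) * (Y - A' * X)) (2 * q⁻¹ ^ 39) :=
    (h.op_AX hX).mul (h.dif_entry _) (by norm_num)
  have h4 : OpLe (A' * (Z - X * Y)) (q ^ 4 * q⁻¹ ^ 39) :=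
    h.op_A'.mul (h.dif_entry _) (pow_nonneg h.par.pos.le 4)
  refine (h2.add (h3.add h4)).mono ?_
  have h5 := h.pq 4 35
  norm_num only at h5
  rw [h5]
  have h6 := h.pow_p_le 18 21
  have h7 := h.pow_p_le 14 21
  have h8 : 0 < q⁻¹ ^ 21 := pow_pos h.p_pos _
  set g := gap q t
  set g' := gap q (t + 1)
  have h9 : g * g ≤ g * (1 / 4) := mul_le_mul_of_nonneg_left hg1 (by linarith)
  norm_num [-inv_pow] at h6 h7
  nlinarith

theorem gap_final : gap q (40 * L.length) = 1 / 4 := by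
  unfold gap
  apply min_eq_left
  rw [h.par.hq]
  have h1 : ((3 : ℝ) / 2) ^ (40 * L.length) * ((2 ^ L.length : ℝ)⁻¹) ^ 21 =
      (((3 : ℝ) / 2) ^ 40 / 2 ^ 21) ^ L.length := by
    rw [inv_pow, ← pow_mul 2 L.length 21, mul_comm L.length 21, pow_mul 2 21, pow_mul (3 / 2),
      div_pow (((3 : ℝ) / 2) ^ 40), div_eq_mul_inv ((((3 : ℝ) / 2) ^ 40) ^ L.length)]
  rw [h1]
  have h2 : (1 : ℝ) ≤ (((3 : ℝ) / 2) ^ 40 / 2 ^ 21) ^ L.length :=
    one_le_pow₀ (by norm_num)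
  linarith

/-- **the approximate inverse** -/
theorem main : ∃ X, LS.inv q L (rndM q L (rows A)) = rows X ∧ OpLe (1 - A * X) (4 / 5) := by
  rw [h.par.rndM_rows h.hA_cond]
  obtain ⟨X, h1, h2⟩ := h.par.inv_rows (A := grM q A) (grid_grM h.par.pos A) h.start_cond
    (Inv q A) h.inv_start fun t X hX _ => ⟨h.cond1 hX, h.cond2 hX, h.inv_step hX⟩
  refine ⟨X, h1, ?_⟩
  have h3 : OpLe (1 - grM q A * X) (3 / 4) := by
    have h4 := h2
    unfold Inv at h4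
    rw [h.gap_final] at h4
    exact h4.mono (by norm_num)
  have h4 : 1 - A * X = (1 - grM q A * X) + (grM q A - A) * X := by
    rw [Matrix.sub_mul]
    abel
  rw [h4]
  refine (h3.add ((h.dif_entry A).mul (h.op_X h2) (pow_nonneg h.p_pos.le _))).mono ?_
  have h5 := h.pq 5 34
  norm_num only at h5
  have h6 : q⁻¹ ^ 39 * (4 * q ^ 5) = 4 * q⁻¹ ^ 34 := by
    rw [← h5]; ring
  rw [h6]
  have h7 := h.pow_p_le 4 30
  have h8 : q⁻¹ ^ 30 ≤ 1 := pow_le_one₀ h.p_pos.le (by linarith [h.p_le])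
  norm_num [-inv_pow] at h7 h8 ⊢
  linarith

end Good

end Pool.Agent.Z85.LS
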