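import Pool.Agent.Z85.LS.Conv

set_option autoImplicit false

noncomputable section

open scoped Classical
open Matrix

namespace Pool.Agent.Z85.LS

variable {n : ℕ}

theorem kk_two {x : ℝ} (hx : 2 ≤ x) : 2 ≤ kk x := by
  by_contra h
  have h1 : kk x = 0 ∨ kk x = 1 := by omega
  have h2 := kk_spec x
  rcases h1 with h1 | h1 <;> rw [h1] at h2 <;> norm_num at h2 <;> linarith

theorem par_params {x : ℝ} (hx : 2 ≤ x) : Par (params x).1 (params x).2 := by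
  rw [params_eq]
  exact ⟨by simp, by simpa using kk_two hx⟩

theorem good_of (hn : 2 ≤ n) (A B : Matrix (Fin n) (Fin n) ℝ)
    (hA : ∀ i j, |A i j| ≤ (n : ℝ) ^ 2) (hB : ∀ i j, |B i j| ≤ (n : ℝ) ^ 4) (hAB : A * B = 1) :
    Good (params n).1 (params n).2 A B := by
  have h2 : (2 : ℝ) ≤ n := by exact_mod_cast hn
  have h3 : (n : ℝ) ≤ (params n).1 := by
    rw [params_eq]
    exact (kk_spec _).le
  refine ⟨par_params h2, by omega, h3, fun i j => (hA i j).trans ?_, fun i j =>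
    (hB i j).trans ?_, hAB⟩
  · exact pow_le_pow_left₀ (by positivity) h3 2
  · exact pow_le_pow_left₀ (by positivity) h3 4

theorem prep_eq (hn : 2 ≤ n) (A B : Matrix (Fin n) (Fin n) ℝ)
    (hA : ∀ i j, |A i j| ≤ (n : ℝ) ^ 2) (hB : ∀ i j, |B i j| ≤ (n : ℝ) ^ 4) (hAB : A * B = 1)
    (b : Fin n → ℝ) (ε : ℝ) :
    ∃ X, prep (ε, rows A, List.ofFn b) = rows X ∧ OpLe (1 - A * X) (4 / 5) := by
  obtain ⟨X, h1, h2⟩ := (good_of hn A B hA hB hAB).main
  refine ⟨X, ?_, h2⟩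
  unfold prep
  simp only [len_eq, List.length_ofFn]
  exact h1

/-- the state after `j` rounds of refinement -/
theorem refine_state (A X : Matrix (Fin n) (Fin n) ℝ) (hX : OpLe (1 - A * X) (4 / 5))
    (b : Fin n → ℝ) (ε : ℝ) (j : ℕ) :
    ∃ x r : Fin n → ℝ, rBody^[j] ((ε, rows A, rows X), (1, List.ofFn (0 : Fin n → ℝ),
      List.ofFn b)) = ((ε, rows A, rows X), ((4 / 5) ^ j, List.ofFn x, List.ofFn r)) ∧
      A *ᵥ x + r = b ∧ nrm r ≤ (4 / 5) ^ j * nrm b := by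
  induction j with
  | zero => exact ⟨0, b, by simp, by simp, by simp⟩
  | succ j ih =>
    obtain ⟨x, r, h1, h2, h3⟩ := ih
    refine ⟨x + X *ᵥ r, r - A *ᵥ (X *ᵥ r), ?_, ?_, ?_⟩
    · rw [Function.iterate_succ_apply', h1]
      unfold rBody
      simp only [mv_rows, addv_ofFn, subv_ofFn]
      refine Prod.ext rfl (Prod.ext ?_ rfl)
      simp only
      rw [pow_succ]
      norm_num
    · rw [Matrix.mulVec_add, ← h2]
      abel
    · have h4 : r - A *ᵥ (X *ᵥ r) = (1 - A * X) *ᵥ r := by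
        rw [Matrix.sub_mulVec, Matrix.one_mulVec, Matrix.mulVec_mulVec]
      rw [h4, pow_succ]
      have h5 := hX r
      nlinarith [nrm_nonneg r]

theorem init_eq (A X : Matrix (Fin n) (Fin n) ℝ) (b : Fin n → ℝ) (ε : ℝ)
    (hX : prep (ε, rows A, List.ofFn b) = rows X) :
    init (ε, rows A, List.ofFn b) =
      ((ε, rows A, rows X), (1, List.ofFn (0 : Fin n → ℝ), List.ofFn b)) := by
  unfold init
  rw [hX]
  simp only [map_ofFn']
  rfl

theorem rounds_spec (s : RS) (h0 : 0 < s.1.1) (h1 : s.2.1 = 1) :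
    (4 / 5 : ℝ) ^ rounds s < s.1.1 ∧ ∀ j < rounds s, s.1.1 ≤ (4 / 5) ^ j := by
  have key : ∀ j, rTest (rBody^[j] s) = (4 / 5) ^ j - s.1.1 := by
    intro j
    obtain ⟨h2, h3⟩ := rBody_e s j
    unfold rTest
    rw [h2, h3, if_neg (by linarith), h1, mul_one]
  constructor
  · have h := Nat.find_spec (r_term s)
    rw [key] at h
    unfold rounds
    linarith
  · intro j hj
    have h := Nat.find_min (r_term s) hj
    rw [key] at h
    linarith

/-- correctness of the algorithm -/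
theorem solve_correct (hn : 2 ≤ n) (A B : Matrix (Fin n) (Fin n) ℝ)
    (hA : ∀ i j, |A i j| ≤ (n : ℝ) ^ 2) (hB : ∀ i j, |B i j| ≤ (n : ℝ) ^ 4) (hAB : A * B = 1)
    (b : Fin n → ℝ) (ε : ℝ) (h0 : 0 < ε) :
    ∃ x : Fin n → ℝ, solve (ε, rows A, List.ofFn b) = List.ofFn x ∧
      nrm (A *ᵥ x - b) ≤ ε * nrm b := by
  obtain ⟨X, h1, h2⟩ := prep_eq hn A B hA hB hAB b ε
  have h3 := init_eq A X b ε h1
  obtain ⟨x, r, h4, h5, h6⟩ := refine_state A X h2 b ε (rounds (init (ε, rows A, List.ofFn b)))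
  refine ⟨x, ?_, ?_⟩
  · unfold solve
    rw [h3] at h4 ⊢
    rw [h4]
  · have h7 : A *ᵥ x - b = -r := by rw [← h5]; abel
    rw [h7, nrm_neg]
    refine h6.trans (mul_le_mul_of_nonneg_right ?_ (nrm_nonneg b))
    have h8 := (rounds_spec (init (ε, rows A, List.ofFn b)) (by rw [h3]; exact h0)
      (by rw [h3])).1
    rw [h3] at h8 ⊢
    exact h8.le

theorem rounds_le (s : RS) (h0 : 0 < s.1.1) (h1 : s.2.1 = 1) (hε : s.1.1 < 1) :
    (rounds s : ℝ) ≤ 1 + 5 * Real.log (1 / s.1.1) := by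
  have hl : 0 ≤ Real.log (1 / s.1.1) := Real.log_nonneg (by
    rw [le_div_iff₀ h0]; linarith)
  rcases Nat.eq_zero_or_pos (rounds s) with h | h
  · rw [h]; push_cast; linarith
  · obtain ⟨j, hj⟩ := Nat.exists_eq_succ_of_ne_zero h.ne'
    have h2 := (rounds_spec s h0 h1).2 j (by omega)
    have h3 : Real.log s.1.1 ≤ j * Real.log (4 / 5) := by
      rw [← Real.log_pow]
      exact Real.log_le_log h0 h2
    have h4 : (1 : ℝ) - (5 / 4)⁻¹ ≤ Real.log (5 / 4) := Real.one_sub_inv_le_log_of_pos (by norm_num)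
    have h5 : Real.log (4 / 5) = - Real.log (5 / 4) := by
      rw [← Real.log_inv]; norm_num
    have h6 : Real.log (1 / s.1.1) = - Real.log s.1.1 := by
      rw [one_div, Real.log_inv]
    rw [hj]
    push_cast
    rw [h6]
    rw [h5] at h3
    have h7 : (j : ℝ) * (1 / 5) ≤ j * Real.log (5 / 4) :=
      mul_le_mul_of_nonneg_left (by norm_num at h4 ⊢; linarith) (Nat.cast_nonneg j)
    linarith

theorem kk_log {x : ℝ} (hx : 1 ≤ x) : (kk x : ℝ) * Real.log 2 ≤ Real.log 2 + Real.log x := by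
  have h1 := kk_le hx
  have h2 := Real.log_le_log (by positivity) h1
  rwa [Real.log_pow, Real.log_mul (by norm_num) (by positivity)] at h2

/-- correctness and the number of operations -/
theorem solve_main : ∃ (cost : Inp → ℕ) (C : ℝ), Computes solve cost ∧ 0 < C ∧
    ∀ (n : ℕ), 2 ≤ n → ∀ (A B : Matrix (Fin n) (Fin n) ℝ),
      (∀ i j, |A i j| ≤ (n : ℝ) ^ 2) → (∀ i j, |B i j| ≤ (n : ℝ) ^ 4) → A * B = 1 →
      ∀ (b : Fin n → ℝ) (ε : ℝ), 0 < ε → ε < 1 →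
      ∃ x : Fin n → ℝ, solve (ε, rows A, List.ofFn b) = List.ofFn x ∧
        nrm (A *ᵥ x - b) ≤ ε * nrm b ∧
        (cost (ε, rows A, List.ofFn b) : ℝ) ≤ C * (n : ℝ) ^ 2 * Real.log (n / ε) ^ 2 := by
  obtain ⟨c, K, h1, h2⟩ := computes_solve
  refine ⟨c, 100 * K + 1, h1, by positivity, ?_⟩
  intro n hn A B hA hB hAB b ε h0 hε
  obtain ⟨x, h3, h4⟩ := solve_correct hn A B hA hB hAB b ε h0
  refine ⟨x, h3, h4, ?_⟩
  obtain ⟨X, h5, h6⟩ := prep_eq hn A B hA hB hAB b ε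
  have h7 := init_eq A X b ε h5
  have hr := rounds_le (init (ε, rows A, List.ofFn b)) (by rw [h7]; exact h0) (by rw [h7])
    (by rw [h7]; exact hε)
  rw [h7] at hr
  have hIS : IS n (kk n) (ε, rows A, List.ofFn b) := by
    refine ⟨⟨by simp [rows], ?_⟩, ⟨by simp, fun _ _ => trivial⟩, ?_⟩
    · intro y hy
      simp only [rows, List.mem_ofFn] at hy
      obtain ⟨i, rfl⟩ := hy
      exact ⟨by simp, fun _ _ => trivial⟩
    · simp only [len_eq, List.length_ofFn]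
      exact le_rfl
  have hc := h2 n (kk n) _ hIS
  rw [h7] at hc
  have hn2 : (2 : ℝ) ≤ n := by exact_mod_cast hn
  have hk := kk_log (x := (n : ℝ)) (by linarith)
  have hl2 : (0.69 : ℝ) < Real.log 2 := by have := Real.log_two_gt_d9; linarith
  have hlog : Real.log (n / ε) = Real.log n + Real.log (1 / ε) := by
    rw [← Real.log_mul (by positivity) (by positivity)]
    congr 1
    ring
  have hle : 0 ≤ Real.log (1 / ε) := Real.log_nonneg (by rw [le_div_iff₀ h0]; linarith)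
  have hln : Real.log 2 ≤ Real.log n := Real.log_le_log (by norm_num) hn2
  set ℓ := Real.log (n / ε)
  set R := rounds ((ε, rows A, rows X), (1, List.ofFn (0 : Fin n → ℝ), List.ofFn b))
  simp only at hr
  set k := kk n
  have hℓ : (0.69 : ℝ) ≤ ℓ := by linarith
  have hk0 : (0 : ℝ) ≤ k := Nat.cast_nonneg _
  have hk1 : (k : ℝ) + 1 ≤ 5 * ℓ := by nlinarith
  have hR1 : (R : ℝ) + 1 ≤ 8 * ℓ := by nlinarith
  have hR2 : 8 * ℓ ≤ 12 * ℓ ^ 2 := by nlinarith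
  have hk2 : ((k : ℝ) + 1) ^ 2 ≤ 25 * ℓ ^ 2 := by
    have := pow_le_pow_left₀ (by linarith) hk1 2
    nlinarith
  have hn3 : ((n : ℝ) + 1) ^ 2 ≤ 9 / 4 * (n : ℝ) ^ 2 := by nlinarith
  have hcR : (c (ε, rows A, List.ofFn b) : ℝ) ≤
      K * (((n : ℝ) + 1) ^ 2 * ((k : ℝ) + 1) ^ 2 + ((R : ℝ) + 1) * ((n : ℝ) + 1) ^ 2) := by
    exact_mod_cast hc
  refine hcR.trans ?_
  have hK : (0 : ℝ) ≤ K := Nat.cast_nonneg _
  have h8 : ((n : ℝ) + 1) ^ 2 * ((k : ℝ) + 1) ^ 2 + ((R : ℝ) + 1) * ((n : ℝ) + 1) ^ 2 ≤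
      (9 / 4 * (n : ℝ) ^ 2) * (37 * ℓ ^ 2) := by
    have h9 : ((k : ℝ) + 1) ^ 2 + ((R : ℝ) + 1) ≤ 37 * ℓ ^ 2 := by linarith
    have h10 : 0 ≤ ((k : ℝ) + 1) ^ 2 + ((R : ℝ) + 1) := by positivity
    calc ((n : ℝ) + 1) ^ 2 * ((k : ℝ) + 1) ^ 2 + ((R : ℝ) + 1) * ((n : ℝ) + 1) ^ 2
        = ((n : ℝ) + 1) ^ 2 * (((k : ℝ) + 1) ^ 2 + ((R : ℝ) + 1)) := by ring
      _ ≤ _ := mul_le_mul hn3 h9 h10 (by positivity)
  have h9 := mul_le_mul_of_nonneg_left h8 hK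
  have h10 : 0 ≤ (n : ℝ) ^ 2 * ℓ ^ 2 := by positivity
  have h11 : 0 ≤ K * ((n : ℝ) ^ 2 * ℓ ^ 2) := by positivity
  nlinarith

end Pool.Agent.Z85.LS
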