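import Pool.Agent.Z85.LS.Net

set_option autoImplicit false

noncomputable section

open scoped Classical
open Finset

namespace Pool.Agent.Z85.LS

theorem count_split {m : ℕ} {β : Type} [Fintype β] (i : Fin (m + 1))
    (P : β → (Fin m → β) → Prop) :
    (univ.filter fun a : Fin (m + 1) → β => P (a i) (fun k => a (i.succAbove k))).card =
      ∑ a' : Fin m → β, (univ.filter fun x => P x a').card := by
  simp_rw [Finset.card_filter]
  rw [← (Fin.insertNthEquiv (fun _ => β) i).sum_comp, Fintype.sum_prod_type_right]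
  refine Finset.sum_congr rfl fun a' _ => Finset.sum_congr rfl fun x _ => ?_
  simp [Fin.insertNthEquiv]

/-- normalized vectors -/
def Unit1 {n : ℕ} (v : Fin n → ℝ) : Prop := (∀ i, |v i| ≤ 1) ∧ ∃ i, |v i| = 1

theorem normalize {n : ℕ} (v : Fin n → ℝ) (hv : v ≠ 0) :
    ∃ i0, 0 < |v i0| ∧ (∀ i, |v i| ≤ |v i0|) ∧ Unit1 (fun i => v i / |v i0|) := by
  have hne : ∃ i, v i ≠ 0 := by
    by_contra h
    push Not at h
    exact hv (funext h)
  obtain ⟨i1, hi1⟩ := hne
  have : Nonempty (Fin n) := ⟨i1⟩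
  obtain ⟨i0, hi0⟩ := Finite.exists_max fun i => |v i|
  have h0 : 0 < |v i0| := lt_of_lt_of_le (abs_pos.2 hi1) (hi0 i1)
  refine ⟨i0, h0, hi0, fun i => ?_, i0, ?_⟩
  · rw [abs_div, abs_abs, div_le_one h0]
    exact hi0 i
  · rw [abs_div, abs_abs, div_self h0.ne']

theorem exists_orth (s : Bool → ℝ) {m : ℕ} (a' : Fin m → Fin (m + 1) → Bool) :
    ∃ u : Fin (m + 1) → ℝ, Unit1 u ∧ ∀ k, ip s u (a' k) = 0 := by
  set F : (Fin (m + 1) → ℝ) →ₗ[ℝ] (Fin m → ℝ) :=
    { toFun := fun u k => ip s u (a' k)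
      map_add' := by
        intro u v
        funext k
        simp only [ip, Pi.add_apply, mul_add, Finset.sum_add_distrib]
      map_smul' := by
        intro c u
        funext k
        simp only [ip, Pi.smul_apply, smul_eq_mul, RingHom.id_apply, Finset.mul_sum]
        exact Finset.sum_congr rfl fun i _ => by ring } with hF
  have h1 : LinearMap.ker F ≠ ⊥ := F.ker_ne_bot_of_finrank_lt (by simp)
  obtain ⟨v, hv, hv0⟩ := Submodule.exists_mem_ne_zero_of_ne_bot h1
  obtain ⟨i0, h2, -, h3⟩ := normalize v hv0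
  refine ⟨_, h3, fun k => ?_⟩
  have h4 : ip s v (a' k) = 0 := congrFun (LinearMap.mem_ker.1 hv) k
  unfold ip at h4 ⊢
  have h5 : ∑ i, s (a' k i) * (v i / |v i0|) = (∑ i, s (a' k i) * v i) / |v i0| := by
    rw [Finset.sum_div]
    exact Finset.sum_congr rfl fun i _ => by ring
  rw [h5, h4, zero_div]

/-- a normalized vector orthogonal to the given ones -/
def orth (s : Bool → ℝ) {m : ℕ} (a' : Fin m → Fin (m + 1) → Bool) : Fin (m + 1) → ℝ :=
  Classical.choose (exists_orth s a')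

theorem orth_spec (s : Bool → ℝ) {m : ℕ} (a' : Fin m → Fin (m + 1) → Bool) :
    Unit1 (orth s a') ∧ ∀ k, ip s (orth s a') (a' k) = 0 :=
  Classical.choose_spec (exists_orth s a')

/-- number of points of the net (upper bound) -/
def NN (n M : ℕ) : ℝ := ((n : ℝ) * (2 * (n : ℝ) ^ 2 + 1)) ^ M

theorem NN_nonneg (n M : ℕ) : 0 ≤ NN n M := by unfold NN; positivity

section

variable (s : Bool → ℝ) (hs : 1 ≤ |s true - s false|) (hs1 : ∀ b, |s b| ≤ 1)
include hs hs1

theorem comp_count_real {n M : ℕ} (m : ℕ) (hn : 8 ≤ n) (hM : M ≤ n) :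
    ((univ.filter fun a : Fin m → Fin n → Bool =>
      ∃ v, Cmp n M v ∧ ∀ j, |ip s v (a j)| < 1 / 8).card : ℝ) ≤
      NN n M / 2 ^ m * (2 ^ n) ^ m := by
  have h := comp_count s hs hs1 m hn hM
  have h1 : ((univ.filter fun a : Fin m → Fin n → Bool =>
      ∃ v, Cmp n M v ∧ ∀ j, |ip s v (a j)| < 1 / 8).card : ℝ) * 2 ^ m ≤
      NN n M * (2 ^ n) ^ m := by
    unfold NN
    exact_mod_cast h
  rw [div_mul_eq_mul_div, le_div_iff₀ (by positivity)]
  exact h1

/-- number of families such that the `i`-th vector is almost orthogonal to `orth` -/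
theorem count_i {m k : ℕ} (hn : 8 ≤ m + 1) (hM : 2 * k + 1 ≤ m + 1) (i : Fin (m + 1)) (t : ℝ)
    (ht : 2 * t < 1 / (4 * ((m + 1 : ℕ) : ℝ))) :
    ((univ.filter fun a : Fin (m + 1) → Fin (m + 1) → Bool =>
      |ip s (orth s (fun k => a (i.succAbove k))) (a i)| ≤ t).card : ℝ) ≤
      (2 ^ (m + 1)) ^ (m + 1) * (NN (m + 1) (2 * k) / 2 ^ m + 1 / √(2 * k + 1)) := by
  rw [count_split i (fun x a' => |ip s (orth s a') x| ≤ t)]
  push_cast
  set Bad := univ.filter fun a' : Fin m → Fin (m + 1) → Bool =>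
    ∃ v, Cmp (m + 1) (2 * k) v ∧ ∀ j, |ip s v (a' j)| < 1 / 8 with hBad
  have h1 : ∀ a', ((univ.filter fun x => |ip s (orth s a') x| ≤ t).card : ℝ) ≤
      (if a' ∈ Bad then 2 ^ (m + 1) else 0) + 2 ^ (m + 1) * (1 / √(2 * k + 1)) := by
    intro a'
    obtain ⟨h2, h3⟩ := orth_spec s a'
    by_cases hb : a' ∈ Bad
    · rw [if_pos hb]
      have h4 : ((univ.filter fun x => |ip s (orth s a') x| ≤ t).card : ℝ) ≤ 2 ^ (m + 1) := by
        have := Finset.card_le_univ (univ.filter fun x => |ip s (orth s a') x| ≤ t)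
        rw [Fintype.card_fun, Fintype.card_bool, Fintype.card_fin] at this
        exact_mod_cast this
      have h5 : (0 : ℝ) ≤ 2 ^ (m + 1) * (1 / √(2 * k + 1)) := by positivity
      linarith
    · rw [if_neg hb, zero_add]
      have h4 : ¬ Cmp (m + 1) (2 * k) (orth s a') := by
        intro hc
        apply hb
        rw [hBad, Finset.mem_filter]
        refine ⟨Finset.mem_univ _, _, hc, fun j => ?_⟩
        rw [h3 j]
        norm_num
      have h5 : 2 * k < (univ.filter fun i => 1 / (4 * ((m + 1 : ℕ) : ℝ)) ≤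
          |orth s a' i|).card := by
        by_contra hcon
        exact h4 ⟨h2.1, h2.2, not_lt.1 hcon⟩
      obtain ⟨T, hT1, hT2⟩ := Finset.exists_subset_card_eq h5.le
      have h6 := lo_count s hs (orth s a') (1 / (4 * ((m + 1 : ℕ) : ℝ))) t ht T
        (fun i hi => (Finset.mem_filter.1 (hT1 hi)).2)
      rw [hT2] at h6
      have h7 : ((univ.filter fun x => |ip s (orth s a') x| ≤ t).card : ℝ) ≤
          ((2 * k).choose ((2 * k) / 2) : ℝ) * 2 ^ (m + 1 - 2 * k) := by exact_mod_cast h6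
      refine h7.trans ?_
      calc ((2 * k).choose ((2 * k) / 2) : ℝ) * 2 ^ (m + 1 - 2 * k)
          ≤ (2 ^ (2 * k) / √(2 * k + 1)) * 2 ^ (m + 1 - 2 * k) :=
            mul_le_mul_of_nonneg_right choose_le (by positivity)
        _ = (2 ^ (2 * k) * 2 ^ (m + 1 - 2 * k)) * (1 / √(2 * k + 1)) := by ring
        _ = 2 ^ (m + 1) * (1 / √(2 * k + 1)) := by
            rw [← pow_add]
            congr 2
            omega
  refine (Finset.sum_le_sum fun a' _ => h1 a').trans ?_
  rw [Finset.sum_add_distrib, Finset.sum_ite_mem, Finset.univ_inter, Finset.sum_const,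
    Finset.sum_const, Finset.card_univ, Fintype.card_fun, Fintype.card_fun, Fintype.card_bool,
    Fintype.card_fin, Fintype.card_fin, nsmul_eq_mul, nsmul_eq_mul]
  have h2 := comp_count_real s hs hs1 (M := 2 * k) m hn (by omega)
  rw [← hBad] at h2
  push_cast
  have h3 : (Bad.card : ℝ) * 2 ^ (m + 1) ≤
      (NN (m + 1) (2 * k) / 2 ^ m * (2 ^ (m + 1)) ^ m) * 2 ^ (m + 1) :=
    mul_le_mul_of_nonneg_right h2 (by positivity)
  refine (add_le_add h3 le_rfl).trans (le_of_eq ?_)
  ring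

/-- the good event -/
def GoodA (s : Bool → ℝ) (n : ℕ) (a : Fin n → Fin n → Bool) : Prop :=
  ∀ v : Fin n → ℝ, Unit1 v → ∃ j, 1 / (33 * (n : ℝ) ^ 3) ≤ |∑ i, s (a i j) * v i|

theorem bad_count {m k : ℕ} (hn : 8 ≤ m + 1) (hM : 2 * k + 1 ≤ m + 1) (hk : 1 ≤ k) :
    ((univ.filter fun a : Fin (m + 1) → Fin (m + 1) → Bool => ¬ GoodA s (m + 1) a).card : ℝ) ≤
      (2 ^ (m + 1)) ^ (m + 1) * (NN (m + 1) (2 * k) / 2 ^ (m + 1) +
        ((m + 1 : ℕ) : ℝ) / (2 * k) * (NN (m + 1) (2 * k) / 2 ^ m + 1 / √(2 * k + 1))) := by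
  have hn0 : (0 : ℝ) < ((m + 1 : ℕ) : ℝ) := by positivity
  have hn8 : (8 : ℝ) ≤ ((m + 1 : ℕ) : ℝ) := by exact_mod_cast hn
  set n := m + 1 with hnm
  set ρ : ℝ := 1 / (4 * (n : ℝ)) with hρ
  set τ : ℝ := 1 / (33 * (n : ℝ) ^ 3) with hτ
  set t : ℝ := n * τ / ρ with htdef
  have hρ0 : 0 < ρ := by positivity
  have hτ0 : 0 < τ := by positivity
  have ht : 2 * t < ρ := by
    rw [htdef, hτ, hρ]
    have h1 : (2 : ℝ) * (n * (1 / (33 * (n : ℝ) ^ 3)) / (1 / (4 * (n : ℝ)))) =
        8 / 33 * (1 / n) := by field_simp; norm_num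
    have h2 : 1 / (4 * (n : ℝ)) = 1 / 4 * (1 / n) := by field_simp
    rw [h1, h2]
    have : 0 < 1 / (n : ℝ) := by positivity
    nlinarith
  -- the two bad sets
  set B1 := univ.filter fun a : Fin n → Fin n → Bool =>
    ∃ v, Cmp n (2 * k) v ∧ ∀ j, |ip s v (fun i => a i j)| < 1 / 8 with hB1
  set B2 := univ.filter fun a : Fin n → Fin n → Bool =>
    ∃ v, Unit1 v ∧ ¬ Cmp n (2 * k) v ∧ ∀ j, |∑ i, s (a i j) * v i| < τ with hB2
  have hsub : (univ.filter fun a : Fin n → Fin n → Bool => ¬ GoodA s n a) ⊆ B1 ∪ B2 := by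
    intro a ha
    rw [Finset.mem_filter] at ha
    unfold GoodA at ha
    push Not at ha
    obtain ⟨-, v, hv, hj⟩ := ha
    rw [Finset.mem_union]
    by_cases hc : Cmp n (2 * k) v
    · left
      rw [hB1, Finset.mem_filter]
      refine ⟨Finset.mem_univ _, v, hc, fun j => (hj j).trans_le ?_⟩
      apply one_div_le_one_div_of_le (by norm_num)
      have : (1 : ℝ) ≤ (n : ℝ) ^ 3 := one_le_pow₀ (by linarith)
      linarith
    · right
      rw [hB2, Finset.mem_filter]
      exact ⟨Finset.mem_univ _, v, hv, hc, hj⟩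
  have hc1 : (B1.card : ℝ) ≤ NN n (2 * k) / 2 ^ n * (2 ^ n) ^ n := by
    have h1 := comp_count_real s hs hs1 (n := n) (M := 2 * k) n hn (by omega)
    refine le_trans (le_of_eq ?_) h1
    congr 1
    rw [hB1]
    refine Finset.card_bij (fun a _ => fun j i => a i j) ?_ ?_ ?_
    · intro a ha
      rw [Finset.mem_filter] at ha ⊢
      exact ⟨Finset.mem_univ _, ha.2⟩
    · intro a _ b _ hab
      funext i j
      exact congrFun (congrFun hab j) i
    · intro b hb
      rw [Finset.mem_filter] at hb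
      refine ⟨fun i j => b j i, ?_, rfl⟩
      rw [Finset.mem_filter]
      exact ⟨Finset.mem_univ _, hb.2⟩
  -- the second set by double counting
  set Ev : Fin n → (Fin n → Fin n → Bool) → Prop := fun i a =>
    |ip s (orth s (fun k => a (i.succAbove k))) (a i)| ≤ t with hEv
  have hkey : ∀ a ∈ B2, 2 * k ≤ (univ.filter fun i => Ev i a).card := by
    intro a ha
    rw [hB2, Finset.mem_filter] at ha
    obtain ⟨-, v, hv, hc, hj⟩ := ha
    have h5 : 2 * k < (univ.filter fun i => ρ ≤ |v i|).card := by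
      by_contra hcon
      exact hc ⟨hv.1, hv.2, not_lt.1 hcon⟩
    refine h5.le.trans (Finset.card_le_card fun i hi => ?_)
    rw [Finset.mem_filter] at hi ⊢
    refine ⟨Finset.mem_univ _, ?_⟩
    obtain ⟨hu, horth⟩ := orth_spec s (fun k => a (i.succAbove k))
    simp only [hEv]
    set u := orth s (fun k => a (i.succAbove k))
    -- the bilinear form
    have h6 : ∑ j, u j * ∑ l, s (a l j) * v l = v i * ip s u (a i) := by
      have h7 : ∑ j, u j * ∑ l, s (a l j) * v l = ∑ l, v l * ip s u (a l) := by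
        unfold ip
        simp_rw [Finset.mul_sum]
        rw [Finset.sum_comm]
        exact Finset.sum_congr rfl fun l _ => Finset.sum_congr rfl fun j _ => by ring
      rw [h7, Fin.sum_univ_succAbove _ i]
      have h8 : ∑ l : Fin m, v (i.succAbove l) * ip s u (a (i.succAbove l)) = 0 := by
        refine Finset.sum_eq_zero fun l _ => ?_
        rw [horth l, mul_zero]
      rw [h8, add_zero]
    have h7 : |∑ j, u j * ∑ l, s (a l j) * v l| ≤ n * τ := by
      refine (Finset.abs_sum_le_sum_abs _ _).trans ?_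
      calc ∑ j, |u j * ∑ l, s (a l j) * v l| ≤ ∑ j : Fin n, τ := by
            refine Finset.sum_le_sum fun j _ => ?_
            rw [abs_mul]
            exact (mul_le_of_le_one_left (abs_nonneg _) (hu.1 j)).trans (hj j).le
        _ = n * τ := by simp
    rw [h6, abs_mul] at h7
    rw [htdef, le_div_iff₀ hρ0]
    calc |ip s u (a i)| * ρ ≤ |ip s u (a i)| * |v i| :=
          mul_le_mul_of_nonneg_left hi.2 (abs_nonneg _)
      _ = |v i| * |ip s u (a i)| := mul_comm _ _
      _ ≤ n * τ := h7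
  have hc2 : (B2.card : ℝ) * (2 * k) ≤ n * ((2 ^ n) ^ n *
      (NN n (2 * k) / 2 ^ m + 1 / √(2 * k + 1))) := by
    have h1 : B2.card * (2 * k) ≤ ∑ i : Fin n, (univ.filter fun a => Ev i a).card := by
      calc B2.card * (2 * k) = ∑ a ∈ B2, 2 * k := by rw [Finset.sum_const, smul_eq_mul]
        _ ≤ ∑ a ∈ B2, (univ.filter fun i => Ev i a).card := Finset.sum_le_sum hkey
        _ ≤ ∑ a, (univ.filter fun i => Ev i a).card :=
            Finset.sum_le_sum_of_subset (Finset.subset_univ _)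
        _ = ∑ i : Fin n, (univ.filter fun a => Ev i a).card := by
            simp_rw [Finset.card_filter]
            rw [Finset.sum_comm]
    have h2 : (B2.card : ℝ) * (2 * k) ≤ ∑ i : Fin n, ((univ.filter fun a => Ev i a).card : ℝ) := by
      exact_mod_cast h1
    refine h2.trans ?_
    calc ∑ i : Fin n, ((univ.filter fun a => Ev i a).card : ℝ)
        ≤ ∑ i : Fin n, (2 ^ n) ^ n * (NN n (2 * k) / 2 ^ m + 1 / √(2 * k + 1)) :=
          Finset.sum_le_sum fun i _ => count_i s hs hs1 hn hM i t ht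
      _ = _ := by simp
  have hk0 : (0 : ℝ) < 2 * k := by
    have : (1 : ℝ) ≤ k := by exact_mod_cast hk
    linarith
  have hc3 : (B2.card : ℝ) ≤ n / (2 * k) * ((2 ^ n) ^ n *
      (NN n (2 * k) / 2 ^ m + 1 / √(2 * k + 1))) := by
    rw [div_mul_eq_mul_div, le_div_iff₀ hk0]
    exact hc2
  have h9 : ((univ.filter fun a : Fin n → Fin n → Bool => ¬ GoodA s n a).card : ℝ) ≤
      B1.card + B2.card := by
    have := (Finset.card_le_card hsub).trans (Finset.card_union_le B1 B2)
    exact_mod_cast this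
  refine h9.trans ((add_le_add hc1 hc3).trans (le_of_eq ?_))
  ring

end

end Pool.Agent.Z85.LS
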