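import Mathlib

set_option autoImplicit false

noncomputable section

open scoped Classical
open Finset

namespace Pool.Agent.Z85.LS

/-- `∑ s(x_i) u_i` -/
def ip {n : ℕ} (s : Bool → ℝ) (u : Fin n → ℝ) (x : Fin n → Bool) : ℝ := ∑ i, s (x i) * u i

/-- flipping one coordinate -/
theorem flip_count {n : ℕ} (s : Bool → ℝ) (hs : 1 ≤ |s true - s false|) (w : Fin n → ℝ)
    (i0 : Fin n) (hw : |w i0| = 1) :
    2 * (univ.filter fun x : Fin n → Bool => |ip s w x| < 1 / 2).card ≤ 2 ^ n := by
  set S := univ.filter fun x : Fin n → Bool => |ip s w x| < 1 / 2 with hS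
  set fl : (Fin n → Bool) → (Fin n → Bool) := fun x => Function.update x i0 (!(x i0)) with hfl
  have hinj : Function.Injective fl := by
    have h2 : Function.Involutive fl := by
      intro x
      rw [hfl]
      simp
    exact h2.injective
  have hdiff : ∀ x, |ip s w (fl x) - ip s w x| = |s true - s false| := by
    intro x
    unfold ip
    rw [← Finset.sum_sub_distrib, Finset.sum_eq_single i0]
    · rw [← sub_mul, abs_mul, hw, mul_one, hfl]
      simp only [Function.update_self]
      cases x i0
      · simp
      · simp only [Bool.not_true]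
        rw [abs_sub_comm]
    · intro j _ hj
      rw [hfl]
      simp [Function.update_of_ne hj]
    · simp
  have hdis : Disjoint S (S.image fl) := by
    rw [Finset.disjoint_left]
    intro x hx hx'
    rw [Finset.mem_image] at hx'
    obtain ⟨y, hy, rfl⟩ := hx'
    rw [hS, Finset.mem_filter] at hx hy
    have h1 := hdiff y
    have h2 := abs_lt.1 hx.2
    have h3 := abs_lt.1 hy.2
    have h4 : |ip s w (fl y) - ip s w y| < 1 := by
      rw [abs_lt]
      constructor <;> linarith
    linarith
  have h1 : (S ∪ S.image fl).card = 2 * S.card := by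
    rw [Finset.card_union_of_disjoint hdis, Finset.card_image_of_injective _ hinj]
    ring
  rw [← h1]
  refine (Finset.card_le_univ _).trans ?_
  simp

/-- **Littlewood–Offord bound** (Erdős, via Sperner's theorem) -/
theorem lo_count {n : ℕ} (s : Bool → ℝ) (hs : 1 ≤ |s true - s false|) (u : Fin n → ℝ)
    (ρ t : ℝ) (ht : 2 * t < ρ) (T : Finset (Fin n)) (hT : ∀ i ∈ T, ρ ≤ |u i|) :
    (univ.filter fun x : Fin n → Bool => |ip s u x| ≤ t).card ≤
      (T.card.choose (T.card / 2)) * 2 ^ (n - T.card) := by
  by_cases hρ : ρ ≤ 0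
  · have : (univ.filter fun x : Fin n → Bool => |ip s u x| ≤ t) = ∅ := by
      rw [Finset.filter_eq_empty_iff]
      intro x _ hx
      have := abs_nonneg (ip s u x)
      linarith
    rw [this]
    simp
  push Not at hρ
  set S := univ.filter fun x : Fin n → Bool => |ip s u x| ≤ t with hS
  set r : (Fin n → Bool) → ({i // i ∉ T} → Bool) := fun x i => x i with hr
  -- bound for the fibres
  have hfib : ∀ c ∈ S.image r, (S.filter fun x => r x = c).card ≤ T.card.choose (T.card / 2) := by
    intro c _
    set big : (Fin n → Bool) → Fin n → Prop :=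
      fun x i => (x i = true ↔ 0 ≤ (s true - s false) * u i) with hbig
    set φ : (Fin n → Bool) → Finset {i // i ∈ T} := fun x => univ.filter fun i => big x i
    have hd : ∀ i ∈ T, ρ ≤ |(s true - s false) * u i| := by
      intro i hi
      rw [abs_mul]
      have h1 := hT i hi
      nlinarith [abs_nonneg (s true - s false), abs_nonneg (u i)]
    have hsx : ∀ (b : Bool) (i : Fin n), s b * u i = s false * u i +
        (if b = true then (s true - s false) * u i else 0) := by
      intro b i
      cases b
      · simp
      · simp only [if_true]; ring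
    -- comparison of two elements of a fibre
    have hcomp : ∀ x y : Fin n → Bool, r x = r y → φ x ⊆ φ y → ip s u y - ip s u x =
        ∑ i ∈ (T.filter fun i => ¬ big x i ∧ big y i), |(s true - s false) * u i| := by
      intro x y hxy hsub
      unfold ip
      rw [← Finset.sum_sub_distrib, Finset.sum_filter]
      have h1 : ∑ i, (s (y i) * u i - s (x i) * u i) =
          ∑ i ∈ T, (s (y i) * u i - s (x i) * u i) := by
        symm
        apply Finset.sum_subset (Finset.subset_univ T)
        intro i _ hi
        have : x i = y i := congrFun hxy ⟨i, hi⟩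
        rw [this, sub_self]
      rw [h1]
      refine Finset.sum_congr rfl fun i hi => ?_
      have h2 : big x i → big y i := by
        intro hb
        have : (⟨i, hi⟩ : {i // i ∈ T}) ∈ φ x := by
          simp only [φ, Finset.mem_filter, Finset.mem_univ, true_and]
          exact hb
        have := hsub this
        simp only [φ, Finset.mem_filter, Finset.mem_univ, true_and] at this
        exact this
      rw [hsx (y i), hsx (x i)]
      simp only [hbig] at h2 ⊢
      by_cases hsg : 0 ≤ (s true - s false) * u i
      · rw [abs_of_nonneg hsg]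
        simp only [hsg, iff_true] at h2 ⊢
        cases hx : x i <;> cases hy : y i <;> simp_all
      · push Not at hsg
        rw [abs_of_neg hsg]
        have h3 : ¬ 0 ≤ (s true - s false) * u i := not_le.2 hsg
        simp only [h3, iff_false] at h2 ⊢
        cases hx : x i <;> cases hy : y i <;> simp_all
    have hinj : Set.InjOn φ (S.filter fun x => r x = c) := by
      intro x hx y hy hxy
      rw [Finset.mem_coe, Finset.mem_filter] at hx hy
      funext i
      by_cases hi : i ∈ T
      · have h1 : (⟨i, hi⟩ : {i // i ∈ T}) ∈ φ x ↔ (⟨i, hi⟩ : {i // i ∈ T}) ∈ φ y := by rw [hxy]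
        simp only [φ, hbig, Finset.mem_filter, Finset.mem_univ, true_and] at h1
        have h2 : (x i = true ↔ y i = true) := by tauto
        exact Bool.eq_iff_iff.2 h2
      · exact congrFun (hx.2.trans hy.2.symm) ⟨i, hi⟩
    have hanti : IsAntichain (· ⊆ ·)
        (((S.filter fun x => r x = c).image φ : Finset (Finset {i // i ∈ T})) :
          Set (Finset {i // i ∈ T})) := by
      intro a ha b hb hab hsub
      rw [Finset.mem_coe, Finset.mem_image] at ha hb
      obtain ⟨x, hx, rfl⟩ := ha
      obtain ⟨y, hy, rfl⟩ := hb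
      rw [Finset.mem_filter] at hx hy
      have h1 := hcomp x y (hx.2.trans hy.2.symm) hsub
      -- there is an element in the difference
      obtain ⟨i, hi1, hi2⟩ : ∃ i, i ∈ φ y ∧ i ∉ φ x := by
        by_contra hcon
        push Not at hcon
        exact hab (Finset.Subset.antisymm hsub fun i hi => hcon i hi)
      have h2 : (i : Fin n) ∈ T.filter fun i => ¬ big x i ∧ big y i := by
        simp only [φ, Finset.mem_filter, Finset.mem_univ, true_and] at hi1 hi2
        exact Finset.mem_filter.2 ⟨i.2, hi2, hi1⟩
      have h3 := Finset.single_le_sum (f := fun i => |(s true - s false) * u i|)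
        (fun i _ => abs_nonneg _) h2
      have h4 := hd i i.2
      have h5 : |ip s u x| ≤ t := (Finset.mem_filter.1 hx.1).2
      have h6 : |ip s u y| ≤ t := (Finset.mem_filter.1 hy.1).2
      have h7 := abs_le.1 h5
      have h8 := abs_le.1 h6
      linarith
    have h1 := hanti.sperner
    rw [Finset.card_image_of_injOn hinj, Fintype.card_coe] at h1
    exact h1
  have h1 := Finset.card_le_mul_card_image (f := r) S (T.card.choose (T.card / 2)) hfib
  refine h1.trans (Nat.mul_le_mul_left _ ?_)
  refine (Finset.card_le_univ _).trans (le_of_eq ?_)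
  rw [Fintype.card_fun, Fintype.card_bool]
  congr 1
  rw [Fintype.card_subtype_compl, Fintype.card_fin, Fintype.card_coe]

/-- the central binomial coefficient -/
theorem centralBinom_sq (k : ℕ) : (Nat.centralBinom k) ^ 2 * (2 * k + 1) ≤ 16 ^ k := by
  induction k with
  | zero => simp
  | succ k ih =>
    have h1 := Nat.succ_mul_centralBinom_succ k
    have h2 : (k + 1) ^ 2 * ((Nat.centralBinom (k + 1)) ^ 2 * (2 * (k + 1) + 1)) ≤
        (k + 1) ^ 2 * 16 ^ (k + 1) := by
      calc (k + 1) ^ 2 * ((Nat.centralBinom (k + 1)) ^ 2 * (2 * (k + 1) + 1))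
          = ((k + 1) * Nat.centralBinom (k + 1)) ^ 2 * (2 * k + 3) := by ring
        _ = (2 * (2 * k + 1) * Nat.centralBinom k) ^ 2 * (2 * k + 3) := by rw [h1]
        _ = (Nat.centralBinom k ^ 2 * (2 * k + 1)) * (4 * ((2 * k + 1) * (2 * k + 3))) := by ring
        _ ≤ 16 ^ k * (4 * ((2 * k + 1) * (2 * k + 3))) := Nat.mul_le_mul_right _ ih
        _ ≤ 16 ^ k * (16 * (k + 1) ^ 2) := Nat.mul_le_mul_left _ (by nlinarith)
        _ = (k + 1) ^ 2 * 16 ^ (k + 1) := by ring
    exact Nat.le_of_mul_le_mul_left h2 (by positivity)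

theorem choose_le {k : ℕ} : ((2 * k).choose ((2 * k) / 2) : ℝ) ≤ 2 ^ (2 * k) / √(2 * k + 1) := by
  have h1 : (2 * k) / 2 = k := by omega
  rw [h1]
  have h2 := centralBinom_sq k
  rw [Nat.centralBinom_eq_two_mul_choose] at h2
  have h3 : ((2 * k).choose k : ℝ) ^ 2 * (2 * k + 1) ≤ 16 ^ k := by exact_mod_cast h2
  have h4 : (0 : ℝ) < 2 * k + 1 := by positivity
  rw [le_div_iff₀ (Real.sqrt_pos.2 h4)]
  apply le_of_sq_le_sq ?_ (by positivity)
  rw [mul_pow, Real.sq_sqrt h4.le]
  calc _ ≤ (16 : ℝ) ^ k := h3
    _ = (2 ^ (2 * k)) ^ 2 := by rw [← pow_mul, mul_comm (2 * k) 2, pow_mul, pow_mul]; norm_num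

end Pool.Agent.Z85.LS
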