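import Pool.Agent.Z85.LS.Asym

set_option autoImplicit false

noncomputable section

open scoped Classical ENNReal Matrix
open Finset Filter MeasureTheory

namespace Pool.Agent.Z85.LS

/-- the law of an `n × n` array with independent entries with law `μ` -/
def law (μ : Measure ℝ) (n : ℕ) : Measure (Fin n → Fin n → ℝ) :=
  Measure.pi fun _ => Measure.pi fun _ => μ

/-- the good matrices -/
def E (n : ℕ) : Set (Fin n → Fin n → ℝ) :=
  {A | 2 ≤ n ∧ (∀ i j, |A i j| ≤ (n : ℝ) ^ 2) ∧ (Matrix.of A).det ≠ 0 ∧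
    ∀ i j, |(Matrix.of A).adjugate i j| ≤ (n : ℝ) ^ 4 * |(Matrix.of A).det|}

theorem E_inverse {n : ℕ} {A : Fin n → Fin n → ℝ} (hA : A ∈ E n) :
    ∃ B : Matrix (Fin n) (Fin n) ℝ, Matrix.of A * B = 1 ∧ ∀ i j, |B i j| ≤ (n : ℝ) ^ 4 := by
  obtain ⟨-, -, h1, h2⟩ := hA
  refine ⟨(Matrix.of A).det⁻¹ • (Matrix.of A).adjugate, ?_, fun i j => ?_⟩
  · rw [Matrix.mul_smul, Matrix.mul_adjugate, smul_smul, inv_mul_cancel₀ h1, one_smul]
  · rw [Matrix.smul_apply, smul_eq_mul, abs_mul, abs_inv, inv_mul_le_iff₀ (abs_pos.2 h1)]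
    rw [mul_comm]
    exact h2 i j

theorem continuous_det (n : ℕ) :
    Continuous fun A : Fin n → Fin n → ℝ => (Matrix.of A).det :=
  Continuous.matrix_det (continuous_id (X := Matrix (Fin n) (Fin n) ℝ))

theorem continuous_adj (n : ℕ) (i j : Fin n) :
    Continuous fun A : Fin n → Fin n → ℝ => (Matrix.of A).adjugate i j :=
  (Continuous.matrix_adjugate (continuous_id (X := Matrix (Fin n) (Fin n) ℝ))).matrix_elem i j

theorem measurableSet_E (n : ℕ) : MeasurableSet (E n) := by
  have hdet := (continuous_det n).measurable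
  have hadj := fun i j => (continuous_adj n i j).measurable
  have hent : ∀ i j, Measurable fun A : Fin n → Fin n → ℝ => A i j := fun i j => by fun_prop
  have h1 : MeasurableSet {A : Fin n → Fin n → ℝ | 2 ≤ n} := MeasurableSet.const _
  have h2 : MeasurableSet {A : Fin n → Fin n → ℝ | ∀ i j, |A i j| ≤ (n : ℝ) ^ 2} := by
    simp only [Set.ofPred_forall]
    exact MeasurableSet.iInter fun i => MeasurableSet.iInter fun j =>
      measurableSet_le (hent i j).abs measurable_const
  have h3 : MeasurableSet {A : Fin n → Fin n → ℝ | (Matrix.of A).det ≠ 0} :=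
    (hdet (measurableSet_singleton (0 : ℝ))).compl
  have h4 : MeasurableSet {A : Fin n → Fin n → ℝ | ∀ i j,
      |(Matrix.of A).adjugate i j| ≤ (n : ℝ) ^ 4 * |(Matrix.of A).det|} := by
    simp only [Set.ofPred_forall]
    exact MeasurableSet.iInter fun i => MeasurableSet.iInter fun j =>
      measurableSet_le (hadj i j).abs (hdet.abs.const_mul _)
  exact h1.inter (h2.inter (h3.inter h4))

instance (μ : Measure ℝ) [IsProbabilityMeasure μ] (n : ℕ) : IsProbabilityMeasure (law μ n) := by
  unfold law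
  infer_instance

theorem tendsto_one {μ : Measure ℝ} [IsProbabilityMeasure μ] (f : ℕ → ℝ)
    (hf : Tendsto f atTop (nhds 0)) (h : ∀ᶠ n in atTop, law μ n (E n)ᶜ ≤ ENNReal.ofReal (f n)) :
    Tendsto (fun n => law μ n (E n)) atTop (nhds 1) := by
  have h1 : Tendsto (fun n => 1 - ENNReal.ofReal (f n)) atTop (nhds (1 - ENNReal.ofReal 0)) :=
    ENNReal.Tendsto.sub tendsto_const_nhds (ENNReal.tendsto_ofReal hf) (Or.inl (by simp))
  rw [ENNReal.ofReal_zero, tsub_zero] at h1
  refine tendsto_of_tendsto_of_tendsto_of_le_of_le' h1 tendsto_const_nhds ?_ ?_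
  · filter_upwards [h] with n hn
    have h2 : law μ n (E n)ᶜ = 1 - law μ n (E n) := prob_compl_eq_one_sub (measurableSet_E n)
    rw [h2] at hn
    rw [tsub_le_iff_left] at hn ⊢
    rw [add_comm]
    exact hn
  · exact Eventually.of_forall fun n => prob_le_one

/-! ### two-valued entries -/

/-- the law of a two-valued random variable with equal probabilities -/
def coin (x y : ℝ) : Measure ℝ :=
  (2⁻¹ : ℝ≥0∞) • Measure.dirac x + (2⁻¹ : ℝ≥0∞) • Measure.dirac y

/-- a fair bit -/
def bit : Measure Bool :=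
  (2⁻¹ : ℝ≥0∞) • Measure.dirac false + (2⁻¹ : ℝ≥0∞) • Measure.dirac true

instance : IsProbabilityMeasure bit := by
  constructor
  unfold bit
  simp [ENNReal.inv_two_add_inv_two]

instance (x y : ℝ) : IsProbabilityMeasure (coin x y) := by
  constructor
  unfold coin
  simp [ENNReal.inv_two_add_inv_two]

theorem bit_map (s : Bool → ℝ) : MeasurePreserving s bit (coin (s false) (s true)) := by
  refine ⟨measurable_of_finite s, ?_⟩
  unfold bit coin
  rw [Measure.map_add _ _ (measurable_of_finite s), Measure.map_smul, Measure.map_smul,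
    Measure.map_dirac' (measurable_of_finite s), Measure.map_dirac' (measurable_of_finite s)]

theorem bit_singleton (b : Bool) : bit {b} = 2⁻¹ := by
  unfold bit
  cases b <;> simp

/-- the law of the matrix of bits -/
def bits (n : ℕ) : Measure (Fin n → Fin n → Bool) :=
  Measure.pi fun _ => Measure.pi fun _ => bit

theorem bits_map (s : Bool → ℝ) (n : ℕ) :
    MeasurePreserving (fun (a : Fin n → Fin n → Bool) (i j : Fin n) => s (a i j)) (bits n)
      (law (coin (s false) (s true)) n) :=
  measurePreserving_pi (fun _ => Measure.pi fun _ => bit)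
    (fun _ => Measure.pi fun _ => coin (s false) (s true))
    fun _ => measurePreserving_pi (fun _ => bit) (fun _ => coin (s false) (s true))
      fun _ => bit_map s

theorem bits_apply (n : ℕ) (S : Finset (Fin n → Fin n → Bool)) :
    bits n S = ENNReal.ofReal ((S.card : ℝ) / (2 ^ n) ^ n) := by
  have h1 : ∀ a, bits n {a} = ((2 : ℝ≥0∞)⁻¹ ^ n) ^ n := by
    intro a
    unfold bits
    rw [Measure.pi_singleton]
    simp_rw [Measure.pi_singleton, bit_singleton]
    simp
  rw [← sum_measure_singleton]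
  simp_rw [h1]
  rw [Finset.sum_const, nsmul_eq_mul, ENNReal.ofReal_div_of_pos (by positivity), div_eq_mul_inv]
  congr 1
  · rw [ENNReal.ofReal_natCast]
  · rw [ENNReal.ofReal_pow (by positivity), ENNReal.ofReal_pow (by norm_num),
      ENNReal.ofReal_ofNat, ENNReal.inv_pow, ENNReal.inv_pow]

theorem good_mem (s : Bool → ℝ) (hs1 : ∀ b, |s b| ≤ 1) {n : ℕ} (hn : 33 ≤ n)
    (a : Fin n → Fin n → Bool) (ha : GoodA s n a) :
    (fun i j => s (a i j)) ∈ E n := by
  have hn33 : (33 : ℝ) ≤ n := by exact_mod_cast hn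
  have hn0 : (0 : ℝ) < n := by linarith
  set A : Matrix (Fin n) (Fin n) ℝ := Matrix.of fun i j => s (a i j) with hA
  have hpos : 0 < 1 / (33 * (n : ℝ) ^ 3) := by positivity
  have hvm : ∀ (v : Fin n → ℝ) (c : ℝ) (j : Fin n), ∑ i, s (a i j) * (v i / c) = (v ᵥ* A) j / c := by
    intro v c j
    rw [Matrix.vecMul, dotProduct, Finset.sum_div]
    refine Finset.sum_congr rfl fun i _ => ?_
    rw [hA, Matrix.of_apply]
    ring
  have hdet : A.det ≠ 0 := by
    intro h0
    obtain ⟨v, hv, hv0⟩ := Matrix.exists_vecMul_eq_zero_iff.2 h0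
    obtain ⟨i0, h1, -, h2⟩ := normalize v hv
    obtain ⟨j, hj⟩ := ha _ h2
    rw [hvm, hv0, Pi.zero_apply, zero_div, abs_zero] at hj
    linarith
  refine ⟨by omega, fun i j => ?_, hdet, fun i j => ?_⟩
  · refine (hs1 _).trans ?_
    nlinarith
  · change |A.adjugate i j| ≤ (n : ℝ) ^ 4 * |A.det|
    set v : Fin n → ℝ := fun l => A.adjugate i l with hv
    by_cases hv0 : v = 0
    · have : A.adjugate i j = 0 := congrFun hv0 j
      rw [this, abs_zero]
      positivity
    · obtain ⟨i0, h1, h2, h3⟩ := normalize v hv0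
      obtain ⟨l, hl⟩ := ha _ h3
      rw [hvm] at hl
      have h4 : (v ᵥ* A) l = (A.adjugate * A) i l := by
        rw [Matrix.vecMul, dotProduct, Matrix.mul_apply]
      have h5 : |(v ᵥ* A) l| ≤ |A.det| := by
        rw [h4, Matrix.adjugate_mul, Matrix.smul_apply, smul_eq_mul, abs_mul]
        apply mul_le_of_le_one_right (abs_nonneg _)
        rw [Matrix.one_apply]
        split_ifs <;> simp
      rw [abs_div, abs_abs, le_div_iff₀ h1, one_div_mul_eq_div, div_le_iff₀ (by positivity)] at hl
      calc |A.adjugate i j| ≤ |v i0| := h2 j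
        _ ≤ |(v ᵥ* A) l| * (33 * (n : ℝ) ^ 3) := hl
        _ ≤ |A.det| * (n * (n : ℝ) ^ 3) := by
            apply mul_le_mul h5 _ (by positivity) (abs_nonneg _)
            exact mul_le_mul_of_nonneg_right hn33 (by positivity)
        _ = (n : ℝ) ^ 4 * |A.det| := by ring

/-- **two-valued entries** -/
theorem coin_tendsto (s : Bool → ℝ) (hs : 1 ≤ |s true - s false|) (hs1 : ∀ b, |s b| ≤ 1) :
    Tendsto (fun n => law (coin (s false) (s true)) n (E n)) atTop (nhds 1) := by
  refine tendsto_one _ (bad_tendsto s hs hs1) ?_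
  filter_upwards [eventually_ge_atTop 33] with n hn
  rw [← bits_apply]
  have h1 := (bits_map s n).measure_preimage
    (MeasurableSet.compl (measurableSet_E n)).nullMeasurableSet
  rw [← h1]
  refine measure_mono fun a ha => ?_
  rw [Finset.mem_coe, Finset.mem_filter]
  refine ⟨Finset.mem_univ _, fun hg => ?_⟩
  exact ha (good_mem s hs1 hn a hg)

end Pool.Agent.Z85.LS
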