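import Pool.Agent.Z85.LS.Model

set_option autoImplicit false

namespace Pool.Agent.Z85.LS

section lists

variable {a b : ℕ} {α β γ σ : Type} {P : Shape α} {Q : Shape σ} {R : Shape β} {S : Shape γ}

/-- lists with all elements of shape `R` -/
def All {β : Type} (R : Shape β) : Shape (List β) := fun n k l => ∀ y ∈ l, R n k y

theorem Prog.reshape {f : α → β} {Q' : Shape β} (h : Prog a b P f R)
    (hQ : ∀ n k x, P n k x → Q' n k (f x)) : Prog a b P f Q' := ⟨h.1, hQ⟩

theorem Prog.nil' : Prog a b P (fun _ : α => ([] : List β)) (All R) :=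
  Prog.of_const (K := 1) Computes.nil fun _ _ _ _ => by simp [All]

theorem Prog.consAll {f : α → β} {g : α → List β} (hf : Prog a b P f R)
    (hg : Prog a b P g (All R)) : Prog a b P (fun x => f x :: g x) (All R) :=
  (hf.pair hg).comp (Prog.of_const (K := 1) Computes.cons fun n k x h => by
    intro y hy
    rcases List.mem_cons.1 hy with h1 | h1
    · rw [h1]; exact h.1
    · exact h.2 y h1)

theorem foldl_cons_eq {g : β → γ} (l : List β) : ∀ acc : List γ,
    l.foldl (fun s y => g y :: s) acc = (l.map g).reverse ++ acc := by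
  induction l with
  | nil => intro acc; rfl
  | cons y t ih =>
    intro acc
    rw [List.foldl_cons, ih]
    simp

theorem Prog.reverse {l : α → List β} (hl : Prog (a + 1) b P l (LN R)) :
    Prog (a + 1) b P (fun x => (l x).reverse) (LN R) := by
  have h1 : Prog (a + 1) b P (fun x => (l x).foldl (fun s y =>
      (fun q : α × List β × β => q.2.2 :: q.2.1) (x, s, y)) []) (All R) :=
    Prog.foldN hl Prog.nil' (Prog.consAll Prog.id.snd.snd Prog.id.snd.fst)
  refine (h1.congr fun x => ?_).reshape fun n k x hx => ?_
  · exact (foldl_cons_eq (g := fun y : β => y) (l x) []).trans (by simp)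
  · obtain ⟨h2, h3⟩ := hl.2 n k x hx
    exact ⟨by simpa using h2, fun y hy => h3 y (by simpa using hy)⟩

theorem Prog.map {l : α → List β} {g : α × β → γ} (hl : Prog (a + 1) b P l (LN R))
    (hg : Prog a b (PS P R) g S) :
    Prog (a + 1) b P (fun x => (l x).map (fun y => g (x, y))) (LN S) := by
  have h1 : Prog (a + 1) b P (fun x => (l x).foldl (fun s y =>
      (fun q : α × List γ × β => g (q.1, q.2.2) :: q.2.1) (x, s, y)) []) (All S) :=
    Prog.foldN hl Prog.nil' (Prog.consAll ((Prog.id.fst.pair Prog.id.snd.snd).comp hg)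
      Prog.id.snd.fst)
  have h2 : Prog (a + 1) b P (fun x => ((l x).map (fun y => g (x, y))).reverse) (LN S) := by
    refine (h1.congr fun x => ?_).reshape fun n k x hx => ?_
    · exact (foldl_cons_eq (g := fun y : β => g (x, y)) (l x) []).trans (by simp)
    · obtain ⟨h2, h3⟩ := hl.2 n k x hx
      refine ⟨by simpa using h2, fun y hy => ?_⟩
      simp only [List.mem_reverse, List.mem_map] at hy
      obtain ⟨z, hz, rfl⟩ := hy
      exact hg.2 n k (x, z) ⟨hx, h3 z hz⟩
  exact h2.reverse.congr fun x => List.reverse_reverse _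

/-- the step of `zip` -/
def zipStep (q : α × (List (β × γ) × List γ) × β) : List (β × γ) × List γ :=
  caseList q.2.1.2 q.2.1 (fun z t => ((q.2.2, z) :: q.2.1.1, t))

theorem zipStep_fold (x : α) (l : List β) : ∀ (m : List γ) (acc : List (β × γ)),
    (l.foldl (fun s y => zipStep (x, s, y)) (acc, m)).1 = (l.zip m).reverse ++ acc := by
  induction l with
  | nil => intro m acc; rfl
  | cons y t ih =>
    intro m acc
    cases m with
    | nil =>
      rw [List.foldl_cons]
      have h := ih [] acc
      simpa [zipStep] using h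
    | cons z m =>
      rw [List.foldl_cons]
      have h := ih m ((y, z) :: acc)
      simpa [zipStep] using h

theorem Prog.zip {l : α → List β} {m : α → List γ} (hl : Prog (a + 1) b P l (LN R))
    (hm : Prog (a + 1) b P m (All S)) :
    Prog (a + 1) b P (fun x => (l x).zip (m x)) (LN (PS R S)) := by
  have hstep : Prog a b (PS P (PS (PS (All (PS R S)) (All S)) R))
      (zipStep (α := α) (β := β) (γ := γ)) (PS (All (PS R S)) (All S)) :=
    Prog.caseL (L := All S) (Q := S) (L' := All S)
      (f := fun q : α × (List (β × γ) × List γ) × β => q.2.1.2)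
      (g := fun q : α × (List (β × γ) × List γ) × β => q.2.1)
      (h := fun r : (α × (List (β × γ) × List γ) × β) × γ × List γ =>
        ((r.1.2.2, r.2.1) :: r.1.2.1.1, r.2.2))
      Prog.id.snd.fst.snd Prog.id.snd.fst
      (fun n k y t h => ⟨h y (by simp), fun z hz => h z (by simp [hz])⟩)
      (Prog.pair (Prog.consAll (Prog.pair Prog.id.fst.snd.snd Prog.id.snd.fst)
        Prog.id.fst.snd.fst.fst) Prog.id.snd.snd)
  have h1 : Prog (a + 1) b P (fun x => ((l x).foldl (fun s y => zipStep (x, s, y))
      (([], m x) : List (β × γ) × List γ)).1) (All (PS R S)) :=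
    (Prog.foldN hl (Prog.nil'.pair hm) hstep).fst
  have h2 : Prog (a + 1) b P (fun x => ((l x).zip (m x)).reverse) (LN (PS R S)) := by
    refine (h1.congr fun x => ?_).reshape fun n k x hx => ?_
    · exact (zipStep_fold x (l x) (m x) []).trans (by simp)
    · obtain ⟨h2, h3⟩ := hl.2 n k x hx
      have h4 := hm.2 n k x hx
      refine ⟨by
        simp only [List.length_reverse, List.length_zip]
        exact (min_le_left _ _).trans h2, fun y hy => ?_⟩
      have hy' : y ∈ (l x).zip (m x) := by simpa using hy
      have := List.of_mem_zip hy'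
      exact ⟨h3 _ this.1, h4 _ this.2⟩
  exact h2.reverse.congr fun x => List.reverse_reverse _

theorem LN_All {n k : ℕ} {l : List β} (h : LN R n k l) : All R n k l := h.2

/-- sum of the products of corresponding elements -/
noncomputable def dot (u v : List ℝ) : ℝ :=
  (u.zip v).foldl (fun s p => s + p.1 * p.2) 0

theorem Prog.dot {u v : α → List ℝ} (hu : Prog (a + 1) b P u (LN Any))
    (hv : Prog (a + 1) b P v (LN Any)) : Prog (a + 1) b P (fun x => dot (u x) (v x)) Any :=
  Prog.foldN (σ := ℝ) (Q := Any) (step := fun q : α × ℝ × ℝ × ℝ => q.2.1 + q.2.2.1 * q.2.2.2)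
    (hu.zip (hv.weaken (fun _ _ _ h => h) fun _ _ _ h => h.2)) Prog.zero
    (Prog.id.snd.fst.add (Prog.id.snd.snd.fst.mul Prog.id.snd.snd.snd))

end lists

end Pool.Agent.Z85.LS
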