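import Mathlib

set_option autoImplicit false

namespace Pool.Agent.Z85.LS

/-- Case distinction on a list (empty, or head and tail). -/
def caseList {β γ : Type} (l : List β) (g : γ) (h : β → List β → γ) : γ :=
  match l with
  | [] => g
  | b :: t => h b t

@[simp] theorem caseList_nil {β γ : Type} (g : γ) (h : β → List β → γ) :
    caseList [] g h = g := rfl

@[simp] theorem caseList_cons {β γ : Type} (b : β) (t : List β) (g : γ) (h : β → List β → γ) :
    caseList (b :: t) g h = h b t := rfl

/-- **The model of computation.**  `Computes f c` says that some (finite, uniform) program computes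
the function `f` and performs at most `c x` operations on the input `x`.

The programs are the terms of a small language whose data are exact real numbers, pairs and lists.
Each of the following operations costs one unit:

* pairing and projections;
* the real constant `1`, the operations `+`, `-`, `*`, `/` on exact real numbers, and branching on
  the comparison `0 ≤ r` of a real number with `0`;
* the empty list, `cons`, and the case distinction (empty / head and tail) on a list;
* the tests of loops `while 0 ≤ h(x) do x := s(x)`; the cost of a loop is the sum of the costs of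
  all executions of the test `h` and of the body `s`, plus one for each test. The loop has to stop
  for all `x`: `k x` is the number of executions of the body.

`Computes.le` only allows to overestimate the number of operations. -/
inductive Computes : {α β : Type} → (α → β) → (α → ℕ) → Prop
  | id {α : Type} : Computes (fun x : α => x) (fun _ => 0)
  | comp {α β γ : Type} {f : α → β} {g : β → γ} {c : α → ℕ} {d : β → ℕ} :
      Computes f c → Computes g d → Computes (fun x => g (f x)) (fun x => c x + d (f x))
  | pair {α β γ : Type} {f : α → β} {g : α → γ} {c d : α → ℕ} :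
      Computes f c → Computes g d → Computes (fun x => (f x, g x)) (fun x => c x + d x + 1)
  | fst {α β : Type} : Computes (fun p : α × β => p.1) (fun _ => 1)
  | snd {α β : Type} : Computes (fun p : α × β => p.2) (fun _ => 1)
  | one {α : Type} : Computes (fun _ : α => (1 : ℝ)) (fun _ => 1)
  | add : Computes (fun p : ℝ × ℝ => p.1 + p.2) (fun _ => 1)
  | sub : Computes (fun p : ℝ × ℝ => p.1 - p.2) (fun _ => 1)
  | mul : Computes (fun p : ℝ × ℝ => p.1 * p.2) (fun _ => 1)
  | div : Computes (fun p : ℝ × ℝ => p.1 / p.2) (fun _ => 1)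
  | branch {α β : Type} {h : α → ℝ} {f g : α → β} {ch cf cg : α → ℕ} :
      Computes h ch → Computes f cf → Computes g cg →
      Computes (fun x => open scoped Classical in if 0 ≤ h x then f x else g x)
        (fun x => ch x + 1 + open scoped Classical in if 0 ≤ h x then cf x else cg x)
  | nil {α β : Type} : Computes (fun _ : α => ([] : List β)) (fun _ => 1)
  | cons {β : Type} : Computes (fun p : β × List β => p.1 :: p.2) (fun _ => 1)
  | caseList {α β γ : Type} {g : α → γ} {h : α × β × List β → γ} {cg : α → ℕ}
      {ch : α × β × List β → ℕ} :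
      Computes g cg → Computes h ch →
      Computes (fun p : α × List β => caseList p.2 (g p.1) (fun b t => h (p.1, b, t)))
        (fun p => 1 + caseList p.2 (cg p.1) (fun b t => ch (p.1, b, t)))
  | loop {α : Type} {h : α → ℝ} {s : α → α} {ch cs k : α → ℕ} :
      Computes h ch → Computes s cs →
      (∀ x, ∀ j < k x, 0 ≤ h (s^[j] x)) → (∀ x, h (s^[k x] x) < 0) →
      Computes (fun x => s^[k x] x)
        (fun x => ∑ j ∈ Finset.range (k x), (ch (s^[j] x) + 1 + cs (s^[j] x))
          + (ch (s^[k x] x) + 1))
  | le {α β : Type} {f : α → β} {c d : α → ℕ} :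
      Computes f c → (∀ x, c x ≤ d x) → Computes f d

/-! ### Shapes and programs with a polynomial number of operations on data of a given shape -/

/-- a property of data which depends on the two parameters `n` and `k` -/
abbrev Shape (α : Type) := ℕ → ℕ → α → Prop

/-- no condition -/
def Any {α : Type} : Shape α := fun _ _ _ => True

/-- pairs -/
def PS {α β : Type} (P : Shape α) (Q : Shape β) : Shape (α × β) :=
  fun n k x => P n k x.1 ∧ Q n k x.2

/-- lists of at most `n` elements of shape `R` -/
def LN {β : Type} (R : Shape β) : Shape (List β) :=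
  fun n k l => l.length ≤ n ∧ ∀ y ∈ l, R n k y

/-- lists of at most `k` elements of shape `R` -/
def LK {β : Type} (R : Shape β) : Shape (List β) :=
  fun n k l => l.length ≤ k ∧ ∀ y ∈ l, R n k y

/-- `f` is computed with `O((n+1)^a (k+1)^b)` operations on data of shape `P`, and the result has
shape `Q` -/
def Prog (a b : ℕ) {α β : Type} (P : Shape α) (f : α → β) (Q : Shape β) : Prop :=
  (∃ (c : α → ℕ) (K : ℕ), Computes f c ∧
    ∀ n k x, P n k x → c x ≤ K * ((n + 1) ^ a * (k + 1) ^ b)) ∧ ∀ n k x, P n k x → Q n k (f x)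

section basic

variable {a b : ℕ} {α β γ σ : Type} {P : Shape α} {Q : Shape β} {R : Shape γ}

theorem one_le_W (a b n k : ℕ) : 1 ≤ (n + 1) ^ a * (k + 1) ^ b :=
  Nat.mul_pos (by positivity) (by positivity)

theorem Prog.mono {a' b' : ℕ} {f : α → β} (h : Prog a b P f Q) (ha : a ≤ a') (hb : b ≤ b') :
    Prog a' b' P f Q := by
  obtain ⟨⟨c, K, h1, h2⟩, h3⟩ := h
  refine ⟨⟨c, K, h1, fun n k x hx => (h2 n k x hx).trans ?_⟩, h3⟩
  exact Nat.mul_le_mul_left _ (Nat.mul_le_mul (Nat.pow_le_pow_right (by omega) ha)
    (Nat.pow_le_pow_right (by omega) hb))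

theorem Prog.weaken {f : α → β} {P' : Shape α} {Q' : Shape β} (h : Prog a b P f Q)
    (hP : ∀ n k x, P' n k x → P n k x) (hQ : ∀ n k x, Q n k x → Q' n k x) :
    Prog a b P' f Q' := by
  obtain ⟨⟨c, K, h1, h2⟩, h3⟩ := h
  exact ⟨⟨c, K, h1, fun n k x hx => h2 n k x (hP n k x hx)⟩,
    fun n k x hx => hQ _ _ _ (h3 n k x (hP n k x hx))⟩

theorem Prog.congr {f g : α → β} (h : Prog a b P f Q) (hfg : ∀ x, f x = g x) :
    Prog a b P g Q := by
  have : f = g := funext hfg
  rwa [← this]

/-- functions computed by a bounded number of operations -/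
theorem Prog.of_const {f : α → β} {K : ℕ} (h : Computes f (fun _ => K))
    (hQ : ∀ n k x, P n k x → Q n k (f x)) : Prog a b P f Q :=
  ⟨⟨_, K, h, fun n k _ _ => Nat.le_mul_of_pos_right _ (one_le_W a b n k)⟩, hQ⟩

theorem Prog.id : Prog a b P (fun x => x) P :=
  Prog.of_const (K := 0) Computes.id fun _ _ _ h => h

theorem Prog.comp {f : α → β} {g : β → γ} (hf : Prog a b P f Q) (hg : Prog a b Q g R) :
    Prog a b P (fun x => g (f x)) R := by
  obtain ⟨⟨c, K, h1, h2⟩, h3⟩ := hf
  obtain ⟨⟨d, L, h4, h5⟩, h6⟩ := hg
  refine ⟨⟨_, K + L, h1.comp h4, fun n k x hx => ?_⟩, fun n k x hx => h6 _ _ _ (h3 _ _ _ hx)⟩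
  rw [add_mul]
  exact Nat.add_le_add (h2 n k x hx) (h5 n k _ (h3 n k x hx))

theorem Prog.pair {f : α → β} {g : α → γ} (hf : Prog a b P f Q) (hg : Prog a b P g R) :
    Prog a b P (fun x => (f x, g x)) (PS Q R) := by
  obtain ⟨⟨c, K, h1, h2⟩, h3⟩ := hf
  obtain ⟨⟨d, L, h4, h5⟩, h6⟩ := hg
  refine ⟨⟨_, K + L + 1, h1.pair h4, fun n k x hx => ?_⟩,
    fun n k x hx => ⟨h3 _ _ _ hx, h6 _ _ _ hx⟩⟩
  rw [add_mul, add_mul]
  have := one_le_W a b n k
  have h7 := h2 n k x hx
  have h8 := h5 n k x hx
  omega

theorem Prog.fst {f : α → β × γ} (hf : Prog a b P f (PS Q R)) : Prog a b P (fun x => (f x).1) Q :=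
  hf.comp (Prog.of_const (K := 1) Computes.fst fun _ _ _ h => h.1)

theorem Prog.snd {f : α → β × γ} (hf : Prog a b P f (PS Q R)) : Prog a b P (fun x => (f x).2) R :=
  hf.comp (Prog.of_const (K := 1) Computes.snd fun _ _ _ h => h.2)

theorem Prog.one : Prog a b P (fun _ : α => (1 : ℝ)) Any :=
  Prog.of_const (K := 1) Computes.one fun _ _ _ _ => trivial

theorem Prog.add {f g : α → ℝ} (hf : Prog a b P f Any) (hg : Prog a b P g Any) :
    Prog a b P (fun x => f x + g x) Any :=
  (hf.pair hg).comp (Prog.of_const (K := 1) Computes.add fun _ _ _ _ => trivial)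

theorem Prog.sub {f g : α → ℝ} (hf : Prog a b P f Any) (hg : Prog a b P g Any) :
    Prog a b P (fun x => f x - g x) Any :=
  (hf.pair hg).comp (Prog.of_const (K := 1) Computes.sub fun _ _ _ _ => trivial)

theorem Prog.mul {f g : α → ℝ} (hf : Prog a b P f Any) (hg : Prog a b P g Any) :
    Prog a b P (fun x => f x * g x) Any :=
  (hf.pair hg).comp (Prog.of_const (K := 1) Computes.mul fun _ _ _ _ => trivial)

theorem Prog.div {f g : α → ℝ} (hf : Prog a b P f Any) (hg : Prog a b P g Any) :
    Prog a b P (fun x => f x / g x) Any :=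
  (hf.pair hg).comp (Prog.of_const (K := 1) Computes.div fun _ _ _ _ => trivial)

theorem Prog.zero : Prog a b P (fun _ : α => (0 : ℝ)) Any :=
  (Prog.sub Prog.one Prog.one).congr fun _ => sub_self 1

theorem Prog.negOne : Prog a b P (fun _ : α => (-1 : ℝ)) Any :=
  (Prog.sub Prog.zero Prog.one).congr fun _ => zero_sub 1

theorem Prog.npow {f : α → ℝ} (hf : Prog a b P f Any) (m : ℕ) :
    Prog a b P (fun x => f x ^ m) Any := by
  induction m with
  | zero => exact Prog.one.congr fun _ => (pow_zero _).symm
  | succ m ih => exact (ih.mul hf).congr fun _ => (pow_succ _ _).symm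

theorem Prog.nil : Prog a b P (fun _ : α => ([] : List β)) (LN Q) :=
  Prog.of_const (K := 1) Computes.nil fun _ _ _ _ => ⟨Nat.zero_le _, by simp⟩

open scoped Classical in
theorem Prog.branch {h : α → ℝ} {f g : α → β} (hh : Prog a b P h Any) (hf : Prog a b P f Q)
    (hg : Prog a b P g Q) : Prog a b P (fun x => if 0 ≤ h x then f x else g x) Q := by
  obtain ⟨⟨c, K, h1, h2⟩, -⟩ := hh
  obtain ⟨⟨d, L, h4, h5⟩, h6⟩ := hf
  obtain ⟨⟨e, M, h7, h8⟩, h9⟩ := hg
  refine ⟨⟨_, K + 1 + L + M, Computes.branch h1 h4 h7, fun n k x hx => ?_⟩, fun n k x hx => ?_⟩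
  · rw [add_mul, add_mul, add_mul]
    have h10 := one_le_W a b n k
    have h11 := h2 n k x hx
    have h12 := h5 n k x hx
    have h13 := h8 n k x hx
    split_ifs <;> omega
  · show Q n k (if 0 ≤ h x then f x else g x)
    split_ifs
    · exact h6 n k x hx
    · exact h9 n k x hx

/-- case distinction on a list -/
theorem Prog.caseL {f : α → List β} {g : α → σ} {h : α × β × List β → σ} {L L' : Shape (List β)}
    {S : Shape σ} (hf : Prog a b P f L) (hg : Prog a b P g S)
    (hL : ∀ n k y t, L n k (y :: t) → Q n k y ∧ L' n k t)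
    (hh : Prog a b (PS P (PS Q L')) h S) :
    Prog a b P (fun x => caseList (f x) (g x) (fun y t => h (x, y, t))) S := by
  obtain ⟨⟨c, K, h1, h2⟩, h3⟩ := hf
  obtain ⟨⟨d, M, h4, h5⟩, h6⟩ := hg
  obtain ⟨⟨e, N, h7, h8⟩, h9⟩ := hh
  refine ⟨⟨_, K + 2 + M + N, (Computes.pair Computes.id h1).comp (Computes.caseList h4 h7),
    fun n k x hx => ?_⟩, fun n k x hx => ?_⟩
  · have h10 := one_le_W a b n k
    have h11 := h2 n k x hx
    have h12 := h5 n k x hx
    have h13 := h3 n k x hx
    rw [add_mul, add_mul, add_mul]
    simp only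
    cases hfx : f x with
    | nil =>
      simp only [caseList_nil]
      omega
    | cons y t =>
      rw [hfx] at h13
      have h14 := h8 n k (x, y, t) ⟨hx, hL n k y t h13⟩
      simp only [caseList_cons]
      omega
  · have h13 := h3 n k x hx
    simp only
    cases hfx : f x with
    | nil => exact h6 n k x hx
    | cons y t =>
      rw [hfx] at h13
      exact h9 n k (x, y, t) ⟨hx, hL n k y t h13⟩

end basic

/-! ### Folds -/

section fold

variable {a b : ℕ} {α β γ σ : Type} {P : Shape α} {Q : Shape σ} {R : Shape β}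

/-- the body of the loop of a fold -/
def foldBody (step : α × σ × β → σ) (p : α × σ × List β) : α × σ × List β :=
  caseList p.2.2 p (fun y t => (p.1, step (p.1, p.2.1, y), t))

/-- the test of the loop of a fold -/
def foldTest (p : α × σ × List β) : ℝ := caseList p.2.2 (-1) (fun _ _ => 1)

theorem foldBody_iter (step : α × σ × β → σ) (x : α) (l : List β) : ∀ s : σ,
    (foldBody step)^[l.length] (x, s, l) = (x, l.foldl (fun s y => step (x, s, y)) s, []) := by
  induction l with
  | nil => intro s; rfl
  | cons y t ih =>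
    intro s
    rw [List.length_cons, Function.iterate_succ_apply]
    exact ih _

theorem foldTest_iter (step : α × σ × β → σ) (x : α) (l : List β) : ∀ (s : σ),
    ∀ j < l.length, 0 ≤ foldTest ((foldBody step)^[j] (x, s, l)) := by
  induction l with
  | nil => intro s j hj; simp at hj
  | cons y t ih =>
    intro s j hj
    cases j with
    | zero => simp [foldTest]
    | succ j =>
      rw [Function.iterate_succ_apply]
      exact ih _ j (by simpa using hj)

/-- the general fold: cost and shape -/
theorem fold_aux {step : α × σ × β → σ} (hstep : Prog a b (PS P (PS Q R)) step Q) :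
    ∃ (c : α × σ × List β → ℕ) (K : ℕ),
      Computes (fun p : α × σ × List β =>
        List.foldl (fun s y => step (p.1, s, y)) p.2.1 p.2.2) c ∧
      (∀ n k x s l, P n k x → Q n k s → (∀ y ∈ l, R n k y) →
        c (x, s, l) ≤ K * (((n + 1) ^ a * (k + 1) ^ b) * (l.length + 1))) ∧
      (∀ n k x (s : σ) (l : List β), P n k x → Q n k s → (∀ y ∈ l, R n k y) →
        Q n k (l.foldl (fun s y => step (x, s, y)) s)) := by
  obtain ⟨⟨cs, K, h1, h2⟩, h3⟩ := hstep
  -- the shape
  have hQ : ∀ n k x (l : List β) s, P n k x → Q n k s → (∀ y ∈ l, R n k y) →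
      Q n k (l.foldl (fun s y => step (x, s, y)) s) := by
    intro n k x l
    induction l with
    | nil => intro s _ hs _; exact hs
    | cons y t ih =>
      intro s hx hs hl
      exact ih _ hx (h3 n k (x, s, y) ⟨hx, hs, hl y (by simp)⟩) fun z hz => hl z (by simp [hz])
  -- the body as a program
  set cb : α × σ × List β → ℕ := fun p => 30 + caseList p.2.2 0
      (fun y _ => cs (p.1, p.2.1, y)) with hcb
  have hbody : Computes (foldBody step) cb := by
    have e1 : Computes (fun q : (α × σ × List β) × β × List β =>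
        (q.1.1, step (q.1.1, q.1.2.1, q.2.1), q.2.2))
        (fun q => 25 + cs (q.1.1, q.1.2.1, q.2.1)) := by
      have e2 : Computes (fun q : (α × σ × List β) × β × List β => q.1.1) (fun _ => 2) :=
        Computes.fst.comp Computes.fst
      have e3 : Computes (fun q : (α × σ × List β) × β × List β => q.1.2.1) (fun _ => 3) :=
        (Computes.fst.comp Computes.snd).comp Computes.fst
      have e4 : Computes (fun q : (α × σ × List β) × β × List β => q.2.1) (fun _ => 2) :=
        Computes.snd.comp Computes.fst
      have e5 : Computes (fun q : (α × σ × List β) × β × List β => q.2.2) (fun _ => 2) :=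
        Computes.snd.comp Computes.snd
      refine (e2.pair (((e2.pair (e3.pair e4)).comp h1).pair e5)).le fun q => ?_
      omega
    have e6 : Computes (fun p : α × σ × List β => caseList p.2.2 p
        (fun y t => (p.1, step (p.1, p.2.1, y), t))) (fun p => (0 + (1 + 1) + 1) +
          (1 + caseList p.2.2 0 (fun y _ => 25 + cs (p.1, p.2.1, y)))) :=
      (Computes.pair Computes.id (Computes.snd.comp Computes.snd)).comp
        (Computes.caseList (g := fun p : α × σ × List β => p)
          (h := fun q : (α × σ × List β) × β × List β =>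
            (q.1.1, step (q.1.1, q.1.2.1, q.2.1), q.2.2)) Computes.id e1)
    refine e6.le fun p => ?_
    rw [hcb]
    rcases p with ⟨x, s, l⟩
    cases l with
    | nil => simp only [caseList_nil]; omega
    | cons y t => simp only [caseList_cons]; omega
  have htest : Computes (foldTest (α := α) (σ := σ) (β := β)) (fun _ => 15) := by
    have e0 : Computes (fun _ : α × σ × List β => (-1 : ℝ)) (fun _ => 7) := by
      have h0 : Computes (fun _ : α × σ × List β => ((1 : ℝ) - 1) - 1) (fun _ => 7) :=
        (((Computes.one.pair Computes.one).comp Computes.sub).pair Computes.one).comp Computes.sub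
      have h00 : (fun _ : α × σ × List β => ((1 : ℝ) - 1) - 1) = fun _ => -1 := by
        funext _; norm_num
      rwa [h00] at h0
    have e1 : Computes (fun q : (α × σ × List β) × β × List β => (1 : ℝ)) (fun _ => 1) :=
      Computes.one
    refine ((Computes.pair Computes.id (Computes.snd.comp Computes.snd)).comp
      (Computes.caseList e0 e1)).le fun p => ?_
    cases hp : p.2.2 with
    | nil => simp only [caseList_nil]; omega
    | cons y t => simp only [caseList_cons]; omega
  have hloop := Computes.loop (k := fun p => p.2.2.length) htest hbody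
    (fun p => foldTest_iter step p.1 p.2.2 p.2.1)
    (fun p => by
      have := foldBody_iter step p.1 p.2.2 p.2.1
      rw [show (p.1, p.2.1, p.2.2) = p from rfl] at this
      rw [this]
      simp [foldTest])
  have hres := (hloop.comp Computes.snd).comp Computes.fst
  refine ⟨fun p => ∑ j ∈ Finset.range p.2.2.length, (15 + 1 + cb ((foldBody step)^[j] p))
      + (15 + 1) + 1 + 1, 100 + K, ?_, ?_, fun n k x s l => hQ n k x l s⟩
  · have e : (fun p : α × σ × List β => List.foldl (fun s y => step (p.1, s, y)) p.2.1 p.2.2) =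
        fun p => ((foldBody step)^[p.2.2.length] p).2.1 := by
      funext p
      have := foldBody_iter step p.1 p.2.2 p.2.1
      rw [show (p.1, p.2.1, p.2.2) = p from rfl] at this
      rw [this]
    rw [e]
    exact hres
  · intro n k x s l hx hs hl
    have key : ∀ (l : List β) (s : σ), Q n k s → (∀ y ∈ l, R n k y) →
        ∑ j ∈ Finset.range l.length, (15 + 1 + cb ((foldBody step)^[j] (x, s, l))) ≤
          l.length * (46 + K * ((n + 1) ^ a * (k + 1) ^ b)) := by
      intro l
      induction l with
      | nil => intro s _ _; simp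
      | cons y t ih =>
        intro s hs hl
        rw [List.length_cons, Finset.sum_range_succ', add_mul, one_mul]
        refine Nat.add_le_add ?_ ?_
        · have h4 := ih (step (x, s, y)) (h3 n k (x, s, y) ⟨hx, hs, hl y (by simp)⟩)
            fun z hz => hl z (by simp [hz])
          refine le_trans (le_of_eq ?_) h4
          refine Finset.sum_congr rfl fun j _ => ?_
          rw [Function.iterate_succ_apply]
          rfl
        · have h5 := h2 n k (x, s, y) ⟨hx, hs, hl y (by simp)⟩
          simp only [Function.iterate_zero, id_eq, hcb, caseList_cons]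
          omega
    have h6 := key l s hs hl
    have h7 := one_le_W a b n k
    simp only
    set W := (n + 1) ^ a * (k + 1) ^ b
    have h8 : l.length * (46 + K * W) + (15 + 1) + 1 + 1 ≤ (100 + K) * (W * (l.length + 1)) := by
      nlinarith [Nat.zero_le (K * W), Nat.zero_le (l.length * W), Nat.mul_le_mul_left l.length h7]
    omega

/-- fold over a list of at most `n` elements -/
theorem Prog.foldN {l : α → List β} {s0 : α → σ} {step : α × σ × β → σ}
    (hl : Prog (a + 1) b P l (LN R)) (hs : Prog (a + 1) b P s0 Q)
    (hstep : Prog a b (PS P (PS Q R)) step Q) :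
    Prog (a + 1) b P (fun x => (l x).foldl (fun s y => step (x, s, y)) (s0 x)) Q := by
  obtain ⟨c, K, h1, h2, h3⟩ := fold_aux hstep
  have h4 : Prog (a + 1) b (PS P (PS Q (LN R))) (fun p : α × σ × List β =>
      List.foldl (fun s y => step (p.1, s, y)) p.2.1 p.2.2) Q := by
    refine ⟨⟨c, K, h1, ?_⟩, ?_⟩
    · rintro n k ⟨x, s, l⟩ ⟨hx, hs, hl1, hl2⟩
      refine (h2 n k x s l hx hs hl2).trans (Nat.mul_le_mul_left _ ?_)
      calc (n + 1) ^ a * (k + 1) ^ b * (l.length + 1)
          ≤ (n + 1) ^ a * (k + 1) ^ b * (n + 1) :=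
            Nat.mul_le_mul_left _ (Nat.succ_le_succ hl1)
        _ = (n + 1) ^ (a + 1) * (k + 1) ^ b := by ring
    · rintro n k ⟨x, s, l⟩ ⟨hx, hs, hl1, hl2⟩
      exact h3 n k x s l hx hs hl2
  exact (Prog.pair Prog.id (hs.pair hl)).comp h4

/-- fold over a list of at most `k` elements -/
theorem Prog.foldK {l : α → List β} {s0 : α → σ} {step : α × σ × β → σ}
    (hl : Prog a (b + 1) P l (LK R)) (hs : Prog a (b + 1) P s0 Q)
    (hstep : Prog a b (PS P (PS Q R)) step Q) :
    Prog a (b + 1) P (fun x => (l x).foldl (fun s y => step (x, s, y)) (s0 x)) Q := by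
  obtain ⟨c, K, h1, h2, h3⟩ := fold_aux hstep
  have h4 : Prog a (b + 1) (PS P (PS Q (LK R))) (fun p : α × σ × List β =>
      List.foldl (fun s y => step (p.1, s, y)) p.2.1 p.2.2) Q := by
    refine ⟨⟨c, K, h1, ?_⟩, ?_⟩
    · rintro n k ⟨x, s, l⟩ ⟨hx, hs, hl1, hl2⟩
      refine (h2 n k x s l hx hs hl2).trans (Nat.mul_le_mul_left _ ?_)
      calc (n + 1) ^ a * (k + 1) ^ b * (l.length + 1)
          ≤ (n + 1) ^ a * (k + 1) ^ b * (k + 1) :=
            Nat.mul_le_mul_left _ (Nat.succ_le_succ hl1)
        _ = (n + 1) ^ a * (k + 1) ^ (b + 1) := by ring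
    · rintro n k ⟨x, s, l⟩ ⟨hx, hs, hl1, hl2⟩
      exact h3 n k x s l hx hs hl2
  exact (Prog.pair Prog.id (hs.pair hl)).comp h4

end fold

end Pool.Agent.Z85.LS
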