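import Pool.Agent.Z85.LS.LO

set_option autoImplicit false

noncomputable section

open scoped Classical
open Finset

namespace Pool.Agent.Z85.LS

/-- compressible vectors -/
structure Cmp (n M : ℕ) (v : Fin n → ℝ) : Prop where
  le : ∀ i, |v i| ≤ 1
  one : ∃ i, |v i| = 1
  few : (univ.filter fun i => 1 / (4 * (n : ℝ)) ≤ |v i|).card ≤ M

theorem repr_sparse {n M : ℕ} {α : Type} (T : Finset (Fin n)) (hT : T.card ≤ M) (i0 : Fin n)
    (c : Fin n → α) (c0 : α) (val : α → ℝ) (h0 : val c0 = 0) (hz : ∀ i ∉ T, val (c i) = 0) :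
    ∃ p : Fin M → Fin n × α, ∀ i, (∑ k, if (p k).1 = i then val (p k).2 else 0) = val (c i) := by
  set e := T.equivFin with he
  set p : Fin M → Fin n × α := fun k =>
    if h : k.1 < T.card then (((e.symm ⟨k.1, h⟩ : T) : Fin n), c (e.symm ⟨k.1, h⟩ : T)) else (i0, c0)
    with hp
  refine ⟨p, fun i => ?_⟩
  by_cases hi : i ∈ T
  · rw [Finset.sum_eq_single (⟨(e ⟨i, hi⟩).1, lt_of_lt_of_le (e ⟨i, hi⟩).2 hT⟩ : Fin M)]
    · have h1 : p ⟨(e ⟨i, hi⟩).1, lt_of_lt_of_le (e ⟨i, hi⟩).2 hT⟩ = (i, c i) := by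
        simp only [hp]
        rw [dif_pos (e ⟨i, hi⟩).2]
        simp
      rw [h1, if_pos rfl]
    · intro k _ hk
      by_cases h : k.1 < T.card
      · have h1 : p k = (((e.symm ⟨k.1, h⟩ : T) : Fin n), c (e.symm ⟨k.1, h⟩ : T)) := by
          simp only [hp]
          rw [dif_pos h]
        rw [h1, if_neg]
        intro h2
        apply hk
        have h3 : e.symm ⟨k.1, h⟩ = ⟨i, hi⟩ := Subtype.ext h2
        rw [Equiv.symm_apply_eq] at h3
        ext
        simp only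
        rw [← h3]
      · have h1 : p k = (i0, c0) := by
          simp only [hp]
          rw [dif_neg h]
        rw [h1]
        simp [h0]
    · simp
  · rw [hz i hi]
    refine Finset.sum_eq_zero fun k _ => ?_
    by_cases h : k.1 < T.card
    · have h1 : p k = (((e.symm ⟨k.1, h⟩ : T) : Fin n), c (e.symm ⟨k.1, h⟩ : T)) := by
        simp only [hp]
        rw [dif_pos h]
      rw [h1, if_neg]
      intro h2
      exact hi (h2 ▸ (e.symm ⟨k.1, h⟩).2)
    · have h1 : p k = (i0, c0) := by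
        simp only [hp]
        rw [dif_neg h]
      rw [h1]
      simp [h0]

/-- the values on the grid -/
def val (n : ℕ) (c : Fin (2 * n ^ 2 + 1)) : ℝ := ((c : ℕ) - (n : ℝ) ^ 2) / (n : ℝ) ^ 2

/-- the net -/
def net (n M : ℕ) : Finset (Fin n → ℝ) :=
  (univ.image fun (p : Fin M → Fin n × Fin (2 * n ^ 2 + 1)) (i : Fin n) =>
    ∑ k, if (p k).1 = i then val n (p k).2 else 0).filter fun w => ∃ i, |w i| = 1

theorem net_card (n M : ℕ) : (net n M).card ≤ (n * (2 * n ^ 2 + 1)) ^ M := by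
  refine (Finset.card_filter_le _ _).trans (Finset.card_image_le.trans ?_)
  rw [Finset.card_univ, Fintype.card_fun, Fintype.card_prod, Fintype.card_fin, Fintype.card_fin,
    Fintype.card_fin]

theorem net_approx {n M : ℕ} (hn : 8 ≤ n) (hM : M ≤ n) (v : Fin n → ℝ) (hv : Cmp n M v) :
    ∃ w ∈ net n M, ∑ i, |v i - w i| ≤ 3 / 8 := by
  have hn0 : (0 : ℝ) < n := by positivity
  have hn8 : (8 : ℝ) ≤ n := by exact_mod_cast hn
  have hn2 : (0 : ℝ) < (n : ℝ) ^ 2 := by positivity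
  set T := univ.filter fun i => 1 / (4 * (n : ℝ)) ≤ |v i| with hT
  have hfl : ∀ i, -((n : ℤ) ^ 2) ≤ ⌊(n : ℝ) ^ 2 * v i⌋ ∧ ⌊(n : ℝ) ^ 2 * v i⌋ ≤ (n : ℤ) ^ 2 := by
    intro i
    have h1 := abs_le.1 (hv.le i)
    constructor
    · rw [Int.le_floor]
      push_cast
      nlinarith
    · have h2 : ⌊(n : ℝ) ^ 2 * v i⌋ ≤ ⌊(((n : ℤ) ^ 2 : ℤ) : ℝ)⌋ := by
        apply Int.floor_le_floor
        push_cast
        nlinarith
      rwa [Int.floor_intCast] at h2
  set c : Fin n → Fin (2 * n ^ 2 + 1) := fun i =>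
    if i ∈ T then ⟨(⌊(n : ℝ) ^ 2 * v i⌋ + (n : ℤ) ^ 2).toNat, by
      have := hfl i
      have h2 : (⌊(n : ℝ) ^ 2 * v i⌋ + (n : ℤ) ^ 2) ≤ ((2 * n ^ 2 : ℕ) : ℤ) := by
        push_cast; linarith
      have h3 : (⌊(n : ℝ) ^ 2 * v i⌋ + (n : ℤ) ^ 2).toNat ≤ 2 * n ^ 2 := by
        rw [Int.toNat_le]; exact h2
      omega⟩
    else ⟨n ^ 2, by omega⟩ with hc
  have hval0 : val n ⟨n ^ 2, by omega⟩ = 0 := by
    unfold val
    push_cast
    simp
  have hval1 : ∀ i ∉ T, val n (c i) = 0 := by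
    intro i hi
    simp only [hc, if_neg hi]
    exact hval0
  have hval2 : ∀ i ∈ T, val n (c i) = (⌊(n : ℝ) ^ 2 * v i⌋ : ℝ) / (n : ℝ) ^ 2 := by
    intro i hi
    simp only [hc, if_pos hi]
    unfold val
    have h1 : (((⌊(n : ℝ) ^ 2 * v i⌋ + (n : ℤ) ^ 2).toNat : ℕ) : ℝ) =
        (⌊(n : ℝ) ^ 2 * v i⌋ : ℝ) + (n : ℝ) ^ 2 := by
      have h2 : (((⌊(n : ℝ) ^ 2 * v i⌋ + (n : ℤ) ^ 2).toNat : ℕ) : ℤ) =
          ⌊(n : ℝ) ^ 2 * v i⌋ + (n : ℤ) ^ 2 := Int.toNat_of_nonneg (by linarith [(hfl i).1])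
      have h3 : ((((⌊(n : ℝ) ^ 2 * v i⌋ + (n : ℤ) ^ 2).toNat : ℕ) : ℤ) : ℝ) =
          ((⌊(n : ℝ) ^ 2 * v i⌋ + (n : ℤ) ^ 2 : ℤ) : ℝ) := by rw [h2]
      rw [Int.cast_natCast] at h3
      rw [h3]
      push_cast
      ring
    simp only
    rw [h1, add_sub_cancel_right]
  obtain ⟨p, hp⟩ := repr_sparse (M := M) T hv.few ⟨0, by omega⟩ c ⟨n ^ 2, by omega⟩ (val n)
    hval0 hval1
  refine ⟨fun i => val n (c i), ?_, ?_⟩
  · unfold net
    rw [Finset.mem_filter, Finset.mem_image]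
    refine ⟨⟨p, Finset.mem_univ _, funext hp⟩, ?_⟩
    obtain ⟨i, hi⟩ := hv.one
    refine ⟨i, ?_⟩
    have hiT : i ∈ T := by
      rw [hT, Finset.mem_filter]
      refine ⟨Finset.mem_univ _, ?_⟩
      rw [hi, div_le_one (by positivity)]
      linarith
    simp only
    rw [hval2 i hiT]
    rcases (abs_eq (by norm_num : (0 : ℝ) ≤ 1)).1 hi with h | h
    · rw [h, mul_one]
      have h1 : ⌊(n : ℝ) ^ 2⌋ = (n : ℤ) ^ 2 := by
        have : ((n : ℝ) ^ 2) = (((n : ℤ) ^ 2 : ℤ) : ℝ) := by push_cast; rfl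
        rw [this, Int.floor_intCast]
      rw [h1]
      push_cast
      rw [div_self hn2.ne', abs_one]
    · rw [h]
      have h1 : ⌊(n : ℝ) ^ 2 * -1⌋ = -(n : ℤ) ^ 2 := by
        have : ((n : ℝ) ^ 2 * -1) = ((-(n : ℤ) ^ 2 : ℤ) : ℝ) := by push_cast; ring
        rw [this, Int.floor_intCast]
      rw [h1]
      push_cast
      rw [neg_div, div_self hn2.ne', abs_neg, abs_one]
  · have h1 : ∀ i ∈ T, |v i - val n (c i)| ≤ 1 / (n : ℝ) ^ 2 := by
      intro i hi
      rw [hval2 i hi]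
      have h2 := Int.floor_le ((n : ℝ) ^ 2 * v i)
      have h3 := Int.lt_floor_add_one ((n : ℝ) ^ 2 * v i)
      have h4 : v i - (⌊(n : ℝ) ^ 2 * v i⌋ : ℝ) / (n : ℝ) ^ 2 =
          ((n : ℝ) ^ 2 * v i - ⌊(n : ℝ) ^ 2 * v i⌋) / (n : ℝ) ^ 2 := by
        field_simp
      rw [h4, abs_div, abs_of_pos hn2]
      apply div_le_div_of_nonneg_right _ hn2.le
      rw [abs_le]
      constructor <;> linarith
    have h2 : ∀ i ∉ T, |v i - val n (c i)| ≤ 1 / (4 * (n : ℝ)) := by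
      intro i hi
      rw [hval1 i hi, sub_zero]
      have : ¬ 1 / (4 * (n : ℝ)) ≤ |v i| := fun h => hi (by
        rw [hT, Finset.mem_filter]; exact ⟨Finset.mem_univ _, h⟩)
      exact (not_le.1 this).le
    calc ∑ i, |v i - val n (c i)| = ∑ i ∈ T, |v i - val n (c i)| +
          ∑ i ∈ Tᶜ, |v i - val n (c i)| := (Finset.sum_add_sum_compl T _).symm
      _ ≤ T.card • (1 / (n : ℝ) ^ 2) + (Tᶜ).card • (1 / (4 * (n : ℝ))) := by
          refine add_le_add (Finset.sum_le_card_nsmul _ _ _ h1)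
            (Finset.sum_le_card_nsmul _ _ _ fun i hi => h2 i (Finset.mem_compl.1 hi))
      _ ≤ n * (1 / (n : ℝ) ^ 2) + n * (1 / (4 * (n : ℝ))) := by
          simp only [nsmul_eq_mul]
          have h3 : (T.card : ℝ) ≤ n := Nat.cast_le.2 (hv.few.trans hM)
          have h4 : ((Tᶜ).card : ℝ) ≤ n := by
            have := Finset.card_le_univ (Tᶜ)
            rw [Fintype.card_fin] at this
            exact_mod_cast this
          exact add_le_add (mul_le_mul_of_nonneg_right h3 (by positivity))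
            (mul_le_mul_of_nonneg_right h4 (by positivity))
      _ = 1 / n + 1 / 4 := by field_simp
      _ ≤ 3 / 8 := by
          have : 1 / (n : ℝ) ≤ 1 / 8 := one_div_le_one_div_of_le (by norm_num) hn8
          linarith

theorem ip_diff {n : ℕ} (s : Bool → ℝ) (hs1 : ∀ b, |s b| ≤ 1) (v w : Fin n → ℝ)
    (x : Fin n → Bool) : |ip s v x - ip s w x| ≤ ∑ i, |v i - w i| := by
  unfold ip
  rw [← Finset.sum_sub_distrib]
  refine (Finset.abs_sum_le_sum_abs _ _).trans (Finset.sum_le_sum fun i _ => ?_)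
  rw [← mul_sub, abs_mul]
  exact mul_le_of_le_one_left (abs_nonneg _) (hs1 _)

/-- few families of vectors are almost orthogonal to a compressible vector -/
theorem comp_count (s : Bool → ℝ) (hs : 1 ≤ |s true - s false|) (hs1 : ∀ b, |s b| ≤ 1)
    {n M : ℕ} (m : ℕ) (hn : 8 ≤ n) (hM : M ≤ n) :
    (univ.filter fun a : Fin m → Fin n → Bool =>
      ∃ v, Cmp n M v ∧ ∀ j, |ip s v (a j)| < 1 / 8).card * 2 ^ m ≤
      (n * (2 * n ^ 2 + 1)) ^ M * (2 ^ n) ^ m := by
  set Sw : (Fin n → ℝ) → Finset (Fin n → Bool) :=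
    fun w => univ.filter fun x : Fin n → Bool => |ip s w x| < 1 / 2
  have h1 : (univ.filter fun a : Fin m → Fin n → Bool =>
      ∃ v, Cmp n M v ∧ ∀ j, |ip s v (a j)| < 1 / 8) ⊆
      (net n M).biUnion fun w => Fintype.piFinset fun _ : Fin m => Sw w := by
    intro a ha
    rw [Finset.mem_filter] at ha
    obtain ⟨-, v, hv, hj⟩ := ha
    obtain ⟨w, hw, hvw⟩ := net_approx hn hM v hv
    rw [Finset.mem_biUnion]
    refine ⟨w, hw, ?_⟩
    rw [Fintype.mem_piFinset]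
    intro j
    simp only [Sw, Finset.mem_filter, Finset.mem_univ, true_and]
    have h2 := ip_diff s hs1 v w (a j)
    have h3 := abs_le.1 (h2.trans hvw)
    have h4 := abs_lt.1 (hj j)
    rw [abs_lt]
    constructor <;> linarith
  calc _ ≤ ((net n M).biUnion fun w => Fintype.piFinset fun _ : Fin m => Sw w).card * 2 ^ m :=
        Nat.mul_le_mul_right _ (Finset.card_le_card h1)
    _ ≤ (∑ w ∈ net n M, (Fintype.piFinset fun _ : Fin m => Sw w).card) * 2 ^ m :=
        Nat.mul_le_mul_right _ Finset.card_biUnion_le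
    _ = ∑ w ∈ net n M, (2 * (Sw w).card) ^ m := by
        rw [Finset.sum_mul]
        refine Finset.sum_congr rfl fun w _ => ?_
        rw [Fintype.card_piFinset_const, mul_pow, mul_comm]
    _ ≤ ∑ w ∈ net n M, (2 ^ n) ^ m := by
        refine Finset.sum_le_sum fun w hw => Nat.pow_le_pow_left ?_ m
        unfold net at hw
        obtain ⟨i, hi⟩ := (Finset.mem_filter.1 hw).2
        exact flip_count s hs w i hi
    _ = (net n M).card * (2 ^ n) ^ m := by rw [Finset.sum_const, smul_eq_mul]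
    _ ≤ _ := Nat.mul_le_mul_right _ (net_card n M)

end Pool.Agent.Z85.LS
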