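import Pool.Agent.Z85.LS.Solve

set_option autoImplicit false

noncomputable section

open scoped Classical

namespace Pool.Agent.Z85.LS

/-! ### Digits of numbers -/

theorem bitStep_iter (m : ℕ) (z : ℝ) (h0 : 0 ≤ z) (h1 : z < 1) :
    bitStep^[m] (0, z) = ((⌊(2 : ℝ) ^ m * z⌋ : ℝ), Int.fract ((2 : ℝ) ^ m * z)) := by
  induction m with
  | zero =>
    have h2 : ⌊z⌋ = 0 := Int.floor_eq_zero_iff.2 ⟨h0, h1⟩
    simp [h2, Int.fract]
  | succ m ih =>
    rw [Function.iterate_succ_apply', ih]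
    set y := (2 : ℝ) ^ m * z with hy
    have h2 : (2 : ℝ) ^ (m + 1) * z = 2 * y := by rw [hy]; ring
    have h3 : (⌊y⌋ : ℝ) + Int.fract y = y := Int.floor_add_fract y
    have h4 := Int.fract_nonneg y
    have h5 := Int.fract_lt_one y
    rw [h2]
    unfold bitStep
    simp only
    by_cases h : 0 ≤ Int.fract y + Int.fract y - 1
    · rw [if_pos h]
      have h6 : ⌊2 * y⌋ = 2 * ⌊y⌋ + 1 := by
        rw [Int.floor_eq_iff]
        push_cast
        constructor <;> linarith
      refine Prod.ext ?_ ?_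
      · simp only [h6]; push_cast; ring
      · simp only [Int.fract, h6]; push_cast; ring
    · rw [if_neg h]
      have h6 : ⌊2 * y⌋ = 2 * ⌊y⌋ := by
        rw [Int.floor_eq_iff]
        push_cast
        push Not at h
        constructor <;> linarith
      refine Prod.ext ?_ ?_
      · simp only [h6]; push_cast; ring
      · simp only [Int.fract, h6]; push_cast; ring

theorem foldl_iterate {σ : Type} (f : σ → σ) (L : List ℝ) (s : σ) :
    L.foldl (fun s _ => f s) s = f^[L.length] s := by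
  induction L generalizing s with
  | nil => rfl
  | cons y t ih => rw [List.foldl_cons, ih, List.length_cons, Function.iterate_succ_apply]

/-- the parameters: `q = 2 ^ |L|`, `|L| ≥ 2` -/
structure Par (q : ℝ) (L : List ℝ) : Prop where
  hq : q = 2 ^ L.length
  hL : 2 ≤ L.length

namespace Par

variable {q : ℝ} {L : List ℝ}

theorem four_le (h : Par q L) : 4 ≤ q := by
  rw [h.hq]
  calc (4 : ℝ) = 2 ^ 2 := by norm_num
    _ ≤ 2 ^ L.length := pow_le_pow_right₀ (by norm_num) h.hL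

theorem pos (h : Par q L) : 0 < q := by linarith [h.four_le]

theorem dig_eq (h : Par q L) (m : ℕ) (z : ℝ) (h0 : 0 ≤ z) (h1 : z < 1) :
    dig m L (0, z) = ((⌊q ^ m * z⌋ : ℝ), Int.fract (q ^ m * z)) := by
  unfold dig
  rw [foldl_iterate, ← Function.iterate_mul, bitStep_iter _ _ h0 h1, h.hq, ← pow_mul,
    Nat.mul_comm]

/-- `q ^ m` is an integer -/
theorem int_pow (h : Par q L) (m : ℕ) : ∃ z : ℕ, q ^ m = z := by
  refine ⟨(2 ^ L.length) ^ m, ?_⟩
  rw [h.hq]; push_cast; rfl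

theorem int_hh (h : Par q L) : ∃ z : ℕ, hh q = z := by
  refine ⟨2 ^ (L.length * 60 - 1), ?_⟩
  unfold hh
  have h2 : L.length * 60 = (L.length * 60 - 1) + 1 := by have := h.hL; omega
  rw [h.hq, ← pow_mul, h2, pow_succ]
  push_cast
  have : (2 : ℝ) ^ (L.length * 60 - 1) ≠ 0 := by positivity
  norm_num

end Par

theorem hh_eq (q : ℝ) : hh q = q ^ 60 / 2 := by unfold hh; norm_num

/-- rounding down to the grid -/
def gr (q x : ℝ) : ℝ := (⌊q ^ 40 * x⌋ : ℝ) / q ^ 40

theorem floor_add_nat' (x : ℝ) {y : ℝ} (hy : ∃ z : ℕ, y = z) :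
    (⌊x + y⌋ : ℝ) = ⌊x⌋ + y := by
  obtain ⟨z, rfl⟩ := hy
  rw [Int.floor_add_natCast]; push_cast; rfl

theorem Par.rnd_eq {q : ℝ} {L : List ℝ} (h : Par q L) (x : ℝ) (hx : |q ^ 40 * x| < hh q) :
    rnd q L x = gr q x := by
  have h0 : 0 < q ^ 60 := pow_pos h.pos _
  have h1 := abs_lt.1 hx
  have h2 : hh q = q ^ 60 / 2 := hh_eq q
  unfold rnd gr
  rw [h.dig_eq 60 _ (div_nonneg (by linarith [h1.1]) h0.le) (by
    rw [div_lt_one h0]; linarith [h1.2]), mul_div_cancel₀ _ h0.ne', floor_add_nat' _ h.int_hh]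
  ring

theorem gr_le (q x : ℝ) (h : 0 < q) : gr q x ≤ x := by
  have h0 : 0 < q ^ 40 := pow_pos h _
  unfold gr
  rw [div_le_iff₀ h0]
  have := Int.floor_le (q ^ 40 * x)
  linarith

theorem lt_gr (q x : ℝ) (h : 0 < q) : x - 1 / q ^ 40 < gr q x := by
  have h0 : 0 < q ^ 40 := pow_pos h _
  unfold gr
  rw [lt_div_iff₀ h0, sub_mul, div_mul_cancel₀ _ h0.ne']
  have := Int.lt_floor_add_one (q ^ 40 * x)
  linarith

theorem abs_gr_sub (q x : ℝ) (h : 0 < q) : |gr q x - x| ≤ 1 / q ^ 40 := by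
  rw [abs_le]
  have h1 := gr_le q x h
  have h2 := lt_gr q x h
  have h3 : 0 < 1 / q ^ 40 := by positivity
  constructor <;> linarith

/-! ### Packing and unpacking -/

theorem pack_nil (q : ℝ) : pack q [] = 0 := rfl

theorem pack_append (q : ℝ) (l : List ℝ) (d : ℝ) :
    pack q (l ++ [d]) = (pack q l + d) / q ^ 100 := by
  unfold pack
  rw [List.foldl_append]
  rfl

/-- digits: natural numbers below `q ^ 100` -/
def IsDigit (q e : ℝ) : Prop := ∃ m : ℕ, e = m ∧ e < q ^ 100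

theorem Par.pack_range {q : ℝ} {L : List ℝ} (h : Par q L) (l : List ℝ)
    (hl : ∀ e ∈ l, IsDigit q e) : 0 ≤ pack q l ∧ pack q l < 1 := by
  induction l using List.reverseRecOn with
  | nil => rw [pack_nil]; norm_num
  | append_singleton l d ih =>
    obtain ⟨h1, h2⟩ := ih fun e he => hl e (by simp [he])
    obtain ⟨m, h3, h4⟩ := hl d (by simp)
    have h0 : 0 < q ^ 100 := pow_pos h.pos _
    rw [pack_append]
    constructor
    · exact div_nonneg (by rw [h3]; positivity) h0.le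
    · rw [div_lt_one h0]
      obtain ⟨w, hw⟩ := h.int_pow 100
      rw [hw, h3] at h4 ⊢
      have h5 : m + 1 ≤ w := by exact_mod_cast h4
      have h6 : (m : ℝ) + 1 ≤ w := by exact_mod_cast h5
      linarith

theorem Par.unStep_eq {q : ℝ} {L : List ℝ} (h : Par q L) (z e : ℝ) (l : List ℝ)
    (hz0 : 0 ≤ z) (hz1 : z < 1) (he : IsDigit q e) :
    unStep q L ((z + e) / q ^ 100, l) = (z, ((⌊e / q ^ 40⌋ : ℝ) - hh q) / q ^ 40 :: l) := by
  have h0 : 0 < q ^ 100 := pow_pos h.pos _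
  have h40 : 0 < q ^ 40 := pow_pos h.pos _
  obtain ⟨m, h3, h4⟩ := he
  obtain ⟨w, hw⟩ := h.int_pow 100
  obtain ⟨v, hv⟩ := h.int_pow 40
  have h5 : 0 ≤ (z + e) / q ^ 100 := div_nonneg (by rw [h3]; positivity) h0.le
  have h6 : (z + e) / q ^ 100 < 1 := by
    rw [div_lt_one h0, hw, h3]
    rw [hw, h3] at h4
    have h5 : m + 1 ≤ w := by exact_mod_cast h4
    have h6 : (m : ℝ) + 1 ≤ w := by exact_mod_cast h5
    linarith
  have h7 : q ^ 60 * ((z + e) / q ^ 100) = (z + e) / q ^ 40 := by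
    have : q ^ 100 = q ^ 60 * q ^ 40 := by ring
    have h60 : q ^ 60 ≠ 0 := (pow_pos h.pos _).ne'
    rw [this]
    field_simp
  unfold unStep
  rw [h.dig_eq 60 _ h5 h6, h7]
  have h8 : ⌊(z + e) / q ^ 40⌋ = ⌊e / q ^ 40⌋ := by
    rw [hv, Int.floor_div_natCast, Int.floor_div_natCast, h3, add_comm,
      Int.floor_natCast_add, Int.floor_eq_zero_iff.2 ⟨hz0, hz1⟩, add_zero, Int.floor_natCast]
  rw [h.dig_eq 40 _ (Int.fract_nonneg _) (Int.fract_lt_one _)]
  simp only
  rw [h8]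
  refine Prod.ext ?_ rfl
  simp only
  have h9 : q ^ 40 * Int.fract ((z + e) / q ^ 40) = z + ((m - v * ⌊e / q ^ 40⌋ : ℤ) : ℝ) := by
    rw [Int.fract, h8, mul_sub, mul_div_cancel₀ _ h40.ne', h3, hv]
    push_cast
    ring
  rw [h9, Int.fract_add_intCast, Int.fract_eq_self.2 ⟨hz0, hz1⟩]

theorem Par.unpack_pack {q : ℝ} {L : List ℝ} (h : Par q L) (l : List ℝ)
    (hl : ∀ e ∈ l, IsDigit q e) : ∀ (c : List ℝ) (acc : List ℝ), c.length = l.length →
    (c.foldl (fun s _ => unStep q L s) (pack q l, acc)).2 =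
      l.map (fun e => ((⌊e / q ^ 40⌋ : ℝ) - hh q) / q ^ 40) ++ acc := by
  induction l using List.reverseRecOn with
  | nil =>
    intro c acc hc
    have : c = [] := List.length_eq_zero_iff.1 (by simpa using hc)
    rw [this]
    rfl
  | append_singleton l d ih =>
    intro c acc hc
    cases c with
    | nil => simp at hc
    | cons y c =>
      rw [List.foldl_cons, pack_append]
      have h1 := h.pack_range l fun e he => hl e (by simp [he])
      rw [h.unStep_eq _ _ _ h1.1 h1.2 (hl d (by simp)), ih (fun e he => hl e (by simp [he])) c _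
        (by simpa using hc)]
      simp

end Pool.Agent.Z85.LS
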