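import Pool.Agent.Z85.LS.Sem

set_option autoImplicit false

noncomputable section

open scoped Classical

namespace Pool.Agent.Z85.LS

/-- the list of the rows of a matrix -/
def rows {m n : ℕ} (A : Matrix (Fin m) (Fin n) ℝ) : List (List ℝ) :=
  List.ofFn fun i => List.ofFn fun j => A i j

theorem zip_ofFn {β γ : Type} {n : ℕ} (f : Fin n → β) (g : Fin n → γ) :
    (List.ofFn f).zip (List.ofFn g) = List.ofFn fun i => (f i, g i) := by
  apply List.ext_getElem <;> simp

theorem map_ofFn' {β γ : Type} {n : ℕ} (f : Fin n → β) (g : β → γ) :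
    (List.ofFn f).map g = List.ofFn fun i => g (f i) := by
  apply List.ext_getElem <;> simp

theorem foldl_sum {β : Type} {n : ℕ} (f : Fin n → β) (g : β → ℝ) (s : ℝ) :
    (List.ofFn f).foldl (fun s y => s + g y) s = s + ∑ i, g (f i) := by
  induction n generalizing s with
  | zero => simp
  | succ n ih =>
    rw [List.ofFn_succ, List.foldl_cons, ih, Fin.sum_univ_succ]
    ring

theorem dot_ofFn {n : ℕ} (u v : Fin n → ℝ) :
    dot (List.ofFn u) (List.ofFn v) = ∑ i, u i * v i := by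
  unfold dot
  rw [zip_ofFn, foldl_sum (fun i => (u i, v i)) (fun p : ℝ × ℝ => p.1 * p.2), zero_add]

theorem mv_rows {m n : ℕ} (A : Matrix (Fin m) (Fin n) ℝ) (v : Fin n → ℝ) :
    mv (rows A) (List.ofFn v) = List.ofFn (A.mulVec v) := by
  unfold mv rows
  rw [map_ofFn']
  congr 1
  funext i
  rw [dot_ofFn]
  rfl

theorem addv_ofFn {n : ℕ} (u v : Fin n → ℝ) :
    addv (List.ofFn u) (List.ofFn v) = List.ofFn (u + v) := by
  unfold addv
  rw [zip_ofFn, map_ofFn']
  rfl

theorem subv_ofFn {n : ℕ} (u v : Fin n → ℝ) :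
    subv (List.ofFn u) (List.ofFn v) = List.ofFn (u - v) := by
  unfold subv
  rw [zip_ofFn, map_ofFn']
  rfl

theorem sqs_rows {m n : ℕ} (A : Matrix (Fin m) (Fin n) ℝ) :
    sqs (rows A) = ∑ i, ∑ j, A i j * A i j := by
  unfold sqs rows
  rw [foldl_sum (fun i => List.ofFn fun j => A i j) (fun row => dot row row), zero_add]
  exact Finset.sum_congr rfl fun i _ => dot_ofFn _ _

theorem foldr_trans {m n : ℕ} (A : Matrix (Fin m) (Fin n) ℝ) :
    (rows A).foldr (fun row acc => (row.zip acc).map (fun p => p.1 :: p.2))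
      (List.ofFn fun _ : Fin n => ([] : List ℝ)) =
      rows A.transpose := by
  induction m with
  | zero => simp [rows]
  | succ m ih =>
    unfold rows
    rw [List.ofFn_succ, List.foldr_cons]
    have h := ih (fun i j => A i.succ j)
    unfold rows at h
    rw [h, zip_ofFn, map_ofFn']
    congr 1
    funext j
    rw [List.ofFn_succ]
    rfl

theorem trans_rows {n : ℕ} (A : Matrix (Fin n) (Fin n) ℝ) : trans (rows A) = rows A.transpose := by
  unfold trans
  rw [List.foldl_reverse]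
  have h1 : (rows A).map (fun _ => ([] : List ℝ)) = List.ofFn fun _ : Fin n => ([] : List ℝ) := by
    unfold rows
    rw [map_ofFn']
  rw [h1]
  exact foldr_trans A

theorem pack_ofFn (q : ℝ) {n : ℕ} (d : Fin n → ℝ) :
    pack q (List.ofFn d) = ∑ j : Fin n, d j * ((1 / q ^ 100) ^ (n - (j : ℕ))) := by
  induction n with
  | zero => simp [pack_nil]
  | succ n ih =>
    rw [List.ofFn_succ', List.concat_eq_append, pack_append, ih, Fin.sum_univ_castSucc, add_div,
      Finset.sum_div]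
    congr 1
    · refine Finset.sum_congr rfl fun j _ => ?_
      have h1 : n + 1 - ((Fin.castSucc j : Fin (n + 1)) : ℕ) = (n - (j : ℕ)) + 1 := by
        have := j.2
        simp only [Fin.val_castSucc]
        omega
      rw [h1, pow_succ]
      ring
    · simp only [Fin.val_last]
      rw [show n + 1 - n = 1 by omega]
      ring

theorem packOne_eq (q : ℝ) (l : List ℝ) : packOne q l = pack q (l.map fun _ => 1) := by
  unfold packOne pack
  rw [List.foldl_map]

/-- all entries are multiples of `q ^ (-40)` -/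
def Grid (q : ℝ) {m n : ℕ} (A : Matrix (Fin m) (Fin n) ℝ) : Prop :=
  ∀ i j, ∃ z : ℤ, q ^ 40 * A i j = z

/-- entrywise rounding -/
def grM (q : ℝ) {m n : ℕ} (A : Matrix (Fin m) (Fin n) ℝ) : Matrix (Fin m) (Fin n) ℝ :=
  fun i j => gr q (A i j)

theorem grid_grM {q : ℝ} (h : 0 < q) {m n : ℕ} (A : Matrix (Fin m) (Fin n) ℝ) :
    Grid q (grM q A) := by
  intro i j
  refine ⟨⌊q ^ 40 * A i j⌋, ?_⟩
  unfold grM gr
  rw [mul_div_cancel₀ _ (pow_pos h _).ne']

theorem grid_sum {q : ℝ} {n : ℕ} {A X : Matrix (Fin n) (Fin n) ℝ} (hA : Grid q A)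
    (hX : Grid q X) (i j : Fin n) : ∃ z : ℤ, q ^ 40 * q ^ 40 * (A * X) i j = z := by
  choose a ha using hA
  choose x hx using hX
  refine ⟨∑ k, a i k * x k j, ?_⟩
  rw [Matrix.mul_apply, Finset.mul_sum]
  push_cast
  refine Finset.sum_congr rfl fun k _ => ?_
  rw [← ha, ← hx]
  ring

theorem Par.mulr_rows {q : ℝ} {L : List ℝ} (h : Par q L) {n : ℕ}
    {A X : Matrix (Fin n) (Fin n) ℝ} (hA : Grid q A) (hX : Grid q X)
    (hAX : ∀ i j, |q ^ 40 * (A * X) i j| < hh q) :
    mulr q L (rows A) (rows X) = rows (grM q (A * X)) := by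
  have hq := h.pos
  have h40 : 0 < q ^ 40 := pow_pos hq _
  unfold mulr
  have h1 : (rows X).map (pack q) = List.ofFn fun k =>
      ∑ j : Fin n, X k j * ((1 / q ^ 100) ^ (n - (j : ℕ))) := by
    unfold rows
    rw [map_ofFn']
    congr 1
    funext k
    exact pack_ofFn q _
  rw [h1]
  unfold rows
  rw [map_ofFn']
  congr 1
  funext i
  rw [dot_ofFn, packOne_eq, map_ofFn', pack_ofFn]
  have h2 : q ^ 40 * q ^ 40 * (∑ k, A i k * ∑ j : Fin n, X k j *
      ((1 / q ^ 100) ^ (n - (j : ℕ)))) + hh q * q ^ 40 *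
      ∑ j : Fin n, 1 * ((1 / q ^ 100) ^ (n - (j : ℕ))) =
      pack q (List.ofFn fun j => q ^ 40 * q ^ 40 * (A * X) i j + hh q * q ^ 40) := by
    rw [pack_ofFn, Finset.mul_sum]
    simp_rw [Finset.mul_sum]
    rw [Finset.sum_comm, ← Finset.sum_add_distrib]
    refine Finset.sum_congr rfl fun j _ => ?_
    rw [Matrix.mul_apply, Finset.mul_sum, add_mul, Finset.sum_mul]
    congr 1
    · refine Finset.sum_congr rfl fun k _ => ?_
      ring
    · ring
  rw [h2]
  unfold unpack
  have h3 : ∀ e ∈ List.ofFn (fun j => q ^ 40 * q ^ 40 * (A * X) i j + hh q * q ^ 40),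
      IsDigit q e := by
    intro e he
    rw [List.mem_ofFn] at he
    obtain ⟨j, rfl⟩ := he
    obtain ⟨z, hz⟩ := grid_sum hA hX i j
    obtain ⟨a, ha⟩ := h.int_hh
    obtain ⟨b, hb⟩ := h.int_pow 40
    have h4 := abs_lt.1 (hAX i j)
    have h5 : q ^ 40 * q ^ 40 * (A * X) i j + hh q * q ^ 40 =
      q ^ 40 * (q ^ 40 * (A * X) i j + hh q) := by ring
    have h6 : 0 ≤ q ^ 40 * q ^ 40 * (A * X) i j + hh q * q ^ 40 := by
      rw [h5]
      exact mul_nonneg h40.le (by linarith [h4.1])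
    have h7 : q ^ 40 * q ^ 40 * (A * X) i j + hh q * q ^ 40 = ((z + a * b : ℤ) : ℝ) := by
      rw [hz]; push_cast; rw [ha, hb]
    have h8 : 0 ≤ z + a * b := by
      have : (0 : ℝ) ≤ ((z + a * b : ℤ) : ℝ) := by rw [← h7]; exact h6
      exact_mod_cast this
    refine ⟨(z + a * b).toNat, ?_, ?_⟩
    · rw [h7]
      have h9 : ((z + a * b).toNat : ℤ) = z + a * b := Int.toNat_of_nonneg h8
      have h10 : (((z + a * b).toNat : ℤ) : ℝ) = ((z + a * b : ℤ) : ℝ) := by rw [h9]
      rw [← h10, Int.cast_natCast]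
    · rw [h5]
      have h9 : hh q = q ^ 60 / 2 := hh_eq q
      have h10 : q ^ 40 * (A * X) i j + hh q < q ^ 60 := by linarith [h4.2]
      calc q ^ 40 * (q ^ 40 * (A * X) i j + hh q) < q ^ 40 * q ^ 60 :=
            mul_lt_mul_of_pos_left h10 h40
        _ = q ^ 100 := by ring
  rw [h.unpack_pack _ h3 _ _ (by simp), List.append_nil, map_ofFn']
  congr 1
  funext j
  have h5 : (q ^ 40 * q ^ 40 * (A * X) i j + hh q * q ^ 40) / q ^ 40 =
      q ^ 40 * (A * X) i j + hh q := by
    field_simp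
  rw [h5, floor_add_nat' _ h.int_hh]
  unfold grM gr
  ring

theorem newton_rows_aux {n : ℕ} (X Z : Matrix (Fin n) (Fin n) ℝ) :
    ((rows X).zip (rows Z)).map (fun p => (p.1.zip p.2).map (fun t => t.1 + t.1 - t.2)) =
      rows (X + X - Z) := by
  unfold rows
  rw [zip_ofFn, map_ofFn']
  congr 1
  funext i
  rw [zip_ofFn, map_ofFn']
  rfl

theorem Par.newton_rows {q : ℝ} {L : List ℝ} (h : Par q L) {n : ℕ}
    {A X : Matrix (Fin n) (Fin n) ℝ} (hA : Grid q A) (hX : Grid q X)
    (hAX : ∀ i j, |q ^ 40 * (A * X) i j| < hh q)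
    (hXAX : ∀ i j, |q ^ 40 * (X * grM q (A * X)) i j| < hh q) :
    newton q L (rows A) (rows X) = rows (X + X - grM q (X * grM q (A * X))) := by
  unfold newton
  rw [h.mulr_rows hA hX hAX, h.mulr_rows hX (grid_grM h.pos _) hXAX, newton_rows_aux]

theorem Par.rndM_rows {q : ℝ} {L : List ℝ} (h : Par q L) {m n : ℕ}
    {A : Matrix (Fin m) (Fin n) ℝ} (hA : ∀ i j, |q ^ 40 * A i j| < hh q) :
    rndM q L (rows A) = rows (grM q A) := by
  unfold rndM rows
  rw [map_ofFn']
  congr 1
  funext i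
  rw [map_ofFn']
  congr 1
  funext j
  exact h.rnd_eq _ (hA i j)

theorem Par.start_rows {q : ℝ} {L : List ℝ} (h : Par q L) {n : ℕ}
    {A : Matrix (Fin n) (Fin n) ℝ}
    (hA : ∀ i j, |q ^ 40 * (A i j / ∑ i, ∑ j, A i j * A i j)| < hh q) :
    start q L (rows A) =
      rows (grM q (fun i j => A j i / ∑ i, ∑ j, A i j * A i j)) := by
  unfold start
  rw [trans_rows, sqs_rows]
  unfold rows
  rw [map_ofFn']
  congr 1
  funext i
  rw [map_ofFn']
  congr 1
  funext j
  exact h.rnd_eq _ (hA j i)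

/-- `T` steps of the iteration; the conditions are formulated with an invariant -/
theorem Par.inv_rows {q : ℝ} {L : List ℝ} (h : Par q L) {n : ℕ}
    {A : Matrix (Fin n) (Fin n) ℝ} (hA : Grid q A)
    (hS : ∀ i j, |q ^ 40 * (A i j / ∑ i, ∑ j, A i j * A i j)| < hh q)
    (I : ℕ → Matrix (Fin n) (Fin n) ℝ → Prop)
    (h0 : I 0 (grM q (fun i j => A j i / ∑ i, ∑ j, A i j * A i j)))
    (hI : ∀ t X, I t X → Grid q X → (∀ i j, |q ^ 40 * (A * X) i j| < hh q) ∧
      (∀ i j, |q ^ 40 * (X * grM q (A * X)) i j| < hh q) ∧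
      I (t + 1) (X + X - grM q (X * grM q (A * X)))) :
    ∃ X, inv q L (rows A) = rows X ∧ I (40 * L.length) X := by
  have hq := h.pos
  have key : ∀ t, ∃ X, (newton q L (rows A))^[t] (start q L (rows A)) = rows X ∧ Grid q X ∧
      I t X := by
    intro t
    induction t with
    | zero => exact ⟨_, h.start_rows hS, grid_grM hq _, h0⟩
    | succ t ih =>
      obtain ⟨X, h1, h2, h3⟩ := ih
      obtain ⟨h4, h5, h6⟩ := hI t X h3 h2
      refine ⟨_, ?_, ?_, h6⟩
      · rw [Function.iterate_succ_apply', h1, h.newton_rows hA h2 h4 h5]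
      · intro i j
        obtain ⟨a, ha⟩ := h2 i j
        obtain ⟨b, hb⟩ := grid_grM hq (X * grM q (A * X)) i j
        refine ⟨a + a - b, ?_⟩
        rw [Matrix.sub_apply, Matrix.add_apply, mul_sub, mul_add, ha, hb]
        push_cast
        ring
  obtain ⟨X, h1, h2, h3⟩ := key (40 * L.length)
  refine ⟨X, ?_, h3⟩
  unfold inv
  rw [foldl_iterate (fun X => (newton q L (rows A))^[40] X), ← h1, ← Function.iterate_mul]

end Pool.Agent.Z85.LS
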