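import Pool.Agent.Z85.LS.Algo

set_option autoImplicit false

noncomputable section

open scoped Classical

namespace Pool.Agent.Z85.LS

theorem computes_while {α : Type} {h : α → ℝ} {s : α → α} {ch cs : α → ℕ}
    (hh : Computes h ch) (hs : Computes s cs) (hterm : ∀ x, ∃ k, h (s^[k] x) < 0) :
    Computes (fun x => s^[Nat.find (hterm x)] x)
      (fun x => ∑ j ∈ Finset.range (Nat.find (hterm x)), (ch (s^[j] x) + 1 + cs (s^[j] x))
        + (ch (s^[Nat.find (hterm x)] x) + 1)) :=
  Computes.loop hh hs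
    (fun x j hj => not_lt.1 (Nat.find_min (hterm x) hj)) (fun x => Nat.find_spec (hterm x))

/-! ### The parameters -/

/-- state: `(n, q, L)` -/
def qTest (s : ℝ × ℝ × List ℝ) : ℝ := if 0 ≤ 0 - s.2.1 then -1 else s.1 - s.2.1

def qBody (s : ℝ × ℝ × List ℝ) : ℝ × ℝ × List ℝ := (s.1, s.2.1 + s.2.1, 0 :: s.2.2)

theorem qBody_iter (n q : ℝ) (L : List ℝ) (k : ℕ) :
    qBody^[k] (n, q, L) = (n, 2 ^ k * q, List.replicate k 0 ++ L) := by
  induction k generalizing q L with
  | zero => simp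
  | succ k ih =>
    rw [Function.iterate_succ_apply]
    show qBody^[k] (n, q + q, 0 :: L) = _
    rw [ih]
    refine Prod.ext rfl (Prod.ext ?_ ?_)
    · show 2 ^ k * (q + q) = 2 ^ (k + 1) * q
      ring
    · show List.replicate k (0 : ℝ) ++ 0 :: L = List.replicate (k + 1) 0 ++ L
      rw [List.replicate_succ', List.append_assoc]
      rfl

theorem q_term (s : ℝ × ℝ × List ℝ) : ∃ k, qTest (qBody^[k] s) < 0 := by
  obtain ⟨n, q, L⟩ := s
  by_cases hq : q ≤ 0
  · refine ⟨0, ?_⟩
    show qTest (n, q, L) < 0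
    unfold qTest
    rw [if_pos (by simpa using hq)]
    norm_num
  · push Not at hq
    obtain ⟨k, hk⟩ := pow_unbounded_of_one_lt (n / q) (by norm_num : (1 : ℝ) < 2)
    refine ⟨k, ?_⟩
    rw [qBody_iter]
    unfold qTest
    have h1 : 0 < 2 ^ k * q := by positivity
    rw [if_neg (by simp only; linarith)]
    have h2 : n < 2 ^ k * q := by rwa [div_lt_iff₀ hq] at hk
    simp only
    linarith

/-- number of doublings -/
def kk (n : ℝ) : ℕ := Nat.find (q_term (n, 1, []))

/-- `(q, L)` for the given `n` -/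
def params (n : ℝ) : ℝ × List ℝ := (qBody^[kk n] (n, 1, [])).2

theorem params_eq (n : ℝ) : params n = (2 ^ kk n, List.replicate (kk n) 0) := by
  unfold params
  rw [qBody_iter]
  simp

theorem kk_spec (n : ℝ) : n < 2 ^ kk n := by
  have h := Nat.find_spec (q_term (n, 1, []))
  change qTest (qBody^[kk n] (n, 1, [])) < 0 at h
  rw [qBody_iter] at h
  unfold qTest at h
  have h1 : (0 : ℝ) < 2 ^ kk n * 1 := by positivity
  rw [if_neg (by simp only; linarith)] at h
  simp only at h
  linarith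

theorem kk_le {n : ℝ} (hn : 1 ≤ n) : 2 ^ kk n ≤ 2 * n := by
  by_cases h0 : kk n = 0
  · rw [h0]; norm_num; linarith
  · obtain ⟨j, hj⟩ := Nat.exists_eq_succ_of_ne_zero h0
    have h := Nat.find_min (q_term (n, 1, [])) (m := j) (by
      change j < kk n
      omega)
    rw [qBody_iter] at h
    unfold qTest at h
    have h1 : (0 : ℝ) < 2 ^ j * 1 := by positivity
    rw [if_neg (by simp only; linarith)] at h
    simp only at h
    rw [hj, pow_succ]
    linarith

section prog

variable {a b : ℕ} {α : Type} {P : Shape α}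

/-- the number of doublings is at most `k` -/
def KS : Shape ℝ := fun _ k x => kk x ≤ k

theorem Prog.params : Prog 0 1 KS params (PS Any (LK Any)) := by
  obtain ⟨⟨ct, K1, h1, h2⟩, -⟩ : Prog 0 0 (Any : Shape (ℝ × ℝ × List ℝ)) qTest Any := by
    have h := Prog.branch (a := 0) (b := 0) (P := (PS Any (PS Any Any) : Shape (ℝ × ℝ × List ℝ)))
      (Prog.zero.sub Prog.id.snd.fst)
      Prog.negOne (Prog.id.fst.sub Prog.id.snd.fst)
    exact h.weaken (fun _ _ _ _ => ⟨trivial, trivial, trivial⟩) fun _ _ _ h => h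
  obtain ⟨⟨cs, K2, h3, h4⟩, -⟩ : Prog 0 0 (Any : Shape (ℝ × ℝ × List ℝ)) qBody Any := by
    have h := Prog.pair (a := 0) (b := 0) (P := (PS Any (PS Any (All Any)) :
      Shape (ℝ × ℝ × List ℝ))) Prog.id.fst (Prog.pair (Prog.id.snd.fst.add Prog.id.snd.fst)
        (Prog.consAll Prog.zero Prog.id.snd.snd))
    exact h.weaken (fun _ _ _ _ => ⟨trivial, trivial, fun _ _ => trivial⟩) fun _ _ _ _ => trivial
  have h5 := computes_while h1 h3 q_term
  have h6 : Computes (fun n : ℝ => (n, (1 : ℝ), ([] : List ℝ))) (fun _ => 4) :=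
    Computes.pair Computes.id (Computes.one.pair Computes.nil)
  have h7 := (h6.comp h5).comp Computes.snd
  refine ⟨⟨_, 4 + (K1 + 1 + K2) + 1, h7, ?_⟩, ?_⟩
  · intro n k x hx
    change kk x ≤ k at hx
    simp only [pow_zero, one_mul, mul_one, Any, forall_const] at h2 h4 ⊢
    have h8 : ∑ j ∈ Finset.range (Nat.find (q_term (x, 1, []))),
        (ct (qBody^[j] (x, 1, [])) + 1 + cs (qBody^[j] (x, 1, []))) ≤
        k * (K1 + 1 + K2) := by
      refine (Finset.sum_le_card_nsmul _ _ (K1 + 1 + K2) fun j _ => ?_).trans ?_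
      · have := h2 (qBody^[j] (x, 1, []))
        have := h4 (qBody^[j] (x, 1, []))
        omega
      · rw [Finset.card_range, smul_eq_mul]
        exact Nat.mul_le_mul_right _ hx
    have h9 := h2 (qBody^[Nat.find (q_term (x, 1, []))] (x, 1, []))
    have h10 : (4 + (K1 + 1 + K2) + 1) * (k + 1) =
      4 * k + 5 + k + k * (K1 + 1 + K2) + (K1 + 1 + K2) := by ring
    rw [pow_one, h10]
    omega
  · intro n k x hx
    change kk x ≤ k at hx
    change PS Any (LK Any) n k (LS.params x)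
    rw [params_eq]
    exact ⟨trivial, by simpa using hx, fun _ _ => trivial⟩

/-- length of a list -/
def len (l : List ℝ) : ℝ := l.foldl (fun s _ => s + 1) 0

theorem len_eq (l : List ℝ) : len l = l.length := by
  unfold len
  have : ∀ (l : List ℝ) (s : ℝ), l.foldl (fun s _ => s + 1) s = s + l.length := by
    intro l
    induction l with
    | nil => intro s; simp
    | cons y t ih => intro s; rw [List.foldl_cons, ih]; push_cast [List.length_cons]; ring
  rw [this, zero_add]

theorem Prog.len {l : α → List ℝ} (hl : Prog (a + 1) b P l (LN Any)) :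
    Prog (a + 1) b P (fun x => len (l x)) Any :=
  Prog.foldN (step := fun p : α × ℝ × ℝ => p.2.1 + 1) hl Prog.zero (Prog.id.snd.fst.add Prog.one)

/-- inputs `(ε, A, b)` -/
abbrev Inp := ℝ × List (List ℝ) × List ℝ

def IS : Shape Inp := fun n k x => Mat n k x.2.1 ∧ LN Any n k x.2.2 ∧ kk (len x.2.2) ≤ k

/-- the approximate inverse -/
def prep (x : Inp) : List (List ℝ) :=
  inv (params (len x.2.2)).1 (params (len x.2.2)).2
    (rndM (params (len x.2.2)).1 (params (len x.2.2)).2 x.2.1)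

theorem Prog.prep : Prog 2 2 IS prep Mat := by
  have h0 : Prog 2 2 IS (fun x : Inp => x.2.1) Mat :=
    (Prog.of_const (K := 2) (Computes.snd.comp Computes.fst) fun n k x hx => hx.1)
  have h1 : Prog 2 2 IS (fun x : Inp => x.2.2) (LN Any) :=
    (Prog.of_const (K := 2) (Computes.snd.comp Computes.snd) fun n k x hx => hx.2.1)
  have h2 : Prog 2 2 IS (fun x : Inp => LS.len x.2.2) KS :=
    (Prog.len h1).reshape fun n k x hx => hx.2.2
  have h3 : Prog 2 2 IS (fun x : Inp => LS.params (LS.len x.2.2)) (PS Any (LK Any)) :=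
    h2.comp (Prog.params.mono (by omega) (by omega))
  exact Prog.inv (a := 0) (b := 0) h3.fst h3.snd (Prog.rndM (a := 0) (b := 1) h3.fst h3.snd h0)

/-! ### Refinement -/

/-- state `((ε, A, X), (e, x, r))` -/
abbrev RS := (ℝ × List (List ℝ) × List (List ℝ)) × (ℝ × List ℝ × List ℝ)

def rTest (s : RS) : ℝ := if 0 ≤ 0 - s.1.1 then -1 else s.2.1 - s.1.1

def addv (u v : List ℝ) : List ℝ := (u.zip v).map (fun p => p.1 + p.2)

def subv (u v : List ℝ) : List ℝ := (u.zip v).map (fun p => p.1 - p.2)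

def rBody (s : RS) : RS :=
  (s.1, (s.2.1 * ((1 + 1 + 1 + 1) / (1 + 1 + 1 + 1 + 1)),
    addv s.2.2.1 (mv s.1.2.2 s.2.2.2), subv s.2.2.2 (mv s.1.2.1 (mv s.1.2.2 s.2.2.2))))

theorem rBody_e (s : RS) (k : ℕ) :
    (rBody^[k] s).1 = s.1 ∧ (rBody^[k] s).2.1 = (4 / 5) ^ k * s.2.1 := by
  induction k generalizing s with
  | zero => simp
  | succ k ih =>
    rw [Function.iterate_succ_apply]
    obtain ⟨h1, h2⟩ := ih (rBody s)
    refine ⟨h1, ?_⟩
    rw [h2]
    simp only [rBody]
    rw [pow_succ]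
    ring

theorem r_term (s : RS) : ∃ k, rTest (rBody^[k] s) < 0 := by
  by_cases hq : s.1.1 ≤ 0
  · refine ⟨0, ?_⟩
    show rTest s < 0
    unfold rTest
    rw [if_pos (by simpa using hq)]
    norm_num
  · push Not at hq
    have h1 : Filter.Tendsto (fun k : ℕ => (4 / 5 : ℝ) ^ k * s.2.1) Filter.atTop (nhds (0 * s.2.1)) :=
      (tendsto_pow_atTop_nhds_zero_of_lt_one (by norm_num) (by norm_num)).mul_const _
    rw [zero_mul] at h1
    obtain ⟨k, hk⟩ := (h1.eventually (gt_mem_nhds hq)).exists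
    refine ⟨k, ?_⟩
    obtain ⟨h2, h3⟩ := rBody_e s k
    unfold rTest
    rw [h2, h3, if_neg (by linarith)]
    linarith

theorem Prog.addv {u v : α → List ℝ} (hu : Prog (a + 1) b P u (LN Any))
    (hv : Prog (a + 1) b P v (LN Any)) : Prog (a + 1) b P (fun x => addv (u x) (v x)) (LN Any) :=
  Prog.map (g := fun p : α × ℝ × ℝ => p.2.1 + p.2.2) (R := PS Any Any)
    (hu.zip (hv.weaken (fun _ _ _ h => h) fun _ _ _ h => h.2))
    (Prog.id.snd.fst.add Prog.id.snd.snd)

theorem Prog.subv {u v : α → List ℝ} (hu : Prog (a + 1) b P u (LN Any))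
    (hv : Prog (a + 1) b P v (LN Any)) : Prog (a + 1) b P (fun x => subv (u x) (v x)) (LN Any) :=
  Prog.map (g := fun p : α × ℝ × ℝ => p.2.1 - p.2.2) (R := PS Any Any)
    (hu.zip (hv.weaken (fun _ _ _ h => h) fun _ _ _ h => h.2))
    (Prog.id.snd.fst.sub Prog.id.snd.snd)

/-- good states -/
abbrev SS : Shape RS := PS (PS Any (PS Mat Mat)) (PS Any (PS (LN Any) (LN Any)))

theorem Prog.rBody : Prog 2 0 SS rBody SS :=
  Prog.pair Prog.id.fst (Prog.pair (Prog.id.snd.fst.mul ((((Prog.one.add Prog.one).add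
    Prog.one).add Prog.one).div ((((Prog.one.add Prog.one).add Prog.one).add Prog.one).add
      Prog.one))) (Prog.pair
      (Prog.addv (a := 1) Prog.id.snd.snd.fst (Prog.mv (a := 0) Prog.id.fst.snd.snd
        Prog.id.snd.snd.snd))
      (Prog.subv (a := 1) Prog.id.snd.snd.snd (Prog.mv (a := 0) Prog.id.fst.snd.fst
        (Prog.mv (a := 0) Prog.id.fst.snd.snd Prog.id.snd.snd.snd)))))

/-- number of refinement steps -/
def rounds (s : RS) : ℕ := Nat.find (r_term s)

/-- the initial state of the refinement -/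
def init (x : Inp) : RS := ((x.1, x.2.1, prep x), (1, x.2.2.map (fun _ => 0), x.2.2))

/-- **the algorithm** -/
def solve (x : Inp) : List ℝ := (rBody^[rounds (init x)] (init x)).2.2.1

theorem Prog.init : Prog 2 2 IS init SS := by
  have h0 : Prog 2 2 IS (fun x : Inp => x.2.1) Mat :=
    (Prog.of_const (K := 2) (Computes.snd.comp Computes.fst) fun n k x hx => hx.1)
  have h1 : Prog 2 2 IS (fun x : Inp => x.2.2) (LN Any) :=
    (Prog.of_const (K := 2) (Computes.snd.comp Computes.snd) fun n k x hx => hx.2.1)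
  have h2 : Prog 2 2 IS (fun x : Inp => x.1) Any :=
    (Prog.of_const (K := 1) Computes.fst fun n k x hx => trivial)
  exact (h2.pair (h0.pair Prog.prep)).pair (Prog.one.pair ((Prog.map (a := 1)
    (g := fun _ : Inp × ℝ => (0 : ℝ)) (R := Any) h1 Prog.zero).pair h1))

/-- the number of operations of the algorithm -/
theorem computes_solve : ∃ (c : Inp → ℕ) (K : ℕ), Computes solve c ∧
    ∀ n k x, IS n k x →
      c x ≤ K * ((n + 1) ^ 2 * (k + 1) ^ 2 + (rounds (init x) + 1) * (n + 1) ^ 2) := by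
  obtain ⟨⟨c0, K0, h1, h2⟩, h3⟩ := Prog.init
  obtain ⟨⟨ct, K1, h4, h5⟩, -⟩ : Prog 0 0 SS rTest Any :=
    Prog.branch (Prog.zero.sub Prog.id.fst.fst) Prog.negOne (Prog.id.snd.fst.sub Prog.id.fst.fst)
  obtain ⟨⟨cs, K2, h6, h7⟩, h8⟩ := Prog.rBody
  have h9 := h1.comp (((computes_while h4 h6 r_term).comp Computes.snd).comp Computes.snd)
  have h10 := h9.comp Computes.fst
  refine ⟨_, K0 + (K1 + 1 + K2) + K1 + 4, h10, fun n k x hx => ?_⟩
  have h11 : ∀ j, SS n k (rBody^[j] (init x)) := by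
    intro j
    induction j with
    | zero => exact h3 n k x hx
    | succ j ih =>
      rw [Function.iterate_succ_apply']
      exact h8 n k _ ih
  have h12 : ∑ j ∈ Finset.range (Nat.find (r_term (init x))),
      (ct (rBody^[j] (init x)) + 1 + cs (rBody^[j] (init x))) ≤
      rounds (init x) * ((K1 + 1 + K2) * (n + 1) ^ 2) := by
    refine (Finset.sum_le_card_nsmul _ _ ((K1 + 1 + K2) * (n + 1) ^ 2) fun j _ => ?_).trans ?_
    · have h13 := h5 n k _ (h11 j)
      have h14 := h7 n k _ (h11 j)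
      have h15 : 1 ≤ (n + 1) ^ 2 := Nat.one_le_pow _ _ (by omega)
      simp only [pow_zero, mul_one] at h13 h14
      nlinarith
    · rw [Finset.card_range, smul_eq_mul]
      exact le_rfl
  have h16 := h5 n k _ (h11 (Nat.find (r_term (init x))))
  have h17 := h2 n k x hx
  have h15 : 1 ≤ (n + 1) ^ 2 := Nat.one_le_pow _ _ (by omega)
  have h18 : 1 ≤ (k + 1) ^ 2 := Nat.one_le_pow _ _ (by omega)
  simp only [pow_zero, mul_one] at h16
  set R := rounds (init x)
  set N := (n + 1) ^ 2
  set W := N * (k + 1) ^ 2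
  have h19 : (K0 + (K1 + 1 + K2) + K1 + 4) * (W + (R + 1) * N) =
      K0 * W + ((K1 + 1 + K2) + K1 + 4) * W + K0 * ((R + 1) * N) + (K1 + 1 + K2) * (R * N)
      + (K1 + 1 + K2) * N + (K1 + 4) * (R * N) + (K1 + 4) * N := by ring
  have h20 : R * ((K1 + 1 + K2) * N) = (K1 + 1 + K2) * (R * N) := by ring
  have h21 : K1 + 4 ≤ (K1 + 4) * N := Nat.le_mul_of_pos_right _ h15
  rw [h19]
  omega

end prog

end Pool.Agent.Z85.LS
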